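import Pool.Agent.Lib.MP_42948a_nt.EX.C1
import Pool.Agent.Lib.MP_42948a_nt.TQ.A2
import Pool.Agent.Lib.MP_42948a_nt.TQ.A3
import Pool.Agent.Lib.MP_42948a_nt.TQ.A4
import Pool.Agent.Lib.MP_42948a_nt.PS.B2b

/-!
# Brun-Titchmarsh in a residue class, one modulus (job C2)

`sieve2` (TQ/A3) with `A = (Ioc Y X).filter (n ≡ b)`, `w n = rc n`, `g = gd d` (`adm_gd`), `X := log (X / Y) / d ≥ 0`, `R T = 4 / Y`. The condition for `T ∈ TT z K` (`T ⊆ PP z`, `∏ p ∈ T, p ≤ z^K ≤ Y / 2`):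
if all `p ∈ T` do not divide `d`, then `e = ∏ p ∈ T, p` is coprime to `d`, `(∀ p ∈ T, p ∣ n) ↔ e ∣ n` (`Finset.prod_primes_dvd`), `gd_prod` (TQ/A4) gives `∏ gd = 1 / e`: `class_multiples`.
Otherwise the product `∏ gd` is `0` and no `n ≡ b` is divisible by a prime `p ∣ d` (the class of `n` is a unit), so the sum is `0`.
`∑_{TT} R T ≤ z^K * 4 / Y` (`card_TT`). The primes `m ∈ (Y, X]`, `m ≡ b` are not divisible by any `p ∈ PP z` (`p ≤ z ≤ Y < m`), so their sum is at most the sifted sum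
`≤ (1 + τ) (log (X / Y) / d) * VV d z + z^K * 4 / Y`, and `VV d z * (φ / d) ≤ 1 / log z` (`VV_upper`, PS/B2b), i.e. `VV d z / d ≤ 1 / (φ log z)`.
-/

namespace Pool.Agent.Lib.MP_42948a_nt.EX

open Finset Pool.Agent.Lib.MP_42948a_nt.OA Pool.Agent.Lib.MP_42948a_nt.AC Pool.Agent.Lib.MP_42948a_nt.TQ
  Pool.Agent.Lib.MP_42948a_nt.PS

theorem brun_one {τ : ℝ} {K z : ℕ} {u l : Finset ℕ → ℝ} (hF : Fund τ K z u l) (hτ : 0 ≤ τ) (hz : 2 ≤ z) (d : ℕ) [NeZero d]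
    (b : (ZMod d)ˣ) (Y X : ℕ) (hzY : 2 * z ^ K ≤ Y) (hzY' : z ≤ Y) (hYX : Y ≤ X) :
    ∑ m ∈ ((Ioc Y X).filter Nat.Prime).filter (fun m : ℕ => (m : ZMod d) = (b : ZMod d)), rc m ≤
      (1 + τ) * Real.log ((X : ℝ) / Y) / ((Fintype.card (ZMod d)ˣ : ℝ) * Real.log z) + (z : ℝ) ^ K * (4 / Y) := by
  classical
  have hY0 : 0 < Y := by omega
  have hYr : (0 : ℝ) < Y := by exact_mod_cast hY0
  have hL : 0 ≤ Real.log ((X : ℝ) / Y) :=
    Real.log_nonneg ((one_le_div hYr).2 (by exact_mod_cast hYX))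
  have hd0 : (0 : ℝ) < d := by exact_mod_cast Nat.pos_of_ne_zero (NeZero.ne d)
  have hφ : (0 : ℝ) < (Fintype.card (ZMod d)ˣ : ℝ) := by exact_mod_cast Fintype.card_pos
  have hz1 : (1 : ℝ) < z := by exact_mod_cast hz
  have hlz : 0 < Real.log z := Real.log_pos hz1
  have hX0 : 0 ≤ Real.log ((X : ℝ) / Y) / d := div_nonneg hL hd0.le
  have hcop : ∀ n ∈ (Ioc Y X).filter (fun n : ℕ => (n : ZMod d) = (b : ZMod d)), n.Coprime d := by
    intro n hn
    rw [← ZMod.isUnit_iff_coprime, (mem_filter.1 hn).2]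
    exact b.isUnit
  have hR : ∀ T ∈ TT z K, |∑ n ∈ ((Ioc Y X).filter (fun n : ℕ => (n : ZMod d) = (b : ZMod d))).filter
      (fun n : ℕ => ∀ p ∈ T, p ∣ n), rc n - Real.log ((X : ℝ) / Y) / d * ∏ p ∈ T, gd d p| ≤ (fun _ => 4 / (Y : ℝ)) T := by
    intro T hT
    obtain ⟨hTs, hTp⟩ := mem_filter.1 hT
    rw [mem_powerset] at hTs
    have hpr : ∀ p ∈ T, p.Prime := fun p hp => (mem_filter.1 (hTs hp)).2
    by_cases h : ∀ p ∈ T, ¬ p ∣ d
    · rw [gd_prod, if_pos h]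
      have he1 : 1 ≤ ∏ p ∈ T, p := Finset.prod_pos fun p hp => (hpr p hp).pos
      have hed : (∏ p ∈ T, p).Coprime d :=
        Nat.Coprime.prod_left fun p hp => ((hpr p hp).coprime_iff_not_dvd).2 (h p hp)
      have hfil : ((Ioc Y X).filter (fun n : ℕ => (n : ZMod d) = (b : ZMod d))).filter
          (fun n : ℕ => ∀ p ∈ T, p ∣ n) =
          ((Ioc Y X).filter (fun n : ℕ => (n : ZMod d) = (b : ZMod d))).filter (fun n : ℕ => (∏ p ∈ T, p) ∣ n) := by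
        refine filter_congr fun n _ => ⟨fun h1 => ?_, fun h1 p hp => (dvd_prod_of_mem _ hp).trans h1⟩
        exact Finset.prod_primes_dvd n (fun p hp => (hpr p hp).prime) h1
      rw [hfil]
      have h2 : 2 * (∏ p ∈ T, p) ≤ Y := (Nat.mul_le_mul_left 2 hTp).trans hzY
      have h3 := class_multiples d b (∏ p ∈ T, p) Y X he1 hed h2 hYX
      rw [Nat.cast_prod] at h3
      exact h3
    · have hg : ∏ p ∈ T, gd d p = 0 := by rw [gd_prod, if_neg h]
      push Not at h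
      obtain ⟨p, hp, hpd⟩ := h
      have hemp : ((Ioc Y X).filter (fun n : ℕ => (n : ZMod d) = (b : ZMod d))).filter
          (fun n : ℕ => ∀ p ∈ T, p ∣ n) = ∅ := by
        refine filter_eq_empty_iff.2 fun n hn hall => ?_
        have h1 := hcop n hn
        have h2 : p ∣ Nat.gcd n d := Nat.dvd_gcd (hall p hp) hpd
        rw [h1] at h2
        exact (hpr p hp).one_lt.ne' (Nat.dvd_one.1 h2)
      rw [hemp, sum_empty, hg, mul_zero, sub_zero, abs_zero]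
      positivity
  have hS := (abs_le.1 (sieve2 hF ((Ioc Y X).filter (fun n : ℕ => (n : ZMod d) = (b : ZMod d))) rc (gd d)
    (Real.log ((X : ℝ) / Y) / d) (fun _ => 4 / (Y : ℝ)) (fun n _ => by unfold rc; positivity) (adm_gd d z) hX0 hR)).2
  have hsub : ∑ m ∈ ((Ioc Y X).filter Nat.Prime).filter (fun m : ℕ => (m : ZMod d) = (b : ZMod d)), rc m ≤
      ∑ n ∈ ((Ioc Y X).filter (fun n : ℕ => (n : ZMod d) = (b : ZMod d))).filter
        (fun n : ℕ => ∀ p ∈ PP z, ¬ p ∣ n), rc n := by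
    refine sum_le_sum_of_subset_of_nonneg (fun m hm => ?_) (fun n _ _ => by unfold rc; positivity)
    obtain ⟨hm1, hm2⟩ := mem_filter.1 hm
    obtain ⟨hm3, hm4⟩ := mem_filter.1 hm1
    refine mem_filter.2 ⟨mem_filter.2 ⟨hm3, hm2⟩, fun p hp hpm => ?_⟩
    have hpz : p ≤ z := (mem_Icc.1 (mem_filter.1 hp).1).2
    have hpp : p.Prime := (mem_filter.1 hp).2
    have h1 : p = m := (Nat.prime_dvd_prime_iff_eq hpp hm4).1 hpm
    have h2 : Y < m := (mem_Ioc.1 hm3).1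
    omega
  have hcard : ∑ T ∈ TT z K, (fun _ => 4 / (Y : ℝ)) T ≤ (z : ℝ) ^ K * (4 / Y) := by
    rw [sum_const, nsmul_eq_mul]
    exact mul_le_mul_of_nonneg_right (card_TT z K) (by positivity)
  have hVV : Real.log ((X : ℝ) / Y) / d * ∏ p ∈ PP z, (1 - gd d p) ≤
      Real.log ((X : ℝ) / Y) / ((Fintype.card (ZMod d)ˣ : ℝ) * Real.log z) := by
    have h1 := VV_upper d z hz
    have e1 : Real.log ((X : ℝ) / Y) / d * ∏ p ∈ PP z, (1 - gd d p) =
        Real.log ((X : ℝ) / Y) / (Fintype.card (ZMod d)ˣ : ℝ) * (VV d z * ((Fintype.card (ZMod d)ˣ : ℝ) / d)) := by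
      unfold VV
      field_simp
    have e2 : Real.log ((X : ℝ) / Y) / ((Fintype.card (ZMod d)ˣ : ℝ) * Real.log z) =
        Real.log ((X : ℝ) / Y) / (Fintype.card (ZMod d)ˣ : ℝ) * (1 / Real.log z) := by
      field_simp
    rw [e1, e2]
    exact mul_le_mul_of_nonneg_left h1 (div_nonneg hL hφ.le)
  have h5 : (1 + τ) * Real.log ((X : ℝ) / Y) / ((Fintype.card (ZMod d)ˣ : ℝ) * Real.log z) =
      (1 + τ) * (Real.log ((X : ℝ) / Y) / ((Fintype.card (ZMod d)ˣ : ℝ) * Real.log z)) := by ring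
  rw [h5]
  have h6 : (1 + τ) * (Real.log ((X : ℝ) / Y) / d * ∏ p ∈ PP z, (1 - gd d p)) ≤
      (1 + τ) * (Real.log ((X : ℝ) / Y) / ((Fintype.card (ZMod d)ˣ : ℝ) * Real.log z)) :=
    mul_le_mul_of_nonneg_left hVV (by linarith)
  linarith [hsub, hS, hcard, h6]

end Pool.Agent.Lib.MP_42948a_nt.EX
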