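import Pool.Agent.Lib.MP_42948a_nt.EX.Defs
import Pool.Agent.Lib.MP_42948a_nt.OM.E0
import Pool.Agent.Lib.MP_42948a_nt.PS.B1b
import Pool.Agent.Lib.MP_42948a_nt.OA.ZA

/-!
# Lower bounds for the sums over primes (job C4)

`WB_low`: `prime_log_sum` (OM/E0) with `z = Y = ⌊d^(1+ε)⌋₊`, `t = X = ⌊d^(1+2ε)⌋₊`: `∑_{p ∈ Ioc Y X} log p / p ≥ log X - log Y - C ≥ ε log d - log 2 - C`; each `log p ≤ log X ≤ (1 + 2ε) log d ≤ 1.02 log d`,
so `∑ 1/p ≥ (ε log d - log 2 - C) / (1.02 log d) ≥ ε / 2` for large `d`. The primes `> Y ≥ d` do not divide `d`, so `primesOff d Y X = (Ioc Y X).filter Nat.Prime` for `d ≥ 2`.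
`WT_low`: `recip_interval α` (PS/B1b): `∑ ≥ 1/15` over all primes of `Ioc ⌊d^α⌋₊ ⌊d^(2α)⌋₊`; those dividing `d` contribute at most `#(d.divisors) / ⌊d^α⌋₊ ≤ 1/60` for large `d` (`BB_le (α / 2)`, OA/ZA).
-/

namespace Pool.Agent.Lib.MP_42948a_nt.EX

open Finset Pool.Agent.Lib.MP_42948a_nt.OA Pool.Agent.Lib.MP_42948a_nt.AC Pool.Agent.Lib.MP_42948a_nt.TQ
  Pool.Agent.Lib.MP_42948a_nt.PS

theorem WB_low (ε : ℝ) (hε : 0 < ε) (hε1 : ε ≤ 1 / 100) : ∃ d0 : ℕ, ∀ d : ℕ, d0 ≤ d →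
    ε / 2 ≤ ∑ m ∈ primesOff d ⌊(d : ℝ) ^ (1 + ε)⌋₊ ⌊(d : ℝ) ^ (1 + 2 * ε)⌋₊, rc m := by
  obtain ⟨C, hC0, hC⟩ := Pool.Agent.Lib.MP_42948a_nt.OM.prime_log_sum
  have t2 : Filter.Tendsto (fun d : ℕ => Real.log (d : ℝ)) Filter.atTop Filter.atTop :=
    Real.tendsto_log_atTop.comp tendsto_natCast_atTop_atTop
  obtain ⟨d1, h1⟩ := Filter.eventually_atTop.1 (t2.eventually_ge_atTop ((1 + C) / (0.49 * ε) + 1))
  refine ⟨d1 + 2, fun d hd => ?_⟩
  have hlog := h1 d (by omega)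
  have hd2 : 2 ≤ d := by omega
  have hdr : (2 : ℝ) ≤ d := by exact_mod_cast hd2
  have hdpos : (0 : ℝ) < d := by linarith
  have hl : 0 < Real.log (d : ℝ) := Real.log_pos (by linarith)
  obtain ⟨Y, hY⟩ : ∃ Y : ℕ, Y = ⌊(d : ℝ) ^ (1 + ε)⌋₊ := ⟨_, rfl⟩
  obtain ⟨X, hX⟩ : ∃ X : ℕ, X = ⌊(d : ℝ) ^ (1 + 2 * ε)⌋₊ := ⟨_, rfl⟩
  rw [← hY, ← hX]
  have hdY : d ≤ Y := by
    rw [hY]
    apply Nat.le_floor
    calc (d : ℝ) = (d : ℝ) ^ (1 : ℝ) := (Real.rpow_one _).symm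
      _ ≤ (d : ℝ) ^ (1 + ε) := Real.rpow_le_rpow_of_exponent_le (by linarith) (by linarith)
  have hYX : Y ≤ X := by
    rw [hY, hX]
    apply Nat.floor_le_floor
    exact Real.rpow_le_rpow_of_exponent_le (by linarith) (by linarith)
  have hYle : (Y : ℝ) ≤ (d : ℝ) ^ (1 + ε) := by rw [hY]; exact Nat.floor_le (by positivity)
  have hXle : (X : ℝ) ≤ (d : ℝ) ^ (1 + 2 * ε) := by rw [hX]; exact Nat.floor_le (by positivity)
  have hY0 : (0 : ℝ) < Y := by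
    have : 0 < Y := by omega
    exact_mod_cast this
  have hX0 : (0 : ℝ) < X := by
    have : 0 < X := by omega
    exact_mod_cast this
  have hXge : (d : ℝ) ^ (1 + 2 * ε) / 2 ≤ X := by
    have h2 : (d : ℝ) ^ (1 + 2 * ε) < X + 1 := by rw [hX]; exact Nat.lt_floor_add_one _
    have h3 : (1 : ℝ) ≤ X := by
      have : 1 ≤ X := by omega
      exact_mod_cast this
    linarith
  have hlX1 : (1 + 2 * ε) * Real.log d - Real.log 2 ≤ Real.log X := by
    rw [← Real.log_rpow hdpos, ← Real.log_div (by positivity) (by norm_num)]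
    exact Real.log_le_log (by positivity) hXge
  have hlX2 : Real.log X ≤ (1 + 2 * ε) * Real.log d := by
    rw [← Real.log_rpow hdpos]
    exact Real.log_le_log hX0 hXle
  have hlY : Real.log Y ≤ (1 + ε) * Real.log d := by
    rw [← Real.log_rpow hdpos]
    exact Real.log_le_log hY0 hYle
  have hset : primesOff d Y X = (Ioc Y X).filter Nat.Prime := by
    unfold primesOff
    ext p
    simp only [mem_filter, mem_Icc, mem_Ioc]
    constructor
    · rintro ⟨⟨_, h2⟩, h3, h4, _⟩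
      exact ⟨⟨h4, h2⟩, h3⟩
    · rintro ⟨⟨h2, h3⟩, h4⟩
      refine ⟨⟨by omega, h3⟩, h4, h2, fun h5 => ?_⟩
      have := Nat.le_of_dvd (by omega) h5
      omega
  rw [hset]
  have hs := hC Y X (by omega) hYX
  have hs1 : Real.log X - Real.log Y - C ≤ ∑ p ∈ (Ioc Y X).filter Nat.Prime, Real.log p / p := by
    have := (abs_le.1 hs).1
    linarith
  have hs2 : ∑ p ∈ (Ioc Y X).filter Nat.Prime, Real.log p / p ≤
      ∑ p ∈ (Ioc Y X).filter Nat.Prime, 1.02 * Real.log d * rc p := by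
    apply Finset.sum_le_sum
    intro p hp
    rw [mem_filter, mem_Ioc] at hp
    have hp0 : (0 : ℝ) < p := by exact_mod_cast hp.2.pos
    have h3 : Real.log p ≤ 1.02 * Real.log d := by
      have h4 : Real.log p ≤ Real.log X := Real.log_le_log hp0 (by exact_mod_cast hp.1.2)
      have h5 : (1 + 2 * ε) * Real.log d ≤ 1.02 * Real.log d := by
        apply mul_le_mul_of_nonneg_right _ hl.le
        linarith
      linarith
    unfold rc
    rw [mul_one_div]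
    exact div_le_div_of_nonneg_right h3 hp0.le
  rw [← Finset.mul_sum] at hs2
  obtain ⟨S, hS⟩ : ∃ S : ℝ, S = ∑ p ∈ (Ioc Y X).filter Nat.Prime, rc p := ⟨_, rfl⟩
  rw [← hS] at hs2 ⊢
  have hlog2 : Real.log 2 ≤ 1 := by
    have := Real.log_two_lt_d9
    linarith
  have hmain : ε * Real.log d - 1 - C ≤ 1.02 * Real.log d * S := by linarith
  have hbig : 1 + C ≤ 0.49 * ε * Real.log d := by
    have h6 : (1 + C) / (0.49 * ε) ≤ Real.log d := by linarith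
    rw [div_le_iff₀ (by positivity)] at h6
    linarith
  by_contra hcon
  have hcon : S < ε / 2 := not_le.1 hcon
  have h7 : 1.02 * Real.log d * S < 1.02 * Real.log d * (ε / 2) :=
    mul_lt_mul_of_pos_left hcon (by positivity)
  nlinarith [h7, hmain, hbig]

theorem WT_low (α : ℝ) (hα : 0 < α) : ∃ d0 : ℕ, ∀ d : ℕ, d0 ≤ d →
    1 / 20 ≤ ∑ m ∈ primesOff d ⌊(d : ℝ) ^ α⌋₊ ⌊(d : ℝ) ^ (2 * α)⌋₊, rc m := by
  obtain ⟨d1, h1⟩ := recip_interval α hα
  obtain ⟨d2, h2⟩ := BB_le (α / 2) (by positivity)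
  have t1 : Filter.Tendsto (fun d : ℕ => (d : ℝ) ^ (α / 2)) Filter.atTop Filter.atTop :=
    (tendsto_rpow_atTop (by positivity)).comp tendsto_natCast_atTop_atTop
  obtain ⟨d3, h3⟩ := Filter.eventually_atTop.1 (t1.eventually_ge_atTop (60 : ℝ))
  refine ⟨d1 + d2 + d3 + 2, fun d hd => ?_⟩
  have g1 := h1 d (by omega)
  have g2 := (h2 d (by omega)).2
  have g3 := h3 d (by omega)
  have hdpos : (0 : ℝ) < d := by
    have : 0 < d := by omega
    exact_mod_cast this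
  obtain ⟨z, hz⟩ : ∃ z : ℕ, z = ⌊(d : ℝ) ^ α⌋₊ := ⟨_, rfl⟩
  obtain ⟨Y, hY⟩ : ∃ Y : ℕ, Y = ⌊(d : ℝ) ^ (2 * α)⌋₊ := ⟨_, rfl⟩
  rw [← hz, ← hY] at g1 ⊢
  have hsplit : ∑ p ∈ (Ioc z Y).filter Nat.Prime, 1 / (p : ℝ) =
      ∑ p ∈ primesOff d z Y, rc p + ∑ p ∈ ((Ioc z Y).filter Nat.Prime).filter (fun p => p ∣ d), rc p := by
    rw [← Finset.sum_filter_add_sum_filter_not ((Ioc z Y).filter Nat.Prime) (fun p => p ∣ d), add_comm]
    have hs : ((Ioc z Y).filter Nat.Prime).filter (fun p => ¬ p ∣ d) = primesOff d z Y := by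
      unfold primesOff
      ext p
      simp only [mem_filter, mem_Icc, mem_Ioc]
      constructor
      · rintro ⟨⟨⟨a1, a2⟩, a3⟩, a4⟩
        exact ⟨⟨by omega, a2⟩, a3, a1, a4⟩
      · rintro ⟨⟨_, a2⟩, a3, a1, a4⟩
        exact ⟨⟨⟨a1, a2⟩, a3⟩, a4⟩
    rw [hs]
    rfl
  have hbad : ∑ p ∈ ((Ioc z Y).filter Nat.Prime).filter (fun p => p ∣ d), rc p ≤ 1 / 60 := by
    have hz1 : (d : ℝ) ^ α < (z : ℝ) + 1 := by rw [hz]; exact Nat.lt_floor_add_one _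
    have hda : 0 < (d : ℝ) ^ α := by positivity
    have hb1 : ∀ p ∈ ((Ioc z Y).filter Nat.Prime).filter (fun p => p ∣ d), rc p ≤ 1 / (d : ℝ) ^ α := by
      intro p hp
      rw [mem_filter, mem_filter, mem_Ioc] at hp
      unfold rc
      apply one_div_le_one_div_of_le hda
      have : (z : ℝ) + 1 ≤ p := by exact_mod_cast hp.1.1.1
      linarith
    have hb2 : ((Ioc z Y).filter Nat.Prime).filter (fun p => p ∣ d) ⊆ d.divisors := by
      intro p hp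
      rw [mem_filter] at hp
      rw [Nat.mem_divisors]
      exact ⟨hp.2, by omega⟩
    refine (Finset.sum_le_card_nsmul _ _ _ hb1).trans ?_
    rw [nsmul_eq_mul]
    have hb3 : (((((Ioc z Y).filter Nat.Prime).filter (fun p => p ∣ d)).card : ℕ) : ℝ) ≤ (d : ℝ) ^ (α / 2) :=
      le_trans (by exact_mod_cast Finset.card_le_card hb2) g2
    have hsq : (d : ℝ) ^ α = (d : ℝ) ^ (α / 2) * (d : ℝ) ^ (α / 2) := by
      rw [← Real.rpow_add hdpos]
      congr 1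
      ring
    have hw : 0 < (d : ℝ) ^ (α / 2) := by positivity
    calc _ ≤ (d : ℝ) ^ (α / 2) * (1 / (d : ℝ) ^ α) := mul_le_mul_of_nonneg_right hb3 (by positivity)
      _ = 1 / (d : ℝ) ^ (α / 2) := by
        rw [hsq]
        field_simp
      _ ≤ 1 / 60 := one_div_le_one_div_of_le (by norm_num) g3
  rw [hsplit] at g1
  linarith

end Pool.Agent.Lib.MP_42948a_nt.EX
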