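import Pool.Agent.Lib.MP_42948a_nt.EX.Defs
import Pool.Agent.Lib.MP_42948a_nt.AC.S10
import Pool.Agent.Lib.MP_42948a_nt.AC.RCh
import Pool.Agent.Lib.MP_42948a_nt.OA.RG
import Pool.Agent.Lib.MP_42948a_nt.OA.RE
import Pool.Agent.Lib.MP_42948a_nt.OA.ZD

/-!
# The truncated value of the L-function (job F1)

Copy the corresponding part of the proof of `many_split` (AC/Z2b) with `η` there replaced by `ε`: `num_E3 0 ε (ε / 64)` gives `2 BB d (2 + log X) ≤ d^(1/2+ε/4)` and `(12 d^(1/2+ε/4))^2 ≤ X`;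
`Sw_bound` with `M = 2 BB d` (`chi_sum`) gives the first claim; `LL_lower` gives `0 ≤ LL (chi ψ) X`; `LL_siegel η` (`d^(1+2η)/2 ≤ X` since `η ≤ ε`) the second.
-/

namespace Pool.Agent.Lib.MP_42948a_nt.EX

open Finset Pool.Agent.Lib.MP_42948a_nt.OA Pool.Agent.Lib.MP_42948a_nt.AC Pool.Agent.Lib.MP_42948a_nt.TQ
  Pool.Agent.Lib.MP_42948a_nt.PS

theorem LL_big (ε η : ℝ) (hε : 0 < ε) (hε1 : ε ≤ 1 / 100) (hη : 0 < η) (hηε : η ≤ ε) :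
    ∃ d0 : ℕ, ∀ d : ℕ, d0 ≤ d → ∀ ψ : (ZMod d)ˣ →* ℤˣ, ψ ≠ 1 →
      (∀ t : ℝ, 0 < t → t ≤ (⌊(d : ℝ) ^ (1 + 2 * ε)⌋₊ : ℝ) →
        |SwT (chi ψ) ⌊(d : ℝ) ^ (1 + 2 * ε)⌋₊ ∅ t - t / 2 * LL (chi ψ) ⌊(d : ℝ) ^ (1 + 2 * ε)⌋₊| ≤
          (d : ℝ) ^ (1 / 2 + ε / 4)) ∧
      (d : ℝ) ^ (-η) ≤ LL (chi ψ) ⌊(d : ℝ) ^ (1 + 2 * ε)⌋₊ := by
  obtain ⟨d2, h2⟩ := num_E3 0 ε (ε / 64) hε (by push_cast; ring)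
  obtain ⟨d3, h3⟩ := LL_siegel η hη
  refine ⟨d2 + d3 + 2, fun d hd ψ hψ => ?_⟩
  have hd2 : 2 ≤ d := by omega
  have hne : NeZero d := ⟨by omega⟩
  have hdr : (1 : ℝ) ≤ (d : ℝ) := by
    have h : 1 ≤ d := by omega
    exact_mod_cast h
  obtain ⟨e1, e2, e3, _⟩ := h2 d (by omega)
  have hχ := chi_real d ψ
  have hM := chi_sum d ψ hψ
  have hx1 : (1 : ℝ) ≤ (d : ℝ) ^ (1 + 2 * ε) := Real.one_le_rpow hdr (by linarith)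
  have hX1 : 1 ≤ ⌊(d : ℝ) ^ (1 + 2 * ε)⌋₊ := by
    rw [Nat.one_le_floor_iff]
    exact hx1
  have hXr : (1 : ℝ) ≤ (⌊(d : ℝ) ^ (1 + 2 * ε)⌋₊ : ℝ) := by exact_mod_cast hX1
  have hXhalf : (d : ℝ) ^ (1 + 2 * ε) / 2 ≤ (⌊(d : ℝ) ^ (1 + 2 * ε)⌋₊ : ℝ) := by
    have h5 := Nat.lt_floor_add_one ((d : ℝ) ^ (1 + 2 * ε))
    linarith
  have hbase : ∀ t : ℝ, 0 < t → t ≤ (⌊(d : ℝ) ^ (1 + 2 * ε)⌋₊ : ℝ) →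
      |SwT (chi ψ) ⌊(d : ℝ) ^ (1 + 2 * ε)⌋₊ ∅ t - t / 2 * LL (chi ψ) ⌊(d : ℝ) ^ (1 + 2 * ε)⌋₊| ≤
        (d : ℝ) ^ (1 / 2 + ε / 4) := by
    intro t ht htN
    exact (Sw_bound (chi ψ) (2 * BB d) hM _ hX1 t ht htN).trans e1
  refine ⟨hbase, ?_⟩
  have hLL := LL_lower (chi ψ) hχ.mul hχ.one hχ.val ⌊(d : ℝ) ^ (1 + 2 * ε)⌋₊ ((d : ℝ) ^ (1 / 2 + ε / 4)) e2 e3 hbase
  have hLL0 : 0 ≤ LL (chi ψ) ⌊(d : ℝ) ^ (1 + 2 * ε)⌋₊ := le_trans (by positivity) hLL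
  refine h3 d (by omega) ψ hψ ⌊(d : ℝ) ^ (1 + 2 * ε)⌋₊ (le_trans ?_ hXhalf) hLL0
  exact div_le_div_of_nonneg_right
    (Real.rpow_le_rpow_of_exponent_le hdr (by linarith)) (by norm_num)

end Pool.Agent.Lib.MP_42948a_nt.EX
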