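import Pool.Agent.Lib.MP_42948a_nt.EX.A1
import Pool.Agent.Lib.MP_42948a_nt.AC.RCh

/-!
# The main term is large (job F2)

`VG_low`: `VG χ z ≥ c / (log z)^4 ≥ c / (log d)^4` for `2 ≤ z = ⌊d^α⌋₊ ≤ d` (`log z > 0`). So `LL / 2 * VG ≥ d^(-η) c / (2 (log d)^4) ≥ d^(-2η)` for large `d` (`isLittleO_log_rpow_atTop`), and `z ≥ 2` for large `d`. Values of `chi ψ`: `chi_real`.
-/

namespace Pool.Agent.Lib.MP_42948a_nt.EX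

open Finset Pool.Agent.Lib.MP_42948a_nt.OA Pool.Agent.Lib.MP_42948a_nt.AC Pool.Agent.Lib.MP_42948a_nt.TQ
  Pool.Agent.Lib.MP_42948a_nt.PS

theorem R_low (α η : ℝ) (hα : 0 < α) (hα1 : α ≤ 1) (hη : 0 < η) :
    ∃ d0 : ℕ, ∀ d : ℕ, d0 ≤ d → ∀ ψ : (ZMod d)ˣ →* ℤˣ, ∀ X : ℕ, (d : ℝ) ^ (-η) ≤ LL (chi ψ) X →
      (X : ℝ) * (d : ℝ) ^ (-(2 * η)) ≤ (X : ℝ) / 2 * LL (chi ψ) X * VG (chi ψ) ⌊(d : ℝ) ^ α⌋₊ := by
  obtain ⟨c, hc, hVG⟩ := VG_low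
  have h1 : ∀ᶠ x : ℝ in Filter.atTop, ‖Real.log x ^ (4 : ℝ)‖ ≤ c / 2 * ‖x ^ η‖ :=
    (isLittleO_log_rpow_rpow_atTop (4 : ℝ) hη).bound (by positivity)
  have h2 : ∀ᶠ x : ℝ in Filter.atTop, (2 : ℝ) ≤ x ^ α :=
    (tendsto_rpow_atTop hα).eventually_ge_atTop 2
  have h3 : ∀ᶠ d : ℕ in Filter.atTop, ‖Real.log (d : ℝ) ^ (4 : ℝ)‖ ≤ c / 2 * ‖(d : ℝ) ^ η‖ ∧
      (2 : ℝ) ≤ (d : ℝ) ^ α ∧ 1 ≤ d :=
    (tendsto_natCast_atTop_atTop.eventually h1).and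
      ((tendsto_natCast_atTop_atTop.eventually h2).and (Filter.eventually_ge_atTop 1))
  obtain ⟨d0, hd0⟩ := Filter.eventually_atTop.1 h3
  refine ⟨d0, fun d hd ψ X hL => ?_⟩
  obtain ⟨e1, e2, e3⟩ := hd0 d hd
  have hdr : (1 : ℝ) ≤ (d : ℝ) := by exact_mod_cast e3
  have hdp : (0 : ℝ) < (d : ℝ) := by linarith
  have hlog : 0 ≤ Real.log (d : ℝ) := Real.log_nonneg hdr
  have hz2 : 2 ≤ ⌊(d : ℝ) ^ α⌋₊ := Nat.le_floor (by exact_mod_cast e2)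
  have hzr : ((⌊(d : ℝ) ^ α⌋₊ : ℕ) : ℝ) ≤ (d : ℝ) := by
    refine (Nat.floor_le (by positivity)).trans ?_
    calc (d : ℝ) ^ α ≤ (d : ℝ) ^ (1 : ℝ) := Real.rpow_le_rpow_of_exponent_le hdr hα1
      _ = d := Real.rpow_one _
  have hz2r : (2 : ℝ) ≤ ((⌊(d : ℝ) ^ α⌋₊ : ℕ) : ℝ) := by exact_mod_cast hz2
  have hlz : 0 < Real.log ((⌊(d : ℝ) ^ α⌋₊ : ℕ) : ℝ) := Real.log_pos (by linarith)
  have hlzd : Real.log ((⌊(d : ℝ) ^ α⌋₊ : ℕ) : ℝ) ≤ Real.log (d : ℝ) :=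
    Real.log_le_log (by linarith) hzr
  have h4 : Real.log (d : ℝ) ^ 4 ≤ c / 2 * (d : ℝ) ^ η := by
    rw [Real.norm_of_nonneg (by positivity), Real.norm_of_nonneg (by positivity)] at e1
    have h5 : Real.log (d : ℝ) ^ (4 : ℝ) = Real.log (d : ℝ) ^ 4 := by
      rw [← Real.rpow_natCast]
      norm_num
    rw [h5] at e1
    exact e1
  have h6 : Real.log ((⌊(d : ℝ) ^ α⌋₊ : ℕ) : ℝ) ^ 4 ≤ c / 2 * (d : ℝ) ^ η :=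
    (pow_le_pow_left₀ hlz.le hlzd 4).trans h4
  have hV := hVG ⌊(d : ℝ) ^ α⌋₊ hz2 (chi ψ) (chi_real d ψ).val
  have h7 : 2 * (d : ℝ) ^ (-η) ≤ VG (chi ψ) ⌊(d : ℝ) ^ α⌋₊ := by
    refine le_trans ?_ hV
    rw [le_div_iff₀ (by positivity)]
    calc 2 * (d : ℝ) ^ (-η) * Real.log ((⌊(d : ℝ) ^ α⌋₊ : ℕ) : ℝ) ^ 4
        ≤ 2 * (d : ℝ) ^ (-η) * (c / 2 * (d : ℝ) ^ η) :=
          mul_le_mul_of_nonneg_left h6 (by positivity)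
      _ = c * ((d : ℝ) ^ (-η) * (d : ℝ) ^ η) := by ring
      _ = c := by
          rw [← Real.rpow_add hdp, neg_add_cancel, Real.rpow_zero, mul_one]
  have hX : (0 : ℝ) ≤ (X : ℝ) := Nat.cast_nonneg X
  have hpos : 0 < (d : ℝ) ^ (-η) := Real.rpow_pos_of_pos hdp _
  calc (X : ℝ) * (d : ℝ) ^ (-(2 * η)) = (X : ℝ) / 2 * (d : ℝ) ^ (-η) * (2 * (d : ℝ) ^ (-η)) := by
        have h8 : (d : ℝ) ^ (-(2 * η)) = (d : ℝ) ^ (-η) * (d : ℝ) ^ (-η) := by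
          rw [← Real.rpow_add hdp]
          congr 1
          ring
        rw [h8]
        ring
    _ ≤ (X : ℝ) / 2 * LL (chi ψ) X * (2 * (d : ℝ) ^ (-η)) :=
        mul_le_mul_of_nonneg_right (mul_le_mul_of_nonneg_left hL (by positivity)) (by positivity)
    _ ≤ (X : ℝ) / 2 * LL (chi ψ) X * VG (chi ψ) ⌊(d : ℝ) ^ α⌋₊ :=
        mul_le_mul_of_nonneg_left h7 (mul_nonneg (by positivity) (hpos.le.trans hL))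

end Pool.Agent.Lib.MP_42948a_nt.EX
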