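import Pool.Agent.Lib.MP_42948a_nt.EX.Defs
import Pool.Agent.Lib.MP_42948a_nt.OA.ZA

/-!
# Numerics, first part (job G1)

`X = ⌊d^(1+2ε)⌋₊ ≥ d^(1+2ε)/2`, `z = ⌊d^α⌋₊`, `d^α / 2 ≤ z ≤ d^α`, `z^(3K) ≤ d^(3Kα) ≤ d^(ε/8)`, `H ≤ d^(1/2+ε)`. The right side is `≥ δ d^(1+2ε-2η) / 2`.
(i) `d^(1/2+3ε/8)`; and `Cr X #(d.divisors) / z ≤ 2 Cr X d^(η-α)` (`BB_le η`, OA/ZA), `η - α < -2η`. (iv) `1`; `2 Cr X d^(-α)`; `2 H z^(3K) d^(1/2+ε/4) ≤ 2 d^(1+11ε/8)`, and `11ε/8 < 2ε - 2η` as `16 η ≤ κ2`, `2 κ2 ≤ 2 k κ2 ≤ ε/8`.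
Each is at most `δ/4` times `X d^(-2η)` for large `d`.
-/

namespace Pool.Agent.Lib.MP_42948a_nt.EX

open Finset Pool.Agent.Lib.MP_42948a_nt.OA Pool.Agent.Lib.MP_42948a_nt.AC Pool.Agent.Lib.MP_42948a_nt.TQ
  Pool.Agent.Lib.MP_42948a_nt.PS

private theorem EX_G1_floor {y : ℝ} (hy : 2 ≤ y) : y / 2 ≤ (⌊y⌋₊ : ℝ) ∧ (⌊y⌋₊ : ℝ) ≤ y := by
  refine ⟨?_, Nat.floor_le (by linarith)⟩
  have := Nat.lt_floor_add_one y
  linarith

private theorem EX_G1_pow {x g e M : ℝ} (hx : 1 ≤ x) (hge : g ≤ e) (hM : M ≤ x ^ g) : M ≤ x ^ e :=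
  hM.trans (Real.rpow_le_rpow_of_exponent_le hx hge)

theorem num_one (ε α : ℝ) (hε : 0 < ε) (hε1 : ε ≤ 1 / 100) (hα : 0 < α) (K Cr : ℕ) (hK : 3 * K * α ≤ ε / 8)
    (η δ : ℝ) (hη : 0 < η) (hηα : 16 * η ≤ α) (hηε : 16 * η ≤ ε) (hδ : 0 < δ) :
    ∃ d0 : ℕ, ∀ d : ℕ, d0 ≤ d →
      (⌊(d : ℝ) ^ α⌋₊ : ℝ) ^ (3 * K) * (d : ℝ) ^ (1 / 2 + ε / 4) +
          (Cr : ℝ) * (⌊(d : ℝ) ^ (1 + 2 * ε)⌋₊ : ℝ) * (d.divisors.card : ℝ) / (⌊(d : ℝ) ^ α⌋₊ : ℝ) ≤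
        δ * ((⌊(d : ℝ) ^ (1 + 2 * ε)⌋₊ : ℝ) * (d : ℝ) ^ (-(2 * η))) ∧
      1 + ((Cr : ℝ) * (⌊(d : ℝ) ^ (1 + 2 * ε)⌋₊ : ℝ) / (⌊(d : ℝ) ^ α⌋₊ : ℝ) +
          2 * ((⌊(d : ℝ) ^ (1 / 2 + ε)⌋₊ : ℝ) * ((⌊(d : ℝ) ^ α⌋₊ : ℝ) ^ (3 * K) * (d : ℝ) ^ (1 / 2 + ε / 4)))) ≤
        δ * ((⌊(d : ℝ) ^ (1 + 2 * ε)⌋₊ : ℝ) * (d : ℝ) ^ (-(2 * η))) := by
  set g : ℝ := min (α / 2) (ε / 2) with hgdef
  have hg : 0 < g := lt_min (by linarith) (by linarith)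
  have hg1 : g ≤ α / 2 := min_le_left _ _
  have hg2 : g ≤ ε / 2 := min_le_right _ _
  set M : ℝ := 16 * (Cr + 1) / δ + 2 with hMdef
  obtain ⟨d1, hd1⟩ := BB_le η hη
  have hev : ∀ᶠ d : ℕ in Filter.atTop, M ≤ (d : ℝ) ^ g :=
    ((tendsto_rpow_atTop hg).comp tendsto_natCast_atTop_atTop).eventually_ge_atTop M
  obtain ⟨d2, hd2⟩ := Filter.eventually_atTop.mp hev
  refine ⟨max (max d1 d2) 1, fun d hd => ?_⟩
  have hda : d1 ≤ d := le_trans (le_trans (le_max_left _ _) (le_max_left _ _)) hd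
  have hdb : d2 ≤ d := le_trans (le_trans (le_max_right _ _) (le_max_left _ _)) hd
  have hdc : 1 ≤ d := le_trans (le_max_right _ _) hd
  have hτ := (hd1 d hda).2
  have hM := hd2 d hdb
  have hx : (1 : ℝ) ≤ d := by exact_mod_cast hdc
  have hx0 : (0 : ℝ) < d := by linarith
  have hCr : (0 : ℝ) ≤ Cr := Nat.cast_nonneg _
  have hM2 : 2 ≤ M := by
    have : 0 ≤ 16 * ((Cr : ℝ) + 1) / δ := by positivity
    linarith
  have hMδ : 16 * ((Cr : ℝ) + 1) ≤ δ * M := by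
    have h1 : δ * (16 * ((Cr : ℝ) + 1) / δ) = 16 * ((Cr : ℝ) + 1) := by
      field_simp
    have h2 : δ * M = 16 * ((Cr : ℝ) + 1) + δ * 2 := by
      rw [hMdef, mul_add, h1]
    rw [h2]
    linarith
  set x : ℝ := (d : ℝ) with hxdef
  obtain ⟨hA1, hA2⟩ := EX_G1_floor (y := x ^ α) (hM2.trans (EX_G1_pow hx (by linarith only [hg1, hg2, hηα, hηε, hε, hα]) hM))
  obtain ⟨hX1, hX2⟩ := EX_G1_floor (y := x ^ (1 + 2 * ε)) (hM2.trans (EX_G1_pow hx (by linarith only [hg1, hg2, hηα, hηε, hε, hα]) hM))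
  have hH : (⌊x ^ (1 / 2 + ε)⌋₊ : ℝ) ≤ x ^ (1 / 2 + ε) := Nat.floor_le (Real.rpow_nonneg hx0.le _)
  set A : ℝ := (⌊x ^ α⌋₊ : ℝ) with hAdef
  set X : ℝ := (⌊x ^ (1 + 2 * ε)⌋₊ : ℝ) with hXdef
  set H : ℝ := (⌊x ^ (1 / 2 + ε)⌋₊ : ℝ) with hHdef
  have hxα : 0 < x ^ α := Real.rpow_pos_of_pos hx0 _
  have hA0 : 0 < A := by linarith only [hA1, hxα]
  have hxX : 0 < x ^ (1 + 2 * ε) := Real.rpow_pos_of_pos hx0 _
  have hX0 : 0 < X := by linarith only [hX1, hxX]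
  have hH0 : 0 ≤ H := Nat.cast_nonneg _
  have hAK : A ^ (3 * K) ≤ x ^ (ε / 8) := by
    calc A ^ (3 * K) ≤ (x ^ α) ^ (3 * K) := pow_le_pow_left₀ hA0.le hA2 _
      _ = x ^ (α * (3 * K : ℕ)) := by rw [← Real.rpow_natCast, ← Real.rpow_mul hx0.le]
      _ ≤ x ^ (ε / 8) := by
          refine Real.rpow_le_rpow_of_exponent_le hx ?_
          push_cast
          linarith only [hK]
  -- T = X x^(-2η)
  have hx2η : 0 < x ^ (-(2 * η)) := Real.rpow_pos_of_pos hx0 _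
  have hT1 : x ^ (1 + 2 * ε - 2 * η) / 2 ≤ X * x ^ (-(2 * η)) := by
    have e1 : x ^ (1 + 2 * ε - 2 * η) = x ^ (1 + 2 * ε) * x ^ (-(2 * η)) := by
      rw [← Real.rpow_add hx0]
      congr 1
    rw [e1]
    have := mul_le_mul_of_nonneg_right hX1 hx2η.le
    linarith only [this]
  -- first term
  have t1 : A ^ (3 * K) * x ^ (1 / 2 + ε / 4) ≤ x ^ (1 / 2 + 3 * ε / 8) := by
    calc A ^ (3 * K) * x ^ (1 / 2 + ε / 4) ≤ x ^ (ε / 8) * x ^ (1 / 2 + ε / 4) :=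
          mul_le_mul_of_nonneg_right hAK (Real.rpow_nonneg hx0.le _)
      _ = x ^ (1 / 2 + 3 * ε / 8) := by
          rw [← Real.rpow_add hx0]
          congr 1
          ring
  have t1b : x ^ (1 / 2 + 3 * ε / 8) ≤ δ / 4 * (X * x ^ (-(2 * η))) := by
    have e1 : x ^ (1 + 2 * ε - 2 * η) =
        x ^ (1 / 2 + 3 * ε / 8) * x ^ (1 / 2 + 13 * ε / 8 - 2 * η) := by
      rw [← Real.rpow_add hx0]
      congr 1
      ring
    have h1 : M ≤ x ^ (1 / 2 + 13 * ε / 8 - 2 * η) := EX_G1_pow hx (by linarith only [hg1, hg2, hηα, hηε, hε, hα]) hM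
    have h2 : 0 < x ^ (1 / 2 + 3 * ε / 8) := Real.rpow_pos_of_pos hx0 _
    have h3 : 8 ≤ δ * x ^ (1 / 2 + 13 * ε / 8 - 2 * η) := by
      have := mul_le_mul_of_nonneg_left h1 hδ.le
      linarith only [this, hMδ, hCr]
    have h4 : x ^ (1 / 2 + 3 * ε / 8) ≤ δ / 4 * (x ^ (1 + 2 * ε - 2 * η) / 2) := by
      rw [e1]
      have := mul_le_mul_of_nonneg_left h3 h2.le
      linarith only [this]
    exact h4.trans (mul_le_mul_of_nonneg_left hT1 (by linarith only [hδ]))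
  -- quotient by A
  have hinv : ∀ {B : ℝ}, 0 ≤ B → B / A ≤ 2 * (B * x ^ (-α)) := by
    intro B hB
    rw [div_le_iff₀ hA0, Real.rpow_neg hx0.le]
    have h1 : 1 ≤ 2 * ((x ^ α)⁻¹ * A) := by
      have h2 : (x ^ α)⁻¹ * (x ^ α / 2) ≤ (x ^ α)⁻¹ * A :=
        mul_le_mul_of_nonneg_left hA1 (by positivity)
      have h3 : (x ^ α)⁻¹ * (x ^ α / 2) = 1 / 2 := by
        field_simp
      linarith only [h2, h3]
    have := mul_le_mul_of_nonneg_left h1 hB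
    linarith only [this]
  have t2 : (Cr : ℝ) * X * (d.divisors.card : ℝ) / A ≤ δ / 4 * (X * x ^ (-(2 * η))) := by
    have h1 : 0 ≤ (Cr : ℝ) * X * (d.divisors.card : ℝ) := by positivity
    refine (hinv h1).trans ?_
    have h2 : (d.divisors.card : ℝ) * x ^ (-α) ≤ x ^ (η - α) := by
      have e1 : x ^ (η - α) = x ^ η * x ^ (-α) := by
        rw [← Real.rpow_add hx0]
        congr 1
      rw [e1]
      exact mul_le_mul_of_nonneg_right hτ (Real.rpow_nonneg hx0.le _)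
    have e2 : x ^ (-(2 * η)) = x ^ (η - α) * x ^ (α - 3 * η) := by
      rw [← Real.rpow_add hx0]
      congr 1
      ring
    have h3 : M ≤ x ^ (α - 3 * η) := EX_G1_pow hx (by linarith only [hg1, hg2, hηα, hηε, hε, hα]) hM
    have h4 : 0 < x ^ (η - α) := Real.rpow_pos_of_pos hx0 _
    have h5 : 8 * (Cr : ℝ) ≤ δ * x ^ (α - 3 * η) := by
      have := mul_le_mul_of_nonneg_left h3 hδ.le
      linarith only [this, hMδ, hCr]
    have h6 : 2 * ((Cr : ℝ) * x ^ (η - α)) ≤ δ / 4 * x ^ (-(2 * η)) := by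
      rw [e2]
      have := mul_le_mul_of_nonneg_left h5 h4.le
      linarith only [this]
    calc 2 * ((Cr : ℝ) * X * (d.divisors.card : ℝ) * x ^ (-α))
        = X * (2 * ((Cr : ℝ) * ((d.divisors.card : ℝ) * x ^ (-α)))) := by ring
      _ ≤ X * (2 * ((Cr : ℝ) * x ^ (η - α))) := by
          refine mul_le_mul_of_nonneg_left ?_ hX0.le
          have := mul_le_mul_of_nonneg_left h2 hCr
          linarith only [this]
      _ ≤ X * (δ / 4 * x ^ (-(2 * η))) := mul_le_mul_of_nonneg_left h6 hX0.le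
      _ = δ / 4 * (X * x ^ (-(2 * η))) := by ring
  have hT0 : 0 ≤ X * x ^ (-(2 * η)) := by positivity
  have t3 : (1 : ℝ) ≤ δ / 4 * (X * x ^ (-(2 * η))) := by
    have h1 : M ≤ x ^ (1 + 2 * ε - 2 * η) := EX_G1_pow hx (by linarith only [hg1, hg2, hηα, hηε, hε, hα]) hM
    have h2 := mul_le_mul_of_nonneg_left h1 hδ.le
    have h3 := mul_le_mul_of_nonneg_left hT1 (by linarith only [hδ] : 0 ≤ δ / 4)
    linarith only [h2, h3, hMδ, hCr]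
  have t4 : (Cr : ℝ) * X / A ≤ δ / 4 * (X * x ^ (-(2 * η))) := by
    refine (hinv (by positivity)).trans ?_
    have e2 : x ^ (-(2 * η)) = x ^ (-α) * x ^ (α - 2 * η) := by
      rw [← Real.rpow_add hx0]
      congr 1
      ring
    have h3 : M ≤ x ^ (α - 2 * η) := EX_G1_pow hx (by linarith only [hg1, hg2, hηα, hηε, hε, hα]) hM
    have h4 : 0 < x ^ (-α) := Real.rpow_pos_of_pos hx0 _
    have h5 : 8 * (Cr : ℝ) ≤ δ * x ^ (α - 2 * η) := by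
      have := mul_le_mul_of_nonneg_left h3 hδ.le
      linarith only [this, hMδ, hCr]
    have h6 : 2 * ((Cr : ℝ) * x ^ (-α)) ≤ δ / 4 * x ^ (-(2 * η)) := by
      rw [e2]
      have := mul_le_mul_of_nonneg_left h5 h4.le
      linarith only [this]
    calc 2 * ((Cr : ℝ) * X * x ^ (-α)) = X * (2 * ((Cr : ℝ) * x ^ (-α))) := by ring
      _ ≤ X * (δ / 4 * x ^ (-(2 * η))) := mul_le_mul_of_nonneg_left h6 hX0.le
      _ = δ / 4 * (X * x ^ (-(2 * η))) := by ring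
  have t5 : 2 * (H * (A ^ (3 * K) * x ^ (1 / 2 + ε / 4))) ≤ δ / 4 * (X * x ^ (-(2 * η))) := by
    have h1 : H * (A ^ (3 * K) * x ^ (1 / 2 + ε / 4)) ≤ x ^ (1 / 2 + ε) * x ^ (1 / 2 + 3 * ε / 8) :=
      mul_le_mul hH t1 (by positivity) (Real.rpow_nonneg hx0.le _)
    have e1 : x ^ (1 + 2 * ε - 2 * η) =
        (x ^ (1 / 2 + ε) * x ^ (1 / 2 + 3 * ε / 8)) * x ^ (5 * ε / 8 - 2 * η) := by
      rw [← Real.rpow_add hx0, ← Real.rpow_add hx0]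
      congr 1
      ring
    have h2 : M ≤ x ^ (5 * ε / 8 - 2 * η) := EX_G1_pow hx (by linarith only [hg1, hg2, hηα, hηε, hε, hα]) hM
    have h3 : 0 < x ^ (1 / 2 + ε) * x ^ (1 / 2 + 3 * ε / 8) := by positivity
    have h5 : 16 ≤ δ * x ^ (5 * ε / 8 - 2 * η) := by
      have := mul_le_mul_of_nonneg_left h2 hδ.le
      linarith only [this, hMδ, hCr]
    have h4 : 2 * (x ^ (1 / 2 + ε) * x ^ (1 / 2 + 3 * ε / 8)) ≤
        δ / 4 * (x ^ (1 + 2 * ε - 2 * η) / 2) := by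
      rw [e1]
      have := mul_le_mul_of_nonneg_left h5 h3.le
      linarith only [this]
    have h6 := mul_le_mul_of_nonneg_left hT1 (by linarith only [hδ] : 0 ≤ δ / 4)
    linarith only [h1, h4, h6]
  constructor
  · have h0 : 0 ≤ δ * (X * x ^ (-(2 * η))) := by positivity
    linarith only [h0, t1, t1b, t2]
  · linarith only [t3, t4, t5, hT0, mul_nonneg hδ.le hT0]

end Pool.Agent.Lib.MP_42948a_nt.EX
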