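import Pool.Agent.Lib.MP_42948a_nt.EX.Defs
import Pool.Agent.Lib.MP_42948a_nt.OA.ZA

/-!
# Numerics, second part (job G2)

`X = ⌊d^(1+2ε)⌋₊ ≥ d^(1+2ε)/2`, `z = ⌊d^α⌋₊`, `z^(3K) ≤ d^(ε/8)`, `√X ≤ d^(1/2+ε)`, `BB d ≤ d^(1/2+η)` (`BB_le η`, OA/ZA).
First: the left side is `≤ 3 C d^(ε/8 + ε/8 + 1/2 + η + 1/2 + ε) = 3 C d^(1 + 5ε/4 + η)`, and `5ε/4 + η < 2ε - 2η` since `16 η ≤ ε`.
Second: the left side is `2 X d^(-κ2/2) (1 + 3 log d)`, and `-κ2/2 < -2η` since `16 η ≤ κ2`.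
-/

namespace Pool.Agent.Lib.MP_42948a_nt.EX

open Finset Pool.Agent.Lib.MP_42948a_nt.OA Pool.Agent.Lib.MP_42948a_nt.AC Pool.Agent.Lib.MP_42948a_nt.TQ
  Pool.Agent.Lib.MP_42948a_nt.PS

theorem num_two (ε α : ℝ) (hε : 0 < ε) (hε1 : ε ≤ 1 / 100) (hα : 0 < α) (K k : ℕ) (hK : 3 * K * α ≤ ε / 8)
    (η κ2 δ C : ℝ) (hη : 0 < η) (hηκ : 16 * η ≤ κ2) (hηε : 16 * η ≤ ε) (hκ : 2 * k * κ2 ≤ ε / 8) (hδ : 0 < δ) (hC : 0 < C) :
    ∃ d0 : ℕ, ∀ d : ℕ, d0 ≤ d →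
      C * (d : ℝ) ^ (2 * k * κ2) *
          ((⌊(d : ℝ) ^ α⌋₊ : ℝ) ^ (3 * K) * (3 * BB d * √(⌊(d : ℝ) ^ (1 + 2 * ε)⌋₊ : ℝ))) ≤
        δ * ((⌊(d : ℝ) ^ (1 + 2 * ε)⌋₊ : ℝ) * (d : ℝ) ^ (-(2 * η))) ∧
      (d : ℝ) ^ (-κ2) * ((2 * (⌊(d : ℝ) ^ (1 + 2 * ε)⌋₊ : ℝ) * (d : ℝ) ^ (κ2 / 2)) * (1 + 3 * Real.log d)) ≤
        δ * ((⌊(d : ℝ) ^ (1 + 2 * ε)⌋₊ : ℝ) * (d : ℝ) ^ (-(2 * η))) := by
  obtain ⟨d1, hd1⟩ := BB_le η hη
  have e1 : 0 < 3 * ε / 4 - 3 * η := by linarith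
  have h1 : ∀ᶠ x : ℝ in Filter.atTop, 6 * C / δ ≤ x ^ (3 * ε / 4 - 3 * η) :=
    (tendsto_rpow_atTop e1).eventually_ge_atTop _
  have h2 : ∀ᶠ x : ℝ in Filter.atTop, ‖Real.log x‖ ≤ δ / 12 * ‖x ^ (6 * η)‖ :=
    (isLittleO_log_rpow_atTop (by positivity : 0 < 6 * η)).bound (by positivity)
  have h3 : ∀ᶠ x : ℝ in Filter.atTop, 4 / δ ≤ x ^ (6 * η) :=
    (tendsto_rpow_atTop (by positivity : 0 < 6 * η)).eventually_ge_atTop _
  obtain ⟨d2, hd2⟩ := Filter.eventually_atTop.1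
    (tendsto_natCast_atTop_atTop.eventually (h1.and (h2.and h3)))
  refine ⟨max (max d1 d2) 1, fun d hd => ?_⟩
  have hdd1 : d1 ≤ d := le_trans (le_trans (le_max_left _ _) (le_max_left _ _)) hd
  have hdd2 : d2 ≤ d := le_trans (le_trans (le_max_right _ _) (le_max_left _ _)) hd
  have hd0 : 1 ≤ d := le_trans (le_max_right _ _) hd
  obtain ⟨hb1, -⟩ := hd1 d hdd1
  obtain ⟨g1, g2, g3⟩ := hd2 d hdd2
  obtain ⟨D, hD⟩ : ∃ D : ℝ, D = (d : ℝ) := ⟨_, rfl⟩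
  rw [← hD] at hb1 g1 g2 g3 ⊢
  have hD1 : (1 : ℝ) ≤ D := by
    rw [hD]
    exact_mod_cast hd0
  have hD0 : 0 < D := by linarith
  obtain ⟨X, hX⟩ : ∃ X : ℝ, X = (⌊D ^ (1 + 2 * ε)⌋₊ : ℝ) := ⟨_, rfl⟩
  obtain ⟨z, hz⟩ : ∃ z : ℝ, z = (⌊D ^ α⌋₊ : ℝ) := ⟨_, rfl⟩
  rw [← hX, ← hz]
  have hXle : X ≤ D ^ (1 + 2 * ε) := by
    rw [hX]
    exact Nat.floor_le (by positivity)
  have hXge : D ^ (1 + 2 * ε) ≤ 2 * X := by
    have k1 : (1 : ℝ) ≤ D ^ (1 + 2 * ε) := Real.one_le_rpow hD1 (by linarith)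
    have k2 : (1 : ℝ) ≤ X := by
      rw [hX]
      exact_mod_cast (Nat.le_floor (by rw [Nat.cast_one]; exact k1) : 1 ≤ ⌊D ^ (1 + 2 * ε)⌋₊)
    have k3 : D ^ (1 + 2 * ε) < X + 1 := by
      rw [hX]
      exact Nat.lt_floor_add_one _
    linarith
  have hX0 : 0 ≤ X := by
    rw [hX]
    exact Nat.cast_nonneg _
  have hz0 : 0 ≤ z := by
    rw [hz]
    exact Nat.cast_nonneg _
  constructor
  · have k1 : z ^ (3 * K) ≤ D ^ (ε / 8) := by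
      have k2 : z ≤ D ^ α := by
        rw [hz]
        exact Nat.floor_le (by positivity)
      calc z ^ (3 * K) ≤ (D ^ α) ^ (3 * K) := pow_le_pow_left₀ hz0 k2 _
        _ = D ^ (α * ((3 * K : ℕ) : ℝ)) := by rw [Real.rpow_mul hD0.le, Real.rpow_natCast]
        _ ≤ D ^ (ε / 8) := by
            refine Real.rpow_le_rpow_of_exponent_le hD1 ?_
            push_cast
            linarith
    have k3 : √X ≤ D ^ (1 / 2 + ε) := by
      have k4 : √X ≤ √(D ^ (1 + 2 * ε)) := Real.sqrt_le_sqrt hXle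
      refine k4.trans (le_of_eq ?_)
      rw [Real.sqrt_eq_rpow, ← Real.rpow_mul hD0.le]
      congr 1
      ring
    have k5 : D ^ (2 * k * κ2) ≤ D ^ (ε / 8) := Real.rpow_le_rpow_of_exponent_le hD1 hκ
    have k6 : 3 * BB d * √X ≤ 3 * D ^ (1 / 2 + η) * D ^ (1 / 2 + ε) := by
      have k7 : 3 * BB d ≤ 3 * D ^ (1 / 2 + η) := by linarith
      exact mul_le_mul k7 k3 (Real.sqrt_nonneg _) (by positivity)
    have k8 : z ^ (3 * K) * (3 * BB d * √X) ≤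
        D ^ (ε / 8) * (3 * D ^ (1 / 2 + η) * D ^ (1 / 2 + ε)) := by
      have k9 : 0 ≤ z ^ (3 * K) := by positivity
      exact (mul_le_mul_of_nonneg_left k6 k9).trans (mul_le_mul_of_nonneg_right k1 (by positivity))
    have k10 : C * D ^ (2 * k * κ2) * (z ^ (3 * K) * (3 * BB d * √X)) ≤
        C * D ^ (ε / 8) * (D ^ (ε / 8) * (3 * D ^ (1 / 2 + η) * D ^ (1 / 2 + ε))) := by
      have k11 : C * D ^ (2 * k * κ2) ≤ C * D ^ (ε / 8) := mul_le_mul_of_nonneg_left k5 hC.le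
      exact (mul_le_mul_of_nonneg_left k8 (by positivity)).trans
        (mul_le_mul_of_nonneg_right k11 (by positivity))
    have k12 : C * D ^ (ε / 8) * (D ^ (ε / 8) * (3 * D ^ (1 / 2 + η) * D ^ (1 / 2 + ε))) =
        3 * C * D ^ (1 + 5 * ε / 4 + η) := by
      have k13 : D ^ (1 + 5 * ε / 4 + η) =
          D ^ (ε / 8) * (D ^ (ε / 8) * (D ^ (1 / 2 + η) * D ^ (1 / 2 + ε))) := by
        rw [← Real.rpow_add hD0, ← Real.rpow_add hD0, ← Real.rpow_add hD0]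
        congr 1
        ring
      rw [k13]
      ring
    have k14 : D ^ (1 + 2 * ε) * D ^ (-(2 * η)) =
        D ^ (1 + 5 * ε / 4 + η) * D ^ (3 * ε / 4 - 3 * η) := by
      rw [← Real.rpow_add hD0, ← Real.rpow_add hD0]
      congr 1
      ring
    have k15 : 3 * C ≤ δ / 2 * D ^ (3 * ε / 4 - 3 * η) := by
      rw [div_le_iff₀ hδ] at g1
      linarith
    have k16 : 0 < D ^ (1 + 5 * ε / 4 + η) := by positivity
    have k17 : 0 < D ^ (-(2 * η)) := by positivity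
    calc C * D ^ (2 * k * κ2) * (z ^ (3 * K) * (3 * BB d * √X))
        ≤ 3 * C * D ^ (1 + 5 * ε / 4 + η) := k10.trans (le_of_eq k12)
      _ ≤ δ / 2 * D ^ (3 * ε / 4 - 3 * η) * D ^ (1 + 5 * ε / 4 + η) :=
          mul_le_mul_of_nonneg_right k15 k16.le
      _ = δ * (D ^ (1 + 2 * ε) / 2 * D ^ (-(2 * η))) := by
          linear_combination (-(δ / 2)) * k14
      _ ≤ δ * (X * D ^ (-(2 * η))) := by
          refine mul_le_mul_of_nonneg_left (mul_le_mul_of_nonneg_right ?_ k17.le) hδ.le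
          linarith
  · have k1 : 1 + 3 * Real.log D ≤ δ / 2 * D ^ (6 * η) := by
      rw [Real.norm_eq_abs, Real.norm_eq_abs, abs_of_nonneg (Real.log_nonneg hD1),
        abs_of_nonneg (by positivity : (0 : ℝ) ≤ D ^ (6 * η))] at g2
      rw [div_le_iff₀ hδ] at g3
      linarith
    have k2 : D ^ (-κ2) * D ^ (κ2 / 2) ≤ D ^ (-(8 * η)) := by
      rw [← Real.rpow_add hD0]
      refine Real.rpow_le_rpow_of_exponent_le hD1 ?_
      linarith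
    have k3 : D ^ (-(8 * η)) * D ^ (6 * η) = D ^ (-(2 * η)) := by
      rw [← Real.rpow_add hD0]
      congr 1
      ring
    have k4 : 0 ≤ 1 + 3 * Real.log D := by
      have := Real.log_nonneg hD1
      linarith
    calc D ^ (-κ2) * ((2 * X * D ^ (κ2 / 2)) * (1 + 3 * Real.log D))
        = (2 * X) * ((D ^ (-κ2) * D ^ (κ2 / 2)) * (1 + 3 * Real.log D)) := by ring
      _ ≤ (2 * X) * (D ^ (-(8 * η)) * (δ / 2 * D ^ (6 * η))) := by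
          refine mul_le_mul_of_nonneg_left ?_ (by positivity)
          exact mul_le_mul k2 k1 k4 (by positivity)
      _ = δ * (X * (D ^ (-(8 * η)) * D ^ (6 * η))) := by ring
      _ = δ * (X * D ^ (-(2 * η))) := by rw [k3]

end Pool.Agent.Lib.MP_42948a_nt.EX
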