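import Pool.Agent.Lib.MP_42948a_nt.EX.A3
import Pool.Agent.Lib.MP_42948a_nt.OA.DV

/-!
# Size of the sieve coefficients (job G3)

`|aL χ z X l n| = |rho z l n| |rr χ n| wt X n ≤ #(divisors n)^2` (`rho_abs`, `rr_le`, `wt_le_one`), and `divisor_bound` (OA/DV) gives `#(divisors n) ≤ C n^(κ/8)`, `n ≤ d^(1+2ε) ≤ d^2`, so `#(divisors n)^2 ≤ C^2 d^(κ/2) ≤ d^κ` for large `d`.
-/

namespace Pool.Agent.Lib.MP_42948a_nt.EX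

open Finset Pool.Agent.Lib.MP_42948a_nt.OA Pool.Agent.Lib.MP_42948a_nt.AC Pool.Agent.Lib.MP_42948a_nt.TQ
  Pool.Agent.Lib.MP_42948a_nt.PS

theorem aL_abs (ε κ : ℝ) (hε : 0 < ε) (hε1 : ε ≤ 1 / 100) (hκ : 0 < κ) : ∃ d0 : ℕ, ∀ d : ℕ, d0 ≤ d →
    ∀ (χ : ℕ → ℝ), (∀ n, χ n = 0 ∨ χ n = 1 ∨ χ n = -1) → ∀ (z : ℕ) (l : Finset ℕ → ℝ), (∀ T, |l T| ≤ 1) →
      ∀ n ∈ Icc 1 ⌊(d : ℝ) ^ (1 + 2 * ε)⌋₊, |aL χ z ⌊(d : ℝ) ^ (1 + 2 * ε)⌋₊ l n| ≤ (d : ℝ) ^ κ := by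
  obtain ⟨C, hC1, hC⟩ := divisor_bound (κ / 8) (by positivity)
  have hev : ∀ᶠ d : ℕ in Filter.atTop, C ^ 2 ≤ (d : ℝ) ^ (κ / 2) :=
    ((tendsto_rpow_atTop (by positivity : 0 < κ / 2)).comp tendsto_natCast_atTop_atTop).eventually_ge_atTop (C ^ 2)
  obtain ⟨d1, hd1⟩ := Filter.eventually_atTop.1 hev
  refine ⟨max d1 1, fun d hd χ hχ z l hl n hn => ?_⟩
  have hdd : d1 ≤ d := le_trans (le_max_left _ _) hd
  have hd1' : (1 : ℝ) ≤ d := by exact_mod_cast le_trans (le_max_right _ _) hd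
  have hd0 : (0 : ℝ) < d := by linarith
  obtain ⟨hn1, hnX⟩ := Finset.mem_Icc.1 hn
  have hn0 : 0 < n := hn1
  have hX0 : (0 : ℝ) < (⌊(d : ℝ) ^ (1 + 2 * ε)⌋₊ : ℝ) := by
    exact_mod_cast lt_of_lt_of_le hn0 hnX
  have hnd : (n : ℝ) ≤ (d : ℝ) ^ (2 : ℝ) := by
    have h1 : (n : ℝ) ≤ (⌊(d : ℝ) ^ (1 + 2 * ε)⌋₊ : ℝ) := by exact_mod_cast hnX
    have h2 : (⌊(d : ℝ) ^ (1 + 2 * ε)⌋₊ : ℝ) ≤ (d : ℝ) ^ (1 + 2 * ε) := Nat.floor_le (by positivity)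
    have h3 : (d : ℝ) ^ (1 + 2 * ε) ≤ (d : ℝ) ^ (2 : ℝ) := Real.rpow_le_rpow_of_exponent_le hd1' (by linarith)
    linarith
  have hcard : (n.divisors.card : ℝ) ≤ C * (d : ℝ) ^ (κ / 4) := by
    refine (hC n hn0).trans ?_
    refine mul_le_mul_of_nonneg_left ?_ (by linarith)
    have h1 : (n : ℝ) ^ (κ / 8) ≤ ((d : ℝ) ^ (2 : ℝ)) ^ (κ / 8) :=
      Real.rpow_le_rpow (Nat.cast_nonneg n) hnd (by positivity)
    rw [← Real.rpow_mul hd0.le] at h1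
    have e : (2 : ℝ) * (κ / 8) = κ / 4 := by ring
    rw [e] at h1
    exact h1
  have hc0 : (0 : ℝ) ≤ (n.divisors.card : ℝ) := Nat.cast_nonneg _
  have h4 : |aL χ z ⌊(d : ℝ) ^ (1 + 2 * ε)⌋₊ l n| ≤ (n.divisors.card : ℝ) * (n.divisors.card : ℝ) := by
    unfold aL
    rw [abs_mul, abs_mul, abs_of_nonneg (wt_nonneg _ n)]
    have a1 := rho_abs z l hl hn0
    have a2 := rr_le hχ n
    have a3 := wt_le_one hX0 n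
    calc |rho z l n| * |rr χ n| * wt (⌊(d : ℝ) ^ (1 + 2 * ε)⌋₊ : ℝ) n ≤
        ((n.divisors.card : ℝ) * (n.divisors.card : ℝ)) * 1 :=
          mul_le_mul (mul_le_mul a1 a2 (abs_nonneg _) hc0) a3 (wt_nonneg _ n) (by positivity)
      _ = _ := mul_one _
  have h5 : (n.divisors.card : ℝ) * (n.divisors.card : ℝ) ≤ (C * (d : ℝ) ^ (κ / 4)) * (C * (d : ℝ) ^ (κ / 4)) :=
    mul_le_mul hcard hcard hc0 (by positivity)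
  have h6 : (C * (d : ℝ) ^ (κ / 4)) * (C * (d : ℝ) ^ (κ / 4)) = C ^ 2 * (d : ℝ) ^ (κ / 2) := by
    have e : (d : ℝ) ^ (κ / 2) = (d : ℝ) ^ (κ / 4) * (d : ℝ) ^ (κ / 4) := by
      rw [← Real.rpow_add hd0]
      congr 1
      ring
    rw [e]
    ring
  have h7 : C ^ 2 * (d : ℝ) ^ (κ / 2) ≤ (d : ℝ) ^ κ := by
    have e : (d : ℝ) ^ κ = (d : ℝ) ^ (κ / 2) * (d : ℝ) ^ (κ / 2) := by
      rw [← Real.rpow_add hd0]
      congr 1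
      ring
    rw [e]
    exact mul_le_mul_of_nonneg_right (hd1 d hdd) (by positivity)
  rw [h6] at h5
  linarith

end Pool.Agent.Lib.MP_42948a_nt.EX
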