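import Pool.Agent.Lib.MP_42948a_nt.EX.Defs

/-!
# The final contradiction (job G4)

`φ tr ≤ WT CB (δ Y0 + 2 (11/10) κ R)` by `hup`. Divide `hlow` by `WT`: `N1 WB ≤ δ Y0 (WB + 1) + CB (δ Y0 + (11/5) κ R)`. Since `0 < Y0 ≤ R`, `N1 ≥ (9/10 - δ) R`, and dividing by `R`:
`(9/10 - 2δ) WB ≤ δ (1 + CB) + (11/5) CB κ`. Here `CB κ ≤ ε/16`, `δ (1 + CB) ≤ ε/20`, `δ ≤ ε / 20 ≤ 1/20`, `WB ≥ ε/2`: left `≥ (8/10) ε/2 = 2ε/5`, right `≤ ε/20 + 11ε/80 < 2ε/5`.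
-/

namespace Pool.Agent.Lib.MP_42948a_nt.EX

open Finset Pool.Agent.Lib.MP_42948a_nt.OA Pool.Agent.Lib.MP_42948a_nt.AC Pool.Agent.Lib.MP_42948a_nt.TQ
  Pool.Agent.Lib.MP_42948a_nt.PS

theorem final_alg (ε R Y0 WB WT CB κ δ φ tr N1 : ℝ) (hε : 0 < ε) (hε1 : ε ≤ 1 / 100) (hφ : 0 < φ) (hWT : 0 < WT)
    (hWB : ε / 2 ≤ WB) (hCB : 1 ≤ CB) (hY0 : 0 < Y0) (hYR : Y0 ≤ R) (hκ0 : 0 ≤ κ) (hκ : κ * CB ≤ ε / 16) (hδ0 : 0 < δ)
    (hδ : δ * (1 + CB) ≤ ε / 20) (hN1 : 9 / 10 * R - δ * Y0 ≤ N1)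
    (hlow : N1 * WB * WT - (δ * Y0 * WB * WT + WT * (δ * Y0)) ≤ φ * tr)
    (hup : tr ≤ WT * (CB / φ) * (δ * Y0 + 2 * (11 / 10) * κ * R)) : False := by
  have hR : 0 < R := lt_of_lt_of_le hY0 hYR
  have hCB0 : 0 < CB := by linarith
  have h1 : φ * tr ≤ WT * (CB * (δ * Y0 + 2 * (11 / 10) * κ * R)) := by
    have h := mul_le_mul_of_nonneg_left hup hφ.le
    have e : φ * (WT * (CB / φ) * (δ * Y0 + 2 * (11 / 10) * κ * R)) =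
        WT * (CB * (δ * Y0 + 2 * (11 / 10) * κ * R)) := by
      field_simp
    rw [e] at h
    exact h
  have h2 : WT * (N1 * WB - (δ * Y0 * WB + δ * Y0)) ≤ WT * (CB * (δ * Y0 + 2 * (11 / 10) * κ * R)) := by
    refine le_trans (le_of_eq ?_) (hlow.trans h1)
    ring
  have h3 : N1 * WB - (δ * Y0 * WB + δ * Y0) ≤ CB * (δ * Y0 + 2 * (11 / 10) * κ * R) :=
    le_of_mul_le_mul_left h2 hWT
  have hWB0 : 0 < WB := by linarith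
  have h4 : (9 / 10 * R - δ * Y0) * WB ≤ N1 * WB := mul_le_mul_of_nonneg_right hN1 hWB0.le
  have hδ1 : δ ≤ ε / 40 := by nlinarith
  have hδY : δ * Y0 ≤ δ * R := mul_le_mul_of_nonneg_left hYR hδ0.le
  have h5 : δ * Y0 * WB ≤ δ * R * WB := mul_le_mul_of_nonneg_right hδY hWB0.le
  have h6 : δ * Y0 * (1 + CB) ≤ ε / 20 * R := by
    have a1 : δ * Y0 * (1 + CB) = δ * (1 + CB) * Y0 := by ring
    have a2 : 0 ≤ δ * (1 + CB) := by positivity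
    rw [a1]
    calc δ * (1 + CB) * Y0 ≤ δ * (1 + CB) * R := mul_le_mul_of_nonneg_left hYR a2
      _ ≤ ε / 20 * R := mul_le_mul_of_nonneg_right hδ hR.le
  have h7 : κ * CB * R ≤ ε / 16 * R := mul_le_mul_of_nonneg_right hκ hR.le
  have h8 : δ * R * WB ≤ 1 / 4000 * R * WB := by
    have : δ ≤ 1 / 4000 := by linarith
    exact mul_le_mul_of_nonneg_right (mul_le_mul_of_nonneg_right this hR.le) hWB0.le
  have h9 : ε / 2 * R ≤ WB * R := mul_le_mul_of_nonneg_right hWB hR.le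
  have h10 : 0 < ε * R := mul_pos hε hR
  nlinarith

end Pool.Agent.Lib.MP_42948a_nt.EX
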