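import Pool.Agent.Lib.MP_42948a_nt.EX.A3

/-!
# Restriction to the numbers prime to `d` (job A4)

The difference of the two sums is the sum over the `n ∈ Icc 1 X` with `(n, d) > 1` of `aL χ z X l n = rho z l n * rr χ n * wt X n`, `rr ≥ 0` (`rr_nonneg`), `0 ≤ wt ≤ 1`. If `n` is not
`z`-rough the term is `≤ 0` (`rho_le_rough`). If `n` is rough: `rho z l n ≤ 1`, `rr χ n ≤ #(divisors n) ≤ Cr`, and there is a prime `p ∣ n`, `p ∣ d`, `p > z`. So the
difference is at most `Cr * ∑_{p ∈ d.divisors, p > z} (X / p) ≤ Cr * #(d.divisors) * X / z` (`#{n ≤ X : p ∣ n} = X / p ≤ X / z`).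
-/

namespace Pool.Agent.Lib.MP_42948a_nt.EX

open Finset Pool.Agent.Lib.MP_42948a_nt.OA Pool.Agent.Lib.MP_42948a_nt.AC Pool.Agent.Lib.MP_42948a_nt.TQ
  Pool.Agent.Lib.MP_42948a_nt.PS

open Classical in
private theorem EX_A4_card (d z X : ℕ) (hd : 0 < d) (hz : 1 ≤ z) :
    (((Icc 1 X).filter (fun n : ℕ => ¬ n.Coprime d ∧ Rough z n)).card : ℝ) ≤ (X : ℝ) * (d.divisors.card : ℝ) / z := by
  have hz0 : (0 : ℝ) < z := by exact_mod_cast hz
  have h1 : (Icc 1 X).filter (fun n : ℕ => ¬ n.Coprime d ∧ Rough z n) ⊆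
      (d.divisors.filter (fun p : ℕ => z < p)).biUnion (fun p : ℕ => (Icc 1 X).filter (fun n : ℕ => p ∣ n)) := by
    intro n hn
    rw [mem_filter] at hn
    obtain ⟨hn, hc, hr⟩ := hn
    obtain ⟨p, hp, hpn, hpd⟩ := Nat.Prime.not_coprime_iff_dvd.1 hc
    rw [mem_biUnion]
    refine ⟨p, ?_, ?_⟩
    · rw [mem_filter, Nat.mem_divisors]
      exact ⟨⟨hpd, hd.ne'⟩, hr.2 p hp hpn⟩
    · rw [mem_filter]
      exact ⟨hn, hpn⟩
  have h2 := (card_le_card h1).trans card_biUnion_le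
  have h3 : ∀ p ∈ d.divisors.filter (fun p : ℕ => z < p),
      (((Icc 1 X).filter (fun n : ℕ => p ∣ n)).card : ℝ) ≤ (X : ℝ) / z := by
    intro p hp
    rw [mem_filter] at hp
    have h4 : ((Icc 1 X).filter (fun n : ℕ => p ∣ n)).card = X / p := by
      have h5 := Nat.Ioc_filter_dvd_card_eq_div X p
      rw [← h5]
      rfl
    rw [h4]
    refine Nat.cast_div_le.trans ?_
    have h6 : (z : ℝ) ≤ (p : ℝ) := by exact_mod_cast hp.2.le
    exact div_le_div_of_nonneg_left (Nat.cast_nonneg X) hz0 h6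
  calc (((Icc 1 X).filter (fun n : ℕ => ¬ n.Coprime d ∧ Rough z n)).card : ℝ)
      ≤ ((∑ p ∈ d.divisors.filter (fun p : ℕ => z < p), ((Icc 1 X).filter (fun n : ℕ => p ∣ n)).card : ℕ) : ℝ) := by
        exact_mod_cast h2
    _ = ∑ p ∈ d.divisors.filter (fun p : ℕ => z < p), (((Icc 1 X).filter (fun n : ℕ => p ∣ n)).card : ℝ) := by
        rw [Nat.cast_sum]
    _ ≤ ∑ _p ∈ d.divisors.filter (fun p : ℕ => z < p), (X : ℝ) / z := sum_le_sum h3
    _ = ((d.divisors.filter (fun p : ℕ => z < p)).card : ℝ) * ((X : ℝ) / z) := by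
        rw [sum_const, nsmul_eq_mul]
    _ ≤ (d.divisors.card : ℝ) * ((X : ℝ) / z) := by
        refine mul_le_mul_of_nonneg_right ?_ (by positivity)
        exact_mod_cast card_filter_le _ _
    _ = (X : ℝ) * (d.divisors.card : ℝ) / z := by ring

theorem low_coprime {τ : ℝ} {K z : ℕ} {u l : Finset ℕ → ℝ} (hF : Fund τ K z u l) (d : ℕ) (hd : 0 < d) (hz : 1 ≤ z)
    {χ : ℕ → ℝ} (hχ : RealChar d χ) (X Cr : ℕ) (hX : 1 ≤ X)
    (hCr : ∀ n : ℕ, Rough z n → n ≤ X → n.divisors.card ≤ Cr) :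
    ∑ n ∈ Icc 1 X, aL χ z X l n - (Cr : ℝ) * X * (d.divisors.card : ℝ) / z ≤
      ∑ n ∈ (Icc 1 X).filter (fun n : ℕ => n.Coprime d), aL χ z X l n := by
  classical
  have hX0 : (0 : ℝ) < X := by exact_mod_cast hX
  have h1 : ∑ n ∈ Icc 1 X, aL χ z X l n = ∑ n ∈ (Icc 1 X).filter (fun n : ℕ => n.Coprime d), aL χ z X l n +
      ∑ n ∈ (Icc 1 X).filter (fun n : ℕ => ¬ n.Coprime d), aL χ z X l n :=
    (sum_filter_add_sum_filter_not (Icc 1 X) (fun n : ℕ => n.Coprime d) _).symm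
  have h2 : ∑ n ∈ (Icc 1 X).filter (fun n : ℕ => ¬ n.Coprime d), aL χ z X l n ≤
      ∑ n ∈ (Icc 1 X).filter (fun n : ℕ => ¬ n.Coprime d), (if Rough z n then (Cr : ℝ) else 0) := by
    refine sum_le_sum fun n hn => ?_
    rw [mem_filter, mem_Icc] at hn
    have hn0 : 0 < n := hn.1.1
    have hrn := rr_nonneg χ hχ.mul hχ.one hχ.val n
    have hw0 := wt_nonneg (X : ℝ) n
    have hw1 := wt_le_one hX0 n
    obtain ⟨hr1, hr2, _, _⟩ := rho_le_rough hF hn0
    unfold aL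
    by_cases hr : Rough z n
    · rw [if_pos hr]
      have h3 : rr χ n ≤ (Cr : ℝ) := by
        refine (le_abs_self _).trans ((rr_le hχ.val n).trans ?_)
        exact_mod_cast hCr n hr hn.1.2
      have h4 : rho z l n * rr χ n ≤ rr χ n := by
        have := mul_le_mul_of_nonneg_right (hr1 hr) hrn
        rwa [one_mul] at this
      calc rho z l n * rr χ n * wt X n ≤ rr χ n * wt X n := mul_le_mul_of_nonneg_right h4 hw0
        _ ≤ rr χ n * 1 := mul_le_mul_of_nonneg_left hw1 hrn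
        _ ≤ (Cr : ℝ) := by rw [mul_one]; exact h3
    · rw [if_neg hr]
      exact mul_nonpos_of_nonpos_of_nonneg (mul_nonpos_of_nonpos_of_nonneg (hr2 hr) hrn) hw0
  have h3 : ∑ n ∈ (Icc 1 X).filter (fun n : ℕ => ¬ n.Coprime d), (if Rough z n then (Cr : ℝ) else 0) =
      (((Icc 1 X).filter (fun n : ℕ => ¬ n.Coprime d ∧ Rough z n)).card : ℝ) * Cr := by
    rw [← sum_filter, filter_filter, sum_const, nsmul_eq_mul]
  have h4 := EX_A4_card d z X hd hz
  have h5 := mul_le_mul_of_nonneg_right h4 (Nat.cast_nonneg Cr : (0 : ℝ) ≤ (Cr : ℝ))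
  have h6 : (X : ℝ) * (d.divisors.card : ℝ) / z * Cr = (Cr : ℝ) * X * (d.divisors.card : ℝ) / z := by ring
  rw [h6] at h5
  rw [h1]
  rw [h3] at h2
  linarith

end Pool.Agent.Lib.MP_42948a_nt.EX
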