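import Pool.Agent.Lib.MP_42948a_nt.EX.Defs
import Pool.Agent.Lib.MP_42948a_nt.OM.B1

/-!
# The hyperbola method (job B3)

Claim: `‖∑_{n ≤ N} (f * g)(n) wt t n‖ ≤ 3 M √t` for `0 < t ≤ N` if all the sums `∑_{n ≤ u} f n`, `∑_{n ≤ u} g n` are `≤ M` and `|f|, |g| ≤ 1`.
1. As `RE_swap` (OA/RE): `∑_{n ∈ Icc 1 N} cv f g n * w n = ∑_{a ∈ Icc 1 N} f a * ∑_{b ∈ Icc 1 (N / a)} g b * w (a * b)` (bijection `(n, a) ↦ (a, n / a)`). Here `w = wt t`, and `wt t (a b) = 0` for `a b ≥ t`;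
so we may let both `a` and `b` run through `Icc 1 N` without the condition `a b ≤ N` (`a b > N ≥ t`).
2. Let `A = ⌊√t⌋₊`, so `A ≤ √t < A + 1`. Split `a ≤ A` and `a > A`.
3. `a ≤ A`: the function `b ↦ wt t (a b)` is antitone, in `[0, 1]`; `abel_norm` (OM/B1, with `y = 0`) gives `‖∑_b g b * wt t (a b)‖ ≤ M * wt t a ≤ M`. Total `≤ A M ≤ M √t`.
4. `a > A`: then only `b ≤ A` contribute (`a b ≥ (A + 1)^2 > t` if `b ≥ A + 1`). Exchange the sums: for each `b ≤ A`, `b ≥ 1`, `‖∑_{a ∈ Ioc A N} f a * wt t (a b)‖ ≤ 2 M` by `abel_norm` with `y = A`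
(`‖∑_{Ioc A u} f‖ ≤ 2 M`). Total `≤ 2 A M ≤ 2 M √t`.
`M ≥ 0` from `hMf 0`.
-/

namespace Pool.Agent.Lib.MP_42948a_nt.EX

open Finset Pool.Agent.Lib.MP_42948a_nt.OA Pool.Agent.Lib.MP_42948a_nt.AC Pool.Agent.Lib.MP_42948a_nt.TQ
  Pool.Agent.Lib.MP_42948a_nt.PS

private theorem B3_wt_nonneg (t : ℝ) (n : ℕ) : 0 ≤ wt t n := le_max_left _ _

private theorem B3_wt_anti {t : ℝ} (ht : 0 < t) {n m : ℕ} (h : n ≤ m) : wt t m ≤ wt t n := by
  unfold wt
  refine max_le_max le_rfl ?_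
  have h1 : (n : ℝ) / t ≤ m / t := div_le_div_of_nonneg_right (by exact_mod_cast h) ht.le
  linarith

private theorem B3_wt_le_one {t : ℝ} (ht : 0 < t) (n : ℕ) : wt t n ≤ 1 := by
  unfold wt
  refine max_le zero_le_one ?_
  have h1 : (0 : ℝ) ≤ n / t := by positivity
  linarith

private theorem B3_wt_zero {t : ℝ} (ht : 0 < t) {n : ℕ} (h : t ≤ n) : wt t n = 0 := by
  unfold wt
  refine max_eq_left ?_
  have h1 : 1 ≤ (n : ℝ) / t := by rwa [le_div_iff₀ ht, one_mul]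
  linarith

private theorem B3_Icc (n : ℕ) : Icc 1 n = Ioc 0 n := by
  ext x; simp only [mem_Icc, mem_Ioc]; omega

private theorem B3_swap (f g W : ℕ → ℂ) (N : ℕ) :
    ∑ n ∈ Icc 1 N, cv f g n * W n =
      ∑ a ∈ Icc 1 N, f a * ∑ b ∈ Icc 1 (N / a), g b * W (a * b) := by
  classical
  have h1 : ∑ n ∈ Icc 1 N, cv f g n * W n =
      ∑ n ∈ Icc 1 N, ∑ a ∈ n.divisors, f a * (g (n / a) * W n) := by
    apply sum_congr rfl
    intro n _
    unfold cv
    rw [sum_mul]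
    exact sum_congr rfl fun a _ => mul_assoc _ _ _
  have h2 : ∑ n ∈ Icc 1 N, ∑ a ∈ n.divisors, f a * (g (n / a) * W n) =
      ∑ a ∈ Icc 1 N, ∑ n ∈ (Icc 1 N).filter (fun n => a ∣ n), f a * (g (n / a) * W n) := by
    apply sum_comm'
    intro n a
    simp only [mem_Icc, Nat.mem_divisors, mem_filter]
    constructor
    · rintro ⟨⟨h1, h2⟩, h3, h4⟩
      exact ⟨⟨⟨h1, h2⟩, h3⟩, Nat.pos_of_dvd_of_pos h3 h1, (Nat.le_of_dvd h1 h3).trans h2⟩
    · rintro ⟨⟨⟨h1, h2⟩, h3⟩, h4, h5⟩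
      exact ⟨⟨h1, h2⟩, h3, by omega⟩
  rw [h1, h2]
  apply sum_congr rfl
  intro a ha
  rw [mem_Icc] at ha
  rw [mul_sum]
  symm
  apply sum_bij (fun b _ => a * b)
  · intro b hb
    rw [mem_Icc] at hb
    rw [mem_filter, mem_Icc]
    refine ⟨⟨Nat.mul_pos ha.1 hb.1, ?_⟩, Dvd.intro _ rfl⟩
    have := hb.2
    rw [Nat.le_div_iff_mul_le ha.1] at this
    rw [mul_comm]; exact this
  · intro b _ b' _ h
    exact Nat.eq_of_mul_eq_mul_left ha.1 h
  · intro n hn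
    rw [mem_filter, mem_Icc] at hn
    obtain ⟨⟨hn1, hn2⟩, b, rfl⟩ := hn
    refine ⟨b, ?_, rfl⟩
    rw [mem_Icc]
    constructor
    · rcases Nat.eq_zero_or_pos b with h | h
      · subst h; simp at hn1
      · exact h
    · rw [Nat.le_div_iff_mul_le ha.1, mul_comm]; exact hn2
  · intro b _
    rw [Nat.mul_div_cancel_left b ha.1]

theorem SC_base (f g : ℕ → ℂ) (hf1 : ∀ n, ‖f n‖ ≤ 1) (hg1 : ∀ n, ‖g n‖ ≤ 1) (M : ℝ)
    (hMf : ∀ N : ℕ, ‖∑ n ∈ Icc 1 N, f n‖ ≤ M) (hMg : ∀ N : ℕ, ‖∑ n ∈ Icc 1 N, g n‖ ≤ M) (N : ℕ) (t : ℝ)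
    (ht : 0 < t) (htN : t ≤ N) : ‖SC f g N ∅ t‖ ≤ 3 * M * √t := by
  classical
  have hM0 : 0 ≤ M := (norm_nonneg _).trans (hMf 0)
  have hMf' : ∀ u : ℕ, ‖∑ n ∈ Ioc 0 u, f n‖ ≤ M := fun u => by
    rw [← B3_Icc]
    exact hMf u
  have hMg' : ∀ u : ℕ, ‖∑ n ∈ Ioc 0 u, g n‖ ≤ M := fun u => by
    rw [← B3_Icc]
    exact hMg u
  have hN1 : (1 : ℝ) ≤ N := by
    have h1 : (0 : ℝ) < N := lt_of_lt_of_le ht htN
    have h2 : 0 < N := by exact_mod_cast h1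
    exact_mod_cast h2
  set A : ℕ := ⌊√t⌋₊ with hA
  have hA1 : (A : ℝ) ≤ √t := Nat.floor_le (Real.sqrt_nonneg t)
  have hA2 : √t < (A : ℝ) + 1 := Nat.lt_floor_add_one _
  have hAN : A ≤ N := by
    have h1 : √t ≤ N := by
      rw [Real.sqrt_le_left (by linarith)]
      nlinarith
    exact_mod_cast hA1.trans h1
  have htA : t ≤ ((A : ℝ) + 1) * (A + 1) := by
    have h1 := Real.mul_self_sqrt ht.le
    have h2 := mul_self_le_mul_self (Real.sqrt_nonneg t) hA2.le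
    linarith
  -- the double sum
  have e1 : SC f g N ∅ t = ∑ a ∈ Ioc 0 N, f a * ∑ b ∈ Ioc 0 N, g b * ((wt t (a * b) : ℝ) : ℂ) := by
    have h1 : SC f g N ∅ t = ∑ n ∈ Icc 1 N, cv f g n * ((wt t n : ℝ) : ℂ) := by
      unfold SC
      apply sum_congr
      · ext n; simp
      · intro n _; rfl
    rw [h1, B3_swap f g (fun n => ((wt t n : ℝ) : ℂ)) N, ← B3_Icc]
    refine sum_congr rfl fun a ha => ?_
    congr 1
    have ha1 := (mem_Icc.1 ha).1
    refine sum_subset ?_ ?_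
    · intro b hb
      rw [mem_Icc] at hb ⊢
      exact ⟨hb.1, hb.2.trans (Nat.div_le_self N a)⟩
    · intro b hb hb'
      rw [mem_Icc] at hb hb'
      have h2 : N < a * b := by
        by_contra hcon
        refine hb' ⟨hb.1, ?_⟩
        rw [Nat.le_div_iff_mul_le ha1, mul_comm]
        exact not_lt.1 hcon
      have h3 : t ≤ ((a * b : ℕ) : ℝ) := htN.trans (by exact_mod_cast h2.le)
      rw [B3_wt_zero ht h3, Complex.ofReal_zero, mul_zero]
  -- the small values of a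
  have b1 : ‖∑ a ∈ Ioc 0 A, f a * ∑ b ∈ Ioc 0 N, g b * ((wt t (a * b) : ℝ) : ℂ)‖ ≤ A * M := by
    have h1 : ∀ a ∈ Ioc 0 A, ‖f a * ∑ b ∈ Ioc 0 N, g b * ((wt t (a * b) : ℝ) : ℂ)‖ ≤ M := by
      intro a _
      have h2 := Pool.Agent.Lib.MP_42948a_nt.OM.abel_norm g (fun b => wt t (a * b)) M 0 N
        (fun n _ => B3_wt_nonneg t _)
        (fun n _ => B3_wt_anti ht (Nat.mul_le_mul_left a (Nat.le_succ n))) hMg'
      have h3 : M * wt t (a * (0 + 1)) ≤ M * 1 :=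
        mul_le_mul_of_nonneg_left (B3_wt_le_one ht _) hM0
      rw [norm_mul]
      have h4 := mul_le_mul (hf1 a) (h2.trans h3) (norm_nonneg _) zero_le_one
      linarith
    refine (norm_sum_le_of_le _ h1).trans ?_
    rw [sum_const, Nat.card_Ioc, Nat.sub_zero, nsmul_eq_mul]
  -- the large values of a
  have b2 : ‖∑ a ∈ Ioc A N, f a * ∑ b ∈ Ioc 0 N, g b * ((wt t (a * b) : ℝ) : ℂ)‖ ≤
      A * (2 * M) := by
    have h1 : ∑ a ∈ Ioc A N, f a * ∑ b ∈ Ioc 0 N, g b * ((wt t (a * b) : ℝ) : ℂ) =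
        ∑ b ∈ Ioc 0 A, g b * ∑ a ∈ Ioc A N, f a * ((wt t (a * b) : ℝ) : ℂ) := by
      have h2 : ∀ a ∈ Ioc A N, f a * ∑ b ∈ Ioc 0 N, g b * ((wt t (a * b) : ℝ) : ℂ) =
          ∑ b ∈ Ioc 0 A, g b * (f a * ((wt t (a * b) : ℝ) : ℂ)) := by
        intro a ha
        have haA : A < a := (mem_Ioc.1 ha).1
        rw [← sum_Ioc_consecutive _ (Nat.zero_le A) hAN]
        have h3 : ∑ b ∈ Ioc A N, g b * ((wt t (a * b) : ℝ) : ℂ) = 0 := by
          refine sum_eq_zero fun b hb => ?_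
          have hbA : A < b := (mem_Ioc.1 hb).1
          have h4 : (A + 1) * (A + 1) ≤ a * b := Nat.mul_le_mul haA hbA
          have h5 : t ≤ ((a * b : ℕ) : ℝ) := by
            refine htA.trans ?_
            have h6 : (((A + 1) * (A + 1) : ℕ) : ℝ) ≤ ((a * b : ℕ) : ℝ) := by exact_mod_cast h4
            rw [Nat.cast_mul (A + 1) (A + 1)] at h6
            push_cast at h6 ⊢
            exact h6
          rw [B3_wt_zero ht h5, Complex.ofReal_zero, mul_zero]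
        rw [h3, add_zero, mul_sum]
        refine sum_congr rfl fun b _ => ?_
        ring
      rw [sum_congr rfl h2, sum_comm]
      refine sum_congr rfl fun b _ => ?_
      rw [mul_sum]
    rw [h1]
    have h2 : ∀ u : ℕ, ‖∑ n ∈ Ioc A u, f n‖ ≤ 2 * M := by
      intro u
      rcases le_total A u with hu | hu
      · have h3 := sum_Ioc_consecutive f (Nat.zero_le A) hu
        have h4 : ∑ n ∈ Ioc A u, f n = ∑ n ∈ Ioc 0 u, f n - ∑ n ∈ Ioc 0 A, f n := by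
          rw [← h3]
          ring
        rw [h4]
        refine (norm_sub_le _ _).trans ?_
        have h5 := hMf' u
        have h6 := hMf' A
        linarith
      · rw [Ioc_eq_empty (by omega), sum_empty, norm_zero]
        linarith
    have h3 : ∀ b ∈ Ioc 0 A, ‖g b * ∑ a ∈ Ioc A N, f a * ((wt t (a * b) : ℝ) : ℂ)‖ ≤ 2 * M := by
      intro b _
      have h4 := Pool.Agent.Lib.MP_42948a_nt.OM.abel_norm f (fun a => wt t (a * b)) (2 * M) A N
        (fun n _ => B3_wt_nonneg t _)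
        (fun n _ => B3_wt_anti ht (Nat.mul_le_mul_right b (Nat.le_succ n))) h2
      have h5 : 2 * M * wt t ((A + 1) * b) ≤ 2 * M * 1 :=
        mul_le_mul_of_nonneg_left (B3_wt_le_one ht _) (by linarith)
      rw [norm_mul]
      have h6 := mul_le_mul (hg1 b) (h4.trans h5) (norm_nonneg _) zero_le_one
      linarith
    refine (norm_sum_le_of_le _ h3).trans ?_
    rw [sum_const, Nat.card_Ioc, Nat.sub_zero, nsmul_eq_mul]
  rw [e1, ← sum_Ioc_consecutive _ (Nat.zero_le A) hAN]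
  refine (norm_add_le _ _).trans ((add_le_add b1 b2).trans ?_)
  have h1 : (A : ℝ) * M ≤ √t * M := mul_le_mul_of_nonneg_right hA1 hM0
  linarith

end Pool.Agent.Lib.MP_42948a_nt.EX
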