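import Pool.Agent.Lib.MP_42948a_nt.EX.B2
import Pool.Agent.Lib.MP_42948a_nt.EX.B3
import Pool.Agent.Lib.MP_42948a_nt.TQ.A3
import Pool.Agent.Lib.MP_42948a_nt.TQ.A4
import Pool.Agent.Lib.MP_42948a_nt.TQ.B4
import Pool.Agent.Lib.MP_42948a_nt.OA.RI

/-!
# The other characters (job B4)

For `n ≥ 1`, `rr (chi ψ) n * ξ n = cv f g n` with `f n = dch ψ n * ξ n`, `g n = ξ n` (`dch_nat`; `ξ a ξ (n / a) = ξ n` for `a ∣ n`). `f`, `g` are completely multiplicative, of norm `≤ 1`, and they are the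
characters `dch ψ * ξ` and `ξ`, both `≠ 1` (`dch ψ * ξ = 1` would give `ξ = (dch ψ)⁻¹ = dch ψ` as `dch ψ ^ 2 = 1`, `dch_sq`). So `SC_base` with `M = BB d` (`TQ.polya`) gives
`‖SC f g X ∅ t‖ ≤ 3 BB d √t ≤ 3 BB d √X =: E` for `0 < t ≤ X`, and `SC_bound` gives `‖SC f g X T X‖ ≤ 3^(#T) E`.
`AR (Icc 1 X) (aL ..) ξ = ∑_{n ∈ Icc 1 X} rho z l n * (cv f g n * wt X n) = ∑_{T ∈ (PP z).powerset} l T * SC f g X T X` (exchange as `A3_exch`, complex version). Only `T ∈ TT z K` contribute (`l_sup`),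
`|l T| ≤ 1`, `3^(#T) ≤ (∏ p ∈ T, p)^2 ≤ z^(2K)` (`RI_pow`), `#(TT z K) ≤ z^K` (`card_TT`). Total `≤ z^(3K) * 3 BB d √X`.
-/

namespace Pool.Agent.Lib.MP_42948a_nt.EX

open Finset Pool.Agent.Lib.MP_42948a_nt.OA Pool.Agent.Lib.MP_42948a_nt.AC Pool.Agent.Lib.MP_42948a_nt.TQ
  Pool.Agent.Lib.MP_42948a_nt.PS

private theorem EX_B4_cv {d : ℕ} (ψ : (ZMod d)ˣ →* ℤˣ) (ξ : DirichletCharacter ℂ d) (n : ℕ) :
    ((rr (chi ψ) n : ℝ) : ℂ) * ξ (n : ZMod d) =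
      cv (fun m : ℕ => (dch ψ * ξ) (m : ZMod d)) (fun m : ℕ => ξ (m : ZMod d)) n := by
  unfold rr cv
  rw [Complex.ofReal_sum, Finset.sum_mul]
  refine Finset.sum_congr rfl fun a ha => ?_
  have h1 : a * (n / a) = n := Nat.mul_div_cancel' (Nat.dvd_of_mem_divisors ha)
  show ((chi ψ a : ℝ) : ℂ) * ξ (n : ZMod d) = (dch ψ * ξ) (a : ZMod d) * ξ ((n / a : ℕ) : ZMod d)
  rw [MulChar.mul_apply, dch_nat, mul_assoc, ← map_mul, ← Nat.cast_mul, h1]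

private theorem EX_B4_sum {d : ℕ} (ψ : (ZMod d)ˣ →* ℤˣ) (ξ : DirichletCharacter ℂ d) (z X : ℕ)
    (l : Finset ℕ → ℝ) :
    AR (Icc 1 X) (aL (chi ψ) z X l) ξ = ∑ T ∈ (PP z).powerset, ((l T : ℝ) : ℂ) *
      SC (fun m : ℕ => (dch ψ * ξ) (m : ZMod d)) (fun m : ℕ => ξ (m : ZMod d)) X T X := by
  unfold AR
  have h1 : ∀ n ∈ Icc 1 X, ((aL (chi ψ) z X l n : ℝ) : ℂ) * ξ (n : ZMod d) =
      ∑ T ∈ (PP z).powerset, ((l T : ℝ) : ℂ) * (if ∀ p ∈ T, p ∣ n then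
        cv (fun m : ℕ => (dch ψ * ξ) (m : ZMod d)) (fun m : ℕ => ξ (m : ZMod d)) n *
          ((wt X n : ℝ) : ℂ) else 0) := by
    intro n _
    rw [← EX_B4_cv]
    unfold aL rho
    rw [Complex.ofReal_mul, Complex.ofReal_mul, Complex.ofReal_sum, Finset.sum_mul, Finset.sum_mul,
      Finset.sum_mul]
    refine Finset.sum_congr rfl fun T _ => ?_
    by_cases h : ∀ p ∈ T, p ∣ n
    · rw [if_pos h, if_pos h, mul_one]
      ring
    · rw [if_neg h, if_neg h, mul_zero, mul_zero, Complex.ofReal_zero, zero_mul, zero_mul, zero_mul]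
  rw [Finset.sum_congr rfl h1, Finset.sum_comm]
  refine Finset.sum_congr rfl fun T _ => ?_
  rw [← Finset.mul_sum, SC, Finset.sum_filter]

theorem other_char {τ : ℝ} {K z : ℕ} {u l : Finset ℕ → ℝ} (hF : Fund τ K z u l) (d : ℕ) [NeZero d] (X : ℕ) (hX : 1 ≤ X)
    (ψ : (ZMod d)ˣ →* ℤˣ) (ξ : DirichletCharacter ℂ d) (h1 : ξ ≠ 1) (h2 : ξ ≠ dch ψ) :
    ‖AR (Icc 1 X) (aL (chi ψ) z X l) ξ‖ ≤ (z : ℝ) ^ (3 * K) * (3 * BB d * √(X : ℝ)) := by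
  have hf : ∀ m n : ℕ, (dch ψ * ξ) ((m * n : ℕ) : ZMod d) =
      (dch ψ * ξ) (m : ZMod d) * (dch ψ * ξ) (n : ZMod d) := by
    intro m n
    rw [Nat.cast_mul, map_mul]
  have hg : ∀ m n : ℕ, ξ ((m * n : ℕ) : ZMod d) = ξ (m : ZMod d) * ξ (n : ZMod d) := by
    intro m n
    rw [Nat.cast_mul, map_mul]
  have hf1 : ∀ n : ℕ, ‖(dch ψ * ξ) (n : ZMod d)‖ ≤ 1 := fun n =>
    DirichletCharacter.norm_le_one _ _
  have hg1 : ∀ n : ℕ, ‖ξ (n : ZMod d)‖ ≤ 1 := fun n => DirichletCharacter.norm_le_one _ _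
  have h3 : dch ψ * ξ ≠ 1 := by
    intro h
    apply h2
    have h4 : dch ψ * (dch ψ * ξ) = dch ψ := by rw [h, mul_one]
    rw [← mul_assoc, ← pow_two, dch_sq, one_mul] at h4
    exact h4
  have hB : 0 ≤ BB d := by
    unfold BB
    have := Real.log_natCast_nonneg d
    positivity
  obtain ⟨E, hE⟩ : ∃ E : ℝ, E = 3 * BB d * √(X : ℝ) := ⟨_, rfl⟩
  have hE0 : 0 ≤ E := by
    rw [hE]
    positivity
  have hX0 : (0 : ℝ) < X := by exact_mod_cast hX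
  have hbase : ∀ t : ℝ, 0 < t → t ≤ X →
      ‖SC (fun m : ℕ => (dch ψ * ξ) (m : ZMod d)) (fun m : ℕ => ξ (m : ZMod d)) X ∅ t‖ ≤ E := by
    intro t ht htX
    refine (SC_base _ _ hf1 hg1 (BB d) (fun N => polya d _ h3 N) (fun N => polya d _ h1 N) X t ht
      htX).trans ?_
    rw [hE]
    exact mul_le_mul_of_nonneg_left (Real.sqrt_le_sqrt htX) (by positivity)
  have hkey : ∀ T ∈ TT z K,
      ‖((l T : ℝ) : ℂ) * SC (fun m : ℕ => (dch ψ * ξ) (m : ZMod d)) (fun m : ℕ => ξ (m : ZMod d)) X T X‖ ≤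
        (z : ℝ) ^ (2 * K) * E := by
    intro T hT
    obtain ⟨hT1, hT2⟩ := Finset.mem_filter.1 hT
    rw [Finset.mem_powerset] at hT1
    have h4 := SC_bound _ _ hf hg hf1 hg1 X E hbase T
      (fun q hq => (Finset.mem_filter.1 (hT1 hq)).2) X hX0 le_rfl
    have h5 : (3 : ℝ) ^ T.card ≤ (z : ℝ) ^ (2 * K) := by
      refine (RI_pow T hT1).trans ?_
      rw [mul_comm 2 K, pow_mul]
      refine pow_le_pow_left₀ (Nat.cast_nonneg _) ?_ 2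
      exact_mod_cast hT2
    rw [norm_mul, Complex.norm_real]
    have h6 : ‖l T‖ ≤ 1 := hF.l_abs T
    refine (mul_le_mul h6 h4 (norm_nonneg _) zero_le_one).trans ?_
    rw [one_mul]
    exact mul_le_mul_of_nonneg_right h5 hE0
  rw [← hE, EX_B4_sum]
  have h7 : ∑ T ∈ (PP z).powerset, ((l T : ℝ) : ℂ) *
      SC (fun m : ℕ => (dch ψ * ξ) (m : ZMod d)) (fun m : ℕ => ξ (m : ZMod d)) X T X =
      ∑ T ∈ TT z K, ((l T : ℝ) : ℂ) *
      SC (fun m : ℕ => (dch ψ * ξ) (m : ZMod d)) (fun m : ℕ => ξ (m : ZMod d)) X T X := by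
    refine (Finset.sum_subset (Finset.filter_subset _ _) fun T hT hT' => ?_).symm
    have h8 : l T = 0 := by
      by_contra h9
      exact hT' (Finset.mem_filter.2 ⟨hT, hF.l_sup T (Finset.mem_powerset.1 hT) h9⟩)
    rw [h8, Complex.ofReal_zero, zero_mul]
  rw [h7]
  refine (norm_sum_le_of_le _ hkey).trans ?_
  rw [Finset.sum_const, nsmul_eq_mul]
  have h10 := card_TT z K
  calc ((TT z K).card : ℝ) * ((z : ℝ) ^ (2 * K) * E) ≤ (z : ℝ) ^ K * ((z : ℝ) ^ (2 * K) * E) :=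
        mul_le_mul_of_nonneg_right h10 (by positivity)
    _ = (z : ℝ) ^ (3 * K) * E := by
        rw [← mul_assoc, ← pow_add]
        congr 2
        omega

end Pool.Agent.Lib.MP_42948a_nt.EX
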