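import Pool.Agent.Lib.MP_42948a_nt.EX.C1
import Pool.Agent.Lib.MP_42948a_nt.TQ.B2
import Pool.Agent.Lib.MP_42948a_nt.OM.G1

/-!
# Mean squares over all characters (job D1)

`AR R a ξ = ∑_{c} r c * ev ξ c` with `r c = ∑_{n ∈ R, n ≡ c} a n` (the `n` not coprime to `d` have `ξ n = 0`; for `n` coprime to `d`, `ξ (n : ZMod d) = ev ξ (ucl d n)`, `ucl_val`), so by `parseval_gen` (TQ/B2)
`∑_ξ ‖AR R a ξ‖^2 = φ ∑_c |r c|^2`. If `|r c| ≤ ρ` for all `c` this is `≤ φ^2 ρ^2` (`AR_sq`).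
`L2N`: `|r c| ≤ D1 #{n ≤ X : n ≡ c} ≤ D1 (X / d + 1) ≤ 2 D1 X / d` (`class_count`, `d ≤ X`), and `φ ≤ d`.
`L2B`: `r c = ∑_{m ∈ B, m ≡ c} 1/m ≤ (1 + 3 log d) / d` by `G1_sum_inv` (OM/G1), and `φ ≤ d`.
-/

namespace Pool.Agent.Lib.MP_42948a_nt.EX

open Finset Pool.Agent.Lib.MP_42948a_nt.OA Pool.Agent.Lib.MP_42948a_nt.AC Pool.Agent.Lib.MP_42948a_nt.TQ
  Pool.Agent.Lib.MP_42948a_nt.PS

private theorem EX_D1_AR (d : ℕ) [NeZero d] (R : Finset ℕ) (a : ℕ → ℝ)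
    (ξ : DirichletCharacter ℂ d) : AR R a ξ = ∑ c : (ZMod d)ˣ,
      ((∑ n ∈ R.filter (fun n : ℕ => (n : ZMod d) = (c : ZMod d)), a n : ℝ) : ℂ) * ev ξ c := by
  unfold AR
  have h1 : ∀ c : (ZMod d)ˣ,
      ((∑ n ∈ R.filter (fun n : ℕ => (n : ZMod d) = (c : ZMod d)), a n : ℝ) : ℂ) * ev ξ c =
      ∑ n ∈ R, if (n : ZMod d) = (c : ZMod d) then (a n : ℂ) * ξ (n : ZMod d) else 0 := by
    intro c
    rw [Complex.ofReal_sum, Finset.sum_mul, Finset.sum_filter]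
    refine Finset.sum_congr rfl fun n _ => ?_
    split_ifs with h
    · rw [ev, h]
    · rfl
  rw [Finset.sum_congr rfl fun c _ => h1 c, Finset.sum_comm]
  refine Finset.sum_congr rfl fun n _ => ?_
  by_cases hn : IsUnit (n : ZMod d)
  · obtain ⟨u, hu⟩ := hn
    rw [Finset.sum_eq_single u]
    · rw [if_pos hu.symm]
    · intro c _ hc
      rw [if_neg]
      intro h
      exact hc (Units.ext (by rw [← h, hu]))
    · intro h
      exact absurd (Finset.mem_univ u) h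
  · rw [MulChar.map_nonunit _ hn, mul_zero]
    symm
    refine Finset.sum_eq_zero fun c _ => ?_
    split_ifs <;> rfl

private theorem EX_D1_phi (d : ℕ) [NeZero d] : (Fintype.card (ZMod d)ˣ : ℝ) ≤ d := by
  have h : Fintype.card (ZMod d)ˣ ≤ d := by
    rw [ZMod.card_units_eq_totient]
    exact Nat.totient_le d
  exact_mod_cast h

theorem AR_sq (d : ℕ) [NeZero d] (R : Finset ℕ) (a : ℕ → ℝ) (ρ : ℝ)
    (hρ : ∀ c : (ZMod d)ˣ, |∑ n ∈ R.filter (fun n : ℕ => (n : ZMod d) = (c : ZMod d)), a n| ≤ ρ) :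
    ∑ ξ : DirichletCharacter ℂ d, ‖AR R a ξ‖ ^ 2 ≤ ((Fintype.card (ZMod d)ˣ : ℝ) * ρ) ^ 2 := by
  have h1 : ∑ ξ : DirichletCharacter ℂ d, ‖AR R a ξ‖ ^ 2 =
      (Fintype.card (ZMod d)ˣ : ℝ) * ∑ c : (ZMod d)ˣ,
        ‖((∑ n ∈ R.filter (fun n : ℕ => (n : ZMod d) = (c : ZMod d)), a n : ℝ) : ℂ)‖ ^ 2 := by
    rw [← parseval_gen]
    exact Finset.sum_congr rfl fun ξ _ => by rw [EX_D1_AR]
  have h2 : ∑ c : (ZMod d)ˣ,
      ‖((∑ n ∈ R.filter (fun n : ℕ => (n : ZMod d) = (c : ZMod d)), a n : ℝ) : ℂ)‖ ^ 2 ≤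
      (Fintype.card (ZMod d)ˣ : ℝ) * ρ ^ 2 := by
    refine (Finset.sum_le_card_nsmul _ _ (ρ ^ 2) fun c _ => ?_).trans (le_of_eq ?_)
    · rw [Complex.norm_real, Real.norm_eq_abs]
      exact pow_le_pow_left₀ (abs_nonneg _) (hρ c) 2
    · rw [nsmul_eq_mul, Finset.card_univ]
  rw [h1]
  refine (mul_le_mul_of_nonneg_left h2 (Nat.cast_nonneg _)).trans (le_of_eq ?_)
  ring

theorem L2N (d : ℕ) [NeZero d] (X : ℕ) (hX : d ≤ X) (a : ℕ → ℝ) (D1 : ℝ) (hD : 0 ≤ D1)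
    (ha : ∀ n ∈ Icc 1 X, |a n| ≤ D1) :
    ∑ ξ : DirichletCharacter ℂ d, ‖AR (Icc 1 X) a ξ‖ ^ 2 ≤ (2 * X * D1) ^ 2 := by
  have hd0 : (0 : ℝ) < d := by exact_mod_cast Nat.pos_of_ne_zero (NeZero.ne d)
  have hXd : (1 : ℝ) ≤ (X : ℝ) / d := by
    rw [le_div_iff₀ hd0, one_mul]
    exact_mod_cast hX
  have hρ : ∀ c : (ZMod d)ˣ,
      |∑ n ∈ (Icc 1 X).filter (fun n : ℕ => (n : ZMod d) = (c : ZMod d)), a n| ≤
      2 * ((X : ℝ) / d) * D1 := by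
    intro c
    have h1 := class_count d c X
    have h2 : |∑ n ∈ (Icc 1 X).filter (fun n : ℕ => (n : ZMod d) = (c : ZMod d)), a n| ≤
        (((Icc 1 X).filter (fun n : ℕ => (n : ZMod d) = (c : ZMod d))).card : ℝ) * D1 := by
      refine (Finset.abs_sum_le_sum_abs _ _).trans ?_
      rw [← nsmul_eq_mul]
      exact Finset.sum_le_card_nsmul _ _ _ fun n hn => ha n (Finset.mem_filter.1 hn).1
    refine h2.trans (mul_le_mul_of_nonneg_right ?_ hD)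
    have h3 := (abs_le.1 h1).2
    linarith
  refine (AR_sq d (Icc 1 X) a _ hρ).trans ?_
  have h4 : (0 : ℝ) ≤ 2 * ((X : ℝ) / d) * D1 := by positivity
  have h5 : (Fintype.card (ZMod d)ˣ : ℝ) * (2 * ((X : ℝ) / d) * D1) ≤ 2 * X * D1 := by
    refine (mul_le_mul_of_nonneg_right (EX_D1_phi d) h4).trans (le_of_eq ?_)
    field_simp
  exact pow_le_pow_left₀ (mul_nonneg (Nat.cast_nonneg _) h4) h5 2

theorem L2B (d : ℕ) [NeZero d] (hd : 2 ≤ d) (B : Finset ℕ) (hB : ∀ m ∈ B, d ≤ m ∧ m ≤ d ^ 4) :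
    ∑ ξ : DirichletCharacter ℂ d, ‖AR B rc ξ‖ ^ 2 ≤ (1 + 3 * Real.log d) ^ 2 := by
  have hd0 : (0 : ℝ) < d := by exact_mod_cast Nat.pos_of_ne_zero (NeZero.ne d)
  have hlog : 0 ≤ Real.log d := Real.log_nonneg (by exact_mod_cast (by omega : 1 ≤ d))
  have hρ : ∀ c : (ZMod d)ˣ,
      |∑ n ∈ B.filter (fun n : ℕ => (n : ZMod d) = (c : ZMod d)), rc n| ≤
      (1 + 3 * Real.log d) / d := by
    intro c
    rw [abs_of_nonneg (Finset.sum_nonneg fun n _ => by unfold rc; positivity)]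
    refine Pool.Agent.Lib.MP_42948a_nt.OM.G1_sum_inv d (by omega) (c : ZMod d) _ fun m hm => ?_
    obtain ⟨hm1, hm2⟩ := Finset.mem_filter.1 hm
    exact ⟨(hB m hm1).1, (hB m hm1).2, hm2⟩
  refine (AR_sq d B rc _ hρ).trans ?_
  have h4 : (0 : ℝ) ≤ (1 + 3 * Real.log d) / d := by positivity
  have h5 : (Fintype.card (ZMod d)ˣ : ℝ) * ((1 + 3 * Real.log d) / d) ≤ 1 + 3 * Real.log d := by
    refine (mul_le_mul_of_nonneg_right (EX_D1_phi d) h4).trans (le_of_eq ?_)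
    field_simp
  exact pow_le_pow_left₀ (mul_nonneg (Nat.cast_nonneg _) h4) h5 2

end Pool.Agent.Lib.MP_42948a_nt.EX
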