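import Pool.Agent.Lib.MP_42948a_nt.EX.D3

/-!
# Lower bound for the number of solutions (job D4)

`tri_fourier`, take real parts. The sum over all characters = term `ξ = 1` + term `ξ = D` + the sum over `ξ ∉ {1, D}` (`D ≠ 1`). The first term is `N1 * WB * WT` (`ev 1 c = 1`), the second `N1 * XB * XT * conj (ev D c) = N1 * (XB * XT) ≥ 0`,
the third has norm at most the bound `rest_le`.
-/

namespace Pool.Agent.Lib.MP_42948a_nt.EX

open Finset Pool.Agent.Lib.MP_42948a_nt.OA Pool.Agent.Lib.MP_42948a_nt.AC Pool.Agent.Lib.MP_42948a_nt.TQ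
  Pool.Agent.Lib.MP_42948a_nt.PS

theorem tri_lower (d : ℕ) [NeZero d] (N B T : Finset ℕ) (a : ℕ → ℝ) (c : (ZMod d)ˣ) (D : DirichletCharacter ℂ d)
    (hD1 : D ≠ 1) (hDc : ev D c = 1)
    (WB WT e n2 b2 v N1 XB XT : ℝ) (hWB0 : 0 ≤ WB) (hWT0 : 0 ≤ WT) (he : 0 ≤ e) (hn2 : 0 ≤ n2) (hb2 : 0 ≤ b2) (hv : 0 ≤ v)
    (hWB : ∀ ξ : DirichletCharacter ℂ d, ‖AR B rc ξ‖ ≤ WB) (hWT : ∀ ξ : DirichletCharacter ℂ d, ‖AR T rc ξ‖ ≤ WT)
    (hinf : ∀ ξ : DirichletCharacter ℂ d, ξ ≠ 1 → ξ ≠ D → ‖AR N a ξ‖ ≤ e)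
    (hN2 : ∑ ξ : DirichletCharacter ℂ d, ‖AR N a ξ‖ ^ 2 ≤ n2 ^ 2)
    (hB2 : ∑ ξ : DirichletCharacter ℂ d, ‖AR B rc ξ‖ ^ 2 ≤ b2 ^ 2)
    (S : Finset (DirichletCharacter ℂ d)) (hS : ∀ ξ, ξ ∉ S → ‖AR T rc ξ‖ ≤ v * WT)
    (hN1 : AR N a (1 : DirichletCharacter ℂ d) = (N1 : ℂ)) (hND : AR N a D = (N1 : ℂ)) (hN10 : 0 ≤ N1)
    (hB1 : AR B rc (1 : DirichletCharacter ℂ d) = (WB : ℂ)) (hT1 : AR T rc (1 : DirichletCharacter ℂ d) = (WT : ℂ))
    (hBD : AR B rc D = (XB : ℂ)) (hTD : AR T rc D = (XT : ℂ)) (hX : 0 ≤ XB * XT) :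
    N1 * WB * WT - ((S.card : ℝ) * (e * WB * WT) + v * WT * (n2 * b2)) ≤
      (Fintype.card (ZMod d)ˣ : ℝ) * tri d N B T a c := by
  classical
  have h := tri_fourier d N B T a c
  have hR := rest_le d N B T a c D WB WT e n2 b2 v hWB0 hWT0 he hn2 hb2 hv hWB hWT hinf hN2 hB2 S hS
  have h1 : AR N a (1 : DirichletCharacter ℂ d) * AR B rc (1 : DirichletCharacter ℂ d) *
      AR T rc (1 : DirichletCharacter ℂ d) * (starRingEnd ℂ) (ev (1 : DirichletCharacter ℂ d) c) =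
      ((N1 * WB * WT : ℝ) : ℂ) := by
    have h2 : ev (1 : DirichletCharacter ℂ d) c = 1 := by
      unfold ev
      exact MulChar.one_apply_coe c
    rw [h2, hN1, hB1, hT1, map_one]
    push_cast
    ring
  have h2 : AR N a D * AR B rc D * AR T rc D * (starRingEnd ℂ) (ev D c) =
      ((N1 * (XB * XT) : ℝ) : ℂ) := by
    rw [hDc, hND, hBD, hTD, map_one]
    push_cast
    ring
  have h3 : (univ : Finset (DirichletCharacter ℂ d)).filter (fun ξ => ¬ (ξ ≠ 1 ∧ ξ ≠ D)) = {1, D} := by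
    ext ξ
    rw [mem_filter, mem_insert, mem_singleton]
    constructor
    · rintro ⟨_, h4⟩
      by_contra h5
      push Not at h5
      exact h4 h5
    · rintro (h4 | h4)
      · exact ⟨mem_univ _, fun h5 => h5.1 h4⟩
      · exact ⟨mem_univ _, fun h5 => h5.2 h4⟩
  rw [← sum_filter_add_sum_filter_not (univ : Finset (DirichletCharacter ℂ d))
    (fun ξ => ξ ≠ 1 ∧ ξ ≠ D), h3, sum_pair (Ne.symm hD1), h1, h2] at h
  have h4 := congrArg Complex.re h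
  have h5 := (abs_le.1 ((Complex.abs_re_le_norm _).trans hR)).1
  have h6 : ((Fintype.card (ZMod d)ˣ : ℂ) * ((tri d N B T a c : ℝ) : ℂ)).re =
      (Fintype.card (ZMod d)ˣ : ℝ) * tri d N B T a c := by
    rw [← Complex.ofReal_natCast, ← Complex.ofReal_mul, Complex.ofReal_re]
  rw [h6, Complex.add_re, Complex.add_re, Complex.ofReal_re, Complex.ofReal_re] at h4
  have h7 := mul_nonneg hN10 hX
  linarith

end Pool.Agent.Lib.MP_42948a_nt.EX
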