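import Pool.Agent.Lib.MP_42948a_nt.EX.A3
import Pool.Agent.Lib.MP_42948a_nt.AC.RCh

/-!
# The two main characters (job D5)

* `AR_one`: `(1 : DirichletCharacter) n = 1` if `n` is coprime to `d`, else `0`.
* `AR_dch`: for `n ∈ Icc 1 X`: `aL .. n * dch ψ n = aL .. n * χ n` (`dch_nat`), `χ = chi ψ`; it is `0` if `n` is not coprime to `d`, and `aL .. n` otherwise (`χ n * rr χ n = rr χ n`, `rr_coprime`; `chi_real`).
* `AR_norm_le`: triangle inequality, `‖ξ n‖ ≤ 1`, `rc ≥ 0`.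
* `AR_rc_one`: for `U` consisting of numbers coprime to `d`.
* `AR_rc_dch`: for `U` consisting of numbers coprime to `d` (`chi = 1` or `-1` there) `∑ rc m * χ m = -∑ rc m + 2 ∑_{χ m = 1} rc m`.
-/

namespace Pool.Agent.Lib.MP_42948a_nt.EX

open Finset Pool.Agent.Lib.MP_42948a_nt.OA Pool.Agent.Lib.MP_42948a_nt.AC Pool.Agent.Lib.MP_42948a_nt.TQ
  Pool.Agent.Lib.MP_42948a_nt.PS

theorem AR_one (d : ℕ) [NeZero d] (N : Finset ℕ) (a : ℕ → ℝ) :
    AR N a (1 : DirichletCharacter ℂ d) = ((∑ n ∈ N.filter (fun n : ℕ => n.Coprime d), a n : ℝ) : ℂ) := by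
  unfold AR
  rw [Finset.sum_filter, Complex.ofReal_sum]
  refine Finset.sum_congr rfl fun n _ => ?_
  by_cases h : n.Coprime d
  · have hu : IsUnit (n : ZMod d) := (ZMod.isUnit_iff_coprime n d).2 h
    obtain ⟨u, hu⟩ := hu
    rw [if_pos h, ← hu, MulChar.one_apply_coe, mul_one]
  · have hu : ¬ IsUnit (n : ZMod d) := fun h' => h ((ZMod.isUnit_iff_coprime n d).1 h')
    rw [if_neg h, MulChar.map_nonunit _ hu, mul_zero, Complex.ofReal_zero]

theorem AR_dch (d : ℕ) [NeZero d] (ψ : (ZMod d)ˣ →* ℤˣ) (z X : ℕ) (l : Finset ℕ → ℝ) :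
    AR (Icc 1 X) (aL (chi ψ) z X l) (dch ψ) =
      ((∑ n ∈ (Icc 1 X).filter (fun n : ℕ => n.Coprime d), aL (chi ψ) z X l n : ℝ) : ℂ) := by
  unfold AR
  rw [Finset.sum_filter, Complex.ofReal_sum]
  refine Finset.sum_congr rfl fun n hn => ?_
  have hn0 : 0 < n := (Finset.mem_Icc.1 hn).1
  rw [dch_nat]
  by_cases h : n.Coprime d
  · rw [if_pos h, ← Complex.ofReal_mul]
    have h1 := rr_coprime (chi_real d ψ) h hn0
    refine congrArg _ ?_
    unfold aL
    have e : rho z l n * rr (chi ψ) n * wt X n * chi ψ n =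
        rho z l n * (chi ψ n * rr (chi ψ) n) * wt X n := by ring
    rw [e, h1]
  · have hu : ¬ IsUnit (n : ZMod d) := fun h' => h ((ZMod.isUnit_iff_coprime n d).1 h')
    rw [if_neg h, EJ_zero ψ n hu, Complex.ofReal_zero, mul_zero]

theorem AR_norm_le (d : ℕ) [NeZero d] (U : Finset ℕ) (ξ : DirichletCharacter ℂ d) :
    ‖AR U rc ξ‖ ≤ ∑ m ∈ U, rc m := by
  unfold AR
  refine (norm_sum_le _ _).trans (Finset.sum_le_sum fun m _ => ?_)
  have h0 : 0 ≤ rc m := by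
    unfold rc
    exact div_nonneg zero_le_one (Nat.cast_nonneg m)
  rw [norm_mul, Complex.norm_real, Real.norm_eq_abs, abs_of_nonneg h0]
  exact mul_le_of_le_one_right h0 (DirichletCharacter.norm_le_one ξ _)

theorem AR_rc_one (d : ℕ) [NeZero d] (U : Finset ℕ) (hU : ∀ m ∈ U, m.Coprime d) :
    AR U rc (1 : DirichletCharacter ℂ d) = ((∑ m ∈ U, rc m : ℝ) : ℂ) := by
  rw [AR_one, Finset.filter_true_of_mem hU]

theorem AR_rc_dch (d : ℕ) [NeZero d] (ψ : (ZMod d)ˣ →* ℤˣ) (U : Finset ℕ) (hU : ∀ m ∈ U, m.Coprime d) :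
    AR U rc (dch ψ) = ((-(∑ m ∈ U, rc m) + 2 * ∑ m ∈ U.filter (fun m : ℕ => chi ψ m = 1), rc m : ℝ) : ℂ) := by
  have hval : ∀ m ∈ U, chi ψ m = 1 ∨ chi ψ m = -1 := by
    intro m hm
    have h1 := chi_real d ψ
    rcases h1.val m with h | h | h
    · exact absurd h (h1.ne m (hU m hm))
    · exact Or.inl h
    · exact Or.inr h
  unfold AR
  rw [Finset.sum_filter, ← Finset.sum_neg_distrib, Finset.mul_sum, ← Finset.sum_add_distrib,
    Complex.ofReal_sum]
  refine Finset.sum_congr rfl fun m hm => ?_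
  rw [dch_nat, ← Complex.ofReal_mul]
  refine congrArg _ ?_
  rcases hval m hm with h | h
  · rw [h, if_pos rfl]
    ring
  · rw [h, if_neg (by norm_num)]
    ring

end Pool.Agent.Lib.MP_42948a_nt.EX
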