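import Pool.Agent.Lib.MP_42948a_nt.EX.A2
import Pool.Agent.Lib.MP_42948a_nt.EX.A4
import Pool.Agent.Lib.MP_42948a_nt.EX.B4
import Pool.Agent.Lib.MP_42948a_nt.EX.D1
import Pool.Agent.Lib.MP_42948a_nt.EX.D4
import Pool.Agent.Lib.MP_42948a_nt.EX.D5
import Pool.Agent.Lib.MP_42948a_nt.AC.RCh

/-!
# Lower bound, one modulus (job H1)

`χ = chi ψ`, `D = dch ψ`, `N = Icc 1 X`, `a = aL χ z X l`, `N1 = ∑_{n ∈ N, (n,d)=1} a n`, `WB = ∑_B rc`, `WT = ∑_T rc`. `low_main` (`τ = 1/10`) and `low_coprime` give `9/10 R - z^(3K) E - Cr X τ(d)/z ≤ N1`, `R = X/2 * LL χ X * VG χ z`: this is the first claim.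
Second claim: `tri_lower` with `e = z^(3K) (3 BB d √X)` (`other_char`), `n2 = 2 X D1` (`L2N`), `b2 = 1 + 3 log d` (`L2B`), `AR_one`, `AR_dch`, `AR_norm_le`, `AR_rc_one`, `AR_rc_dch` (`XB = -WB + 2 ∑_{χ = 1}`, `XT` likewise, both `≤ 0` by `hXB`, `hXT`);
`ev D c = 1` since `ψ c = 1` (`dch_coe`). Finally `tri .. (aL ..) c ≤ tri .. (aR ..) c` termwise (`aL_le_aR`, the other factors are `≥ 0`).
-/

namespace Pool.Agent.Lib.MP_42948a_nt.EX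

open Finset Pool.Agent.Lib.MP_42948a_nt.OA Pool.Agent.Lib.MP_42948a_nt.AC Pool.Agent.Lib.MP_42948a_nt.TQ
  Pool.Agent.Lib.MP_42948a_nt.PS

theorem lower_one {K z : ℕ} {u l : Finset ℕ → ℝ} (hF : Fund (1 / 10) K z u l) (hz : 2 ≤ z) (d : ℕ) [NeZero d]
    (hd : 2 ≤ d) (ψ : (ZMod d)ˣ →* ℤˣ) (hψ : ψ ≠ 1) (X Cr : ℕ) (hX : d ≤ X)
    (hCr : ∀ n : ℕ, Rough z n → n ≤ X → n.divisors.card ≤ Cr) (E : ℝ) (hE : 0 ≤ E) (hLL : 0 ≤ LL (chi ψ) X)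
    (hbase : ∀ t : ℝ, 0 < t → t ≤ X → |SwT (chi ψ) X ∅ t - t / 2 * LL (chi ψ) X| ≤ E)
    (D1 : ℝ) (hD1 : 0 ≤ D1) (ha : ∀ n ∈ Icc 1 X, |aL (chi ψ) z X l n| ≤ D1)
    (B T : Finset ℕ) (hB : ∀ m ∈ B, d ≤ m ∧ m ≤ d ^ 4 ∧ m.Coprime d) (hT : ∀ m ∈ T, m.Coprime d)
    (hXB : 2 * ∑ m ∈ B.filter (fun m : ℕ => chi ψ m = 1), rc m ≤ ∑ m ∈ B, rc m)
    (hXT : 2 * ∑ m ∈ T.filter (fun m : ℕ => chi ψ m = 1), rc m ≤ ∑ m ∈ T, rc m)
    (v : ℝ) (hv : 0 ≤ v) (S : Finset (DirichletCharacter ℂ d))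
    (hS : ∀ ξ, ξ ∉ S → ‖AR T rc ξ‖ ≤ v * ∑ m ∈ T, rc m) (c : (ZMod d)ˣ) (hc : ψ c = 1) :
    ∃ N1 : ℝ, 9 / 10 * ((X : ℝ) / 2 * LL (chi ψ) X * VG (chi ψ) z) -
        ((z : ℝ) ^ (3 * K) * E + (Cr : ℝ) * X * (d.divisors.card : ℝ) / z) ≤ N1 ∧
      (0 ≤ N1 → N1 * (∑ m ∈ B, rc m) * (∑ m ∈ T, rc m) -
          ((S.card : ℝ) * ((z : ℝ) ^ (3 * K) * (3 * BB d * √(X : ℝ)) * (∑ m ∈ B, rc m) * (∑ m ∈ T, rc m)) +
            v * (∑ m ∈ T, rc m) * ((2 * X * D1) * (1 + 3 * Real.log d))) ≤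
        (Fintype.card (ZMod d)ˣ : ℝ) * tri d (Icc 1 X) B T (aR (chi ψ) z X) c) := by
  classical
  set χ := chi ψ with hχdef
  have hχ := chi_real d ψ
  have hX1 : 1 ≤ X := by omega
  have hz1 : 1 ≤ z := by omega
  set WB := ∑ m ∈ B, rc m with hWB
  set WT := ∑ m ∈ T, rc m with hWT
  have hrc : ∀ m : ℕ, 0 ≤ rc m := fun m => by unfold rc; positivity
  have hWB0 : 0 ≤ WB := Finset.sum_nonneg fun m _ => hrc m
  have hWT0 : 0 ≤ WT := Finset.sum_nonneg fun m _ => hrc m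
  refine ⟨∑ n ∈ (Icc 1 X).filter (fun n : ℕ => n.Coprime d), aL χ z X l n, ?_, ?_⟩
  · have h1 := low_main hF X hX1 χ hχ.mul hχ.one hχ.val E hE hLL hbase
    have h2 := low_coprime hF d (by omega) hz1 hχ X Cr hX1 hCr
    have h3 : (1 : ℝ) - 1 / 10 = 9 / 10 := by norm_num
    rw [h3] at h1
    linarith
  · intro hN10
    set N1 := ∑ n ∈ (Icc 1 X).filter (fun n : ℕ => n.Coprime d), aL χ z X l n with hN1
    have hD1' := dch_ne ψ hψ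
    have hDc : ev (dch ψ) c = 1 := by
      unfold ev
      rw [dch_coe, hc]
      norm_num
    have hlog : 0 ≤ Real.log d := Real.log_natCast_nonneg d
    have hBB : 0 ≤ BB d := by
      unfold BB
      positivity
    have key := tri_lower d (Icc 1 X) B T (aL χ z X l) c (dch ψ) hD1' hDc WB WT
      ((z : ℝ) ^ (3 * K) * (3 * BB d * √(X : ℝ))) (2 * X * D1) (1 + 3 * Real.log d) v N1
      (-WB + 2 * ∑ m ∈ B.filter (fun m : ℕ => chi ψ m = 1), rc m)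
      (-WT + 2 * ∑ m ∈ T.filter (fun m : ℕ => chi ψ m = 1), rc m)
      hWB0 hWT0 (by positivity) (by positivity) (by positivity) hv
      (fun ξ => AR_norm_le d B ξ) (fun ξ => AR_norm_le d T ξ)
      (fun ξ h1 h2 => other_char hF d X hX1 ψ ξ h1 h2)
      (L2N d X hX (aL χ z X l) D1 hD1 ha)
      (L2B d hd B (fun m hm => ⟨(hB m hm).1, (hB m hm).2.1⟩)) S hS
      (AR_one d (Icc 1 X) (aL χ z X l)) (AR_dch d ψ z X l) hN10
      (AR_rc_one d B (fun m hm => (hB m hm).2.2)) (AR_rc_one d T hT)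
      (AR_rc_dch d ψ B (fun m hm => (hB m hm).2.2)) (AR_rc_dch d ψ T hT)
      (by
        apply mul_nonneg_of_nonpos_of_nonpos
        · linarith
        · linarith)
    have hmono : tri d (Icc 1 X) B T (aL χ z X l) c ≤ tri d (Icc 1 X) B T (aR χ z X) c := by
      unfold tri
      refine Finset.sum_le_sum fun n hn => Finset.sum_le_sum fun m _ => Finset.sum_le_sum fun t _ => ?_
      have hn0 : 0 < n := by
        have := (mem_Icc.1 hn).1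
        omega
      have h1 := aL_le_aR hF hχ.mul hχ.one hχ.val X hn0
      have h2 : (0 : ℝ) ≤ if ((n * m * t : ℕ) : ZMod d) = (c : ZMod d) then 1 else 0 := by
        split_ifs <;> norm_num
      exact mul_le_mul_of_nonneg_right (mul_le_mul_of_nonneg_right h1 (mul_nonneg (hrc m) (hrc t))) h2
    have hφ : (0 : ℝ) ≤ (Fintype.card (ZMod d)ˣ : ℝ) := Nat.cast_nonneg _
    have h4 := mul_le_mul_of_nonneg_left hmono hφ
    refine le_trans ?_ h4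
    refine le_trans (le_of_eq ?_) key
    ring

end Pool.Agent.Lib.MP_42948a_nt.EX
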