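import Pool.Agent.Lib.MP_42948a_nt.EX.E1

/-!
# Upper bound for the number of solutions if no prime `n` is a solution (job E2)

`tri = ∑_{n ∈ Icc 1 X} aR χ z X n * s n`, `s n = ∑_{m ∈ B} ∑_{t ∈ T} rc m * rc t * [n m t ≡ c]`, `0 ≤ s n`. If `n` is not coprime to `d` then `s n = 0` (`n m t ≡ c` is a unit). If `n` is prime: if `z < n` then `s n = 0` by `hno`; if `n ≤ z` then `n` is
not rough and `aR = 0`. `n = 1`: `aR χ z X 1 ≤ rr χ 1 * 1 = 1` (`rr χ 1 = χ 1 = 1`), `s 1 ≤ S`. All the others: `s n ≤ S`, `aR ≥ 0`, `comp_sum`.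
-/

namespace Pool.Agent.Lib.MP_42948a_nt.EX

open Finset Pool.Agent.Lib.MP_42948a_nt.OA Pool.Agent.Lib.MP_42948a_nt.AC Pool.Agent.Lib.MP_42948a_nt.TQ
  Pool.Agent.Lib.MP_42948a_nt.PS

private theorem EX_E2_rc_nonneg (m : ℕ) : 0 ≤ rc m := by
  unfold rc
  positivity

private theorem EX_E2_s_nonneg (d : ℕ) (B T : Finset ℕ) (c : (ZMod d)ˣ) (n : ℕ) :
    0 ≤ ∑ m ∈ B, ∑ t ∈ T, rc m * rc t *
      (if ((n * m * t : ℕ) : ZMod d) = (c : ZMod d) then (1 : ℝ) else 0) := by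
  refine Finset.sum_nonneg fun m _ => Finset.sum_nonneg fun t _ => ?_
  refine mul_nonneg (mul_nonneg (EX_E2_rc_nonneg m) (EX_E2_rc_nonneg t)) ?_
  split_ifs
  · exact zero_le_one
  · exact le_rfl

private theorem EX_E2_coprime (d : ℕ) (c : (ZMod d)ˣ) {n m t : ℕ}
    (h : ((n * m * t : ℕ) : ZMod d) = (c : ZMod d)) : n.Coprime d := by
  have h1 : IsUnit ((n * m * t : ℕ) : ZMod d) := by
    rw [h]
    exact c.isUnit
  rw [ZMod.isUnit_iff_coprime] at h1
  exact Nat.Coprime.coprime_dvd_left (Dvd.intro _ (mul_assoc n m t).symm) h1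

open Classical in
private theorem EX_E2_aR_nonneg {d : ℕ} {χ : ℕ → ℝ} (hχ : RealChar d χ) (z X n : ℕ) :
    0 ≤ aR χ z X n := by
  unfold aR
  refine mul_nonneg ?_ (wt_nonneg _ _)
  split_ifs
  · exact rr_nonneg χ hχ.mul hχ.one hχ.val n
  · exact le_rfl

theorem tri_upper {τ : ℝ} {K z : ℕ} {u l : Finset ℕ → ℝ} (hF : Fund τ K z u l) (d : ℕ) [NeZero d] (hz : 1 ≤ z)
    {χ : ℕ → ℝ} (hχ : RealChar d χ) (X H Cr : ℕ) (hX : 1 ≤ X) (hH : X < (H + 1) ^ 2)
    (hCr : ∀ n : ℕ, Rough z n → n ≤ X → n.divisors.card ≤ Cr) (B T : Finset ℕ) (c : (ZMod d)ˣ) (S : ℝ) (hS0 : 0 ≤ S)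
    (hS : ∀ n : ℕ, n.Coprime d →
      ∑ m ∈ B, ∑ t ∈ T, rc m * rc t * (if ((n * m * t : ℕ) : ZMod d) = (c : ZMod d) then 1 else 0) ≤ S)
    (hno : ∀ q : ℕ, q.Prime → z < q → q ≤ X → ∀ m ∈ B, ∀ t ∈ T, ((q * m * t : ℕ) : ZMod d) ≠ (c : ZMod d)) :
    tri d (Icc 1 X) B T (aR χ z X) c ≤
      S * (1 + ((Cr : ℝ) * X / z + ∑ q ∈ (primesOff d z H).filter (fun q => χ q = 1),
        2 * ∑ m ∈ Icc 1 X, rho z u m * rr χ m * wt ((X : ℝ) / q) m)) := by
  classical
  have hX0 : (0 : ℝ) < (X : ℝ) := by exact_mod_cast hX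
  obtain ⟨s, hs⟩ : ∃ s : ℕ → ℝ, s = fun n => ∑ m ∈ B, ∑ t ∈ T, rc m * rc t *
      (if ((n * m * t : ℕ) : ZMod d) = (c : ZMod d) then (1 : ℝ) else 0) := ⟨_, rfl⟩
  have hs0 : ∀ n, 0 ≤ s n := by
    intro n
    rw [hs]
    exact EX_E2_s_nonneg d B T c n
  have hsS : ∀ n : ℕ, n.Coprime d → s n ≤ S := by
    intro n hn
    rw [hs]
    exact hS n hn
  have htri : tri d (Icc 1 X) B T (aR χ z X) c = ∑ n ∈ Icc 1 X, aR χ z X n * s n := by
    rw [hs]
    unfold tri
    refine Finset.sum_congr rfl fun n _ => ?_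
    rw [Finset.mul_sum]
    refine Finset.sum_congr rfl fun m _ => ?_
    rw [Finset.mul_sum]
    refine Finset.sum_congr rfl fun t _ => ?_
    rw [mul_assoc]
  have hterm : ∀ n ∈ Icc 1 X, aR χ z X n * s n ≤ (if n = 1 then S else 0) +
      (if (n.Coprime d ∧ n ≠ 1 ∧ ¬ n.Prime) then aR χ z X n * S else 0) := by
    intro n hn
    rw [mem_Icc] at hn
    have ha0 := EX_E2_aR_nonneg hχ z X n
    have hr1 : (0 : ℝ) ≤ (if n = 1 then S else 0) := by
      split_ifs
      · exact hS0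
      · exact le_rfl
    have hr2 : (0 : ℝ) ≤ (if (n.Coprime d ∧ n ≠ 1 ∧ ¬ n.Prime) then aR χ z X n * S else 0) := by
      split_ifs
      · exact mul_nonneg ha0 hS0
      · exact le_rfl
    by_cases hc : n.Coprime d
    · by_cases h1 : n = 1
      · have hle : aR χ z X n ≤ 1 := by
          rw [h1]
          unfold aR
          rw [if_pos (Rough.one z)]
          have h2 : rr χ 1 = 1 := by
            unfold rr
            rw [Nat.divisors_one, Finset.sum_singleton, hχ.one]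
          rw [h2, one_mul]
          exact wt_le_one hX0 1
        have h3 : aR χ z X n * s n ≤ S := by
          calc aR χ z X n * s n ≤ 1 * S :=
                mul_le_mul hle (hsS n hc) (hs0 n) zero_le_one
            _ = S := one_mul S
        rw [if_pos h1]
        linarith
      · by_cases hp : n.Prime
        · have h4 : aR χ z X n * s n = 0 := by
            by_cases hzn : z < n
            · have h5 : s n = 0 := by
                rw [hs]
                refine Finset.sum_eq_zero fun m hm => Finset.sum_eq_zero fun t ht => ?_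
                rw [if_neg (hno n hp hzn hn.2 m hm t ht), mul_zero]
              rw [h5, mul_zero]
            · have h5 : aR χ z X n = 0 := by
                unfold aR
                rw [if_neg, zero_mul]
                intro hr
                exact hzn (hr.2 n hp dvd_rfl)
              rw [h5, zero_mul]
          rw [h4]
          exact add_nonneg hr1 hr2
        · rw [if_pos (⟨hc, h1, hp⟩ : n.Coprime d ∧ n ≠ 1 ∧ ¬ n.Prime)]
          have h6 := mul_le_mul_of_nonneg_left (hsS n hc) ha0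
          linarith
    · have h5 : s n = 0 := by
        rw [hs]
        refine Finset.sum_eq_zero fun m _ => Finset.sum_eq_zero fun t _ => ?_
        rw [if_neg (fun h => hc (EX_E2_coprime d c h)), mul_zero]
      rw [h5, mul_zero]
      exact add_nonneg hr1 hr2
  have hcomp := comp_sum hF d hz hχ X H Cr hX hH hCr
  rw [htri]
  calc ∑ n ∈ Icc 1 X, aR χ z X n * s n
      ≤ ∑ n ∈ Icc 1 X, ((if n = 1 then S else 0) +
        (if (n.Coprime d ∧ n ≠ 1 ∧ ¬ n.Prime) then aR χ z X n * S else 0)) :=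
        Finset.sum_le_sum hterm
    _ = S + (∑ n ∈ (Icc 1 X).filter (fun n : ℕ => n.Coprime d ∧ n ≠ 1 ∧ ¬ n.Prime),
        aR χ z X n) * S := by
        rw [Finset.sum_add_distrib, Finset.sum_ite_eq', if_pos (mem_Icc.2 ⟨le_rfl, hX⟩),
          ← Finset.sum_filter, Finset.sum_mul]
    _ ≤ S + ((Cr : ℝ) * X / z + ∑ q ∈ (primesOff d z H).filter (fun q => χ q = 1),
        2 * ∑ m ∈ Icc 1 X, rho z u m * rr χ m * wt ((X : ℝ) / q) m) * S := by
        have h7 := mul_le_mul_of_nonneg_right hcomp hS0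
        linarith
    _ = _ := by ring

theorem pair_sup (d : ℕ) [NeZero d] (B T : Finset ℕ) (hT : ∀ t ∈ T, t.Coprime d) (c : (ZMod d)ˣ) (ρ : ℝ)
    (hρ : ∀ b : (ZMod d)ˣ, ∑ m ∈ B.filter (fun m : ℕ => (m : ZMod d) = (b : ZMod d)), rc m ≤ ρ) (n : ℕ)
    (hn : n.Coprime d) :
    ∑ m ∈ B, ∑ t ∈ T, rc m * rc t * (if ((n * m * t : ℕ) : ZMod d) = (c : ZMod d) then 1 else 0) ≤
      (∑ t ∈ T, rc t) * ρ := by
  classical
  rw [Finset.sum_comm, Finset.sum_mul]
  refine Finset.sum_le_sum fun t ht => ?_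
  obtain ⟨un, hun⟩ : ∃ un : (ZMod d)ˣ, (un : ZMod d) = (n : ZMod d) :=
    ⟨ZMod.unitOfCoprime n hn, ZMod.coe_unitOfCoprime n hn⟩
  obtain ⟨ut, hut⟩ : ∃ ut : (ZMod d)ˣ, (ut : ZMod d) = (t : ZMod d) :=
    ⟨ZMod.unitOfCoprime t (hT t ht), ZMod.coe_unitOfCoprime t (hT t ht)⟩
  have hiff : ∀ m : ℕ, ((n * m * t : ℕ) : ZMod d) = (c : ZMod d) ↔
      (m : ZMod d) = (((un * ut)⁻¹ * c : (ZMod d)ˣ) : ZMod d) := by
    intro m
    rw [Units.val_mul, Units.eq_inv_mul_iff_mul_eq, Units.val_mul, hun, hut]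
    push_cast
    rw [show (n : ZMod d) * m * t = n * t * m by ring]
  have h1 : ∑ m ∈ B, rc m * rc t *
      (if ((n * m * t : ℕ) : ZMod d) = (c : ZMod d) then (1 : ℝ) else 0) =
      rc t * ∑ m ∈ B.filter (fun m : ℕ => (m : ZMod d) =
        (((un * ut)⁻¹ * c : (ZMod d)ˣ) : ZMod d)), rc m := by
    rw [Finset.sum_filter, Finset.mul_sum]
    refine Finset.sum_congr rfl fun m _ => ?_
    by_cases h : ((n * m * t : ℕ) : ZMod d) = (c : ZMod d)
    · rw [if_pos h, if_pos ((hiff m).1 h)]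
      ring
    · rw [if_neg h, if_neg (fun h' => h ((hiff m).2 h'))]
      ring
  rw [h1]
  exact mul_le_mul_of_nonneg_left (hρ _) (EX_E2_rc_nonneg t)

end Pool.Agent.Lib.MP_42948a_nt.EX
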