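import Pool.Agent.Lib.MP_42948a_nt.EX.A2
import Pool.Agent.Lib.MP_42948a_nt.EX.E2
import Pool.Agent.Lib.MP_42948a_nt.AC.RCh

/-!
# Upper bound, one modulus (job H2)

`tri_upper` with `S = (∑_T rc) * ρ` (`pair_sup`), and for each `q ∈ Q = (primesOff d z H).filter (χ = 1)`, `1 ≤ q`: `up_main` (`τ = 1/10`) with `t = X / q` (`0 < t ≤ X`):
`2 ∑ ≤ 2 (11/10) (X / (2 q)) LL VG + 2 z^(3K) E = 2 (11/10) R * (1 / q) + 2 z^(3K) E`. Sum over `Q`: `∑_Q 1/q ≤ κ` and `#Q ≤ H` (`primesOff d z H ⊆ Icc 1 H`); `R ≥ 0` (`VG ≥ 0`: factors `1 - gg ≥ 1/4` by `RI_gg`).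
-/

namespace Pool.Agent.Lib.MP_42948a_nt.EX

open Finset Pool.Agent.Lib.MP_42948a_nt.OA Pool.Agent.Lib.MP_42948a_nt.AC Pool.Agent.Lib.MP_42948a_nt.TQ
  Pool.Agent.Lib.MP_42948a_nt.PS

theorem upper_one {K z : ℕ} {u l : Finset ℕ → ℝ} (hF : Fund (1 / 10) K z u l) (hz : 2 ≤ z) (d : ℕ) [NeZero d]
    (ψ : (ZMod d)ˣ →* ℤˣ) (X H Cr : ℕ) (hX : 1 ≤ X) (hH : X < (H + 1) ^ 2)
    (hCr : ∀ n : ℕ, Rough z n → n ≤ X → n.divisors.card ≤ Cr) (E : ℝ) (hE : 0 ≤ E) (hLL : 0 ≤ LL (chi ψ) X)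
    (hbase : ∀ t : ℝ, 0 < t → t ≤ X → |SwT (chi ψ) X ∅ t - t / 2 * LL (chi ψ) X| ≤ E)
    (B T : Finset ℕ) (hT : ∀ m ∈ T, m.Coprime d) (ρ κ : ℝ) (hρ0 : 0 ≤ ρ)
    (hρ : ∀ b : (ZMod d)ˣ, ∑ m ∈ B.filter (fun m : ℕ => (m : ZMod d) = (b : ZMod d)), rc m ≤ ρ)
    (hκ : ∑ q ∈ (primesOff d z H).filter (fun q => chi ψ q = 1), 1 / (q : ℝ) ≤ κ) (c : (ZMod d)ˣ)
    (hno : ∀ q : ℕ, q.Prime → z < q → q ≤ X → ∀ m ∈ B, ∀ t ∈ T, ((q * m * t : ℕ) : ZMod d) ≠ (c : ZMod d)) :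
    tri d (Icc 1 X) B T (aR (chi ψ) z X) c ≤
      (∑ m ∈ T, rc m) * ρ * (1 + ((Cr : ℝ) * X / z + 2 * ((H : ℝ) * ((z : ℝ) ^ (3 * K) * E))) +
        2 * (11 / 10) * κ * ((X : ℝ) / 2 * LL (chi ψ) X * VG (chi ψ) z)) := by
  classical
  have hχ := chi_real d ψ
  have hz1 : 1 ≤ z := by omega
  have hrc : ∀ m : ℕ, 0 ≤ rc m := fun m => by unfold rc; positivity
  have hWT0 : 0 ≤ ∑ m ∈ T, rc m := Finset.sum_nonneg fun m _ => hrc m
  have hz0 : (0 : ℝ) < z := by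
    have : 0 < z := by omega
    exact_mod_cast this
  have hX0 : (0 : ℝ) < X := by exact_mod_cast hX
  have hVG : 0 ≤ VG (chi ψ) z := by
    unfold VG
    refine Finset.prod_nonneg fun p hp => ?_
    unfold PP at hp
    rw [mem_filter] at hp
    have := (RI_gg (chi ψ) hχ.val hp.2).2.1
    linarith
  set R : ℝ := (X : ℝ) / 2 * LL (chi ψ) X * VG (chi ψ) z with hR
  have hR0 : 0 ≤ R := by positivity
  have h1 := tri_upper hF d hz1 hχ X H Cr hX hH hCr B T c ((∑ m ∈ T, rc m) * ρ) (mul_nonneg hWT0 hρ0)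
    (fun n hn => pair_sup d B T hT c ρ hρ n hn) hno
  refine h1.trans ?_
  refine mul_le_mul_of_nonneg_left ?_ (mul_nonneg hWT0 hρ0)
  have hQ : ∀ q ∈ (primesOff d z H).filter (fun q => chi ψ q = 1),
      2 * ∑ m ∈ Icc 1 X, rho z u m * rr (chi ψ) m * wt ((X : ℝ) / q) m ≤
        2 * (11 / 10) * R * (1 / (q : ℝ)) + 2 * ((z : ℝ) ^ (3 * K) * E) := by
    intro q hq
    have hq1 := (mem_filter.1 hq).1
    unfold primesOff at hq1
    rw [mem_filter] at hq1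
    have hqp := hq1.2.1
    have hq0 : (0 : ℝ) < q := by exact_mod_cast hqp.pos
    have hq1' : (1 : ℝ) ≤ q := by exact_mod_cast hqp.one_lt.le
    have h2 := up_main hF X hX (chi ψ) hχ.mul hχ.one hχ.val E hE hLL hbase ((X : ℝ) / q)
      (by positivity) (div_le_self hX0.le hq1')
    have h3 : (X : ℝ) / q / 2 * LL (chi ψ) X * VG (chi ψ) z = R * (1 / (q : ℝ)) := by
      rw [hR]
      ring
    rw [h3] at h2
    have h4 : (1 : ℝ) + 1 / 10 = 11 / 10 := by norm_num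
    rw [h4] at h2
    linarith
  have h5 := Finset.sum_le_sum hQ
  rw [Finset.sum_add_distrib, Finset.sum_const, nsmul_eq_mul] at h5
  have h5' : ∑ x ∈ (primesOff d z H).filter (fun q => chi ψ q = 1), 2 * (11 / 10) * R * (1 / (x : ℝ)) =
      2 * (11 / 10) * R * ∑ x ∈ (primesOff d z H).filter (fun q => chi ψ q = 1), 1 / (x : ℝ) := by
    rw [Finset.mul_sum]
  rw [h5'] at h5
  have hcard : (((primesOff d z H).filter (fun q => chi ψ q = 1)).card : ℝ) ≤ H := by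
    have h6 : ((primesOff d z H).filter (fun q => chi ψ q = 1)).card ≤ H := by
      refine (Finset.card_filter_le _ _).trans ?_
      unfold primesOff
      refine (Finset.card_filter_le _ _).trans ?_
      rw [Nat.card_Icc]
      omega
    exact_mod_cast h6
  have hE' : 0 ≤ (z : ℝ) ^ (3 * K) * E := by positivity
  have h7 := mul_le_mul_of_nonneg_right hcard (by positivity : 0 ≤ 2 * ((z : ℝ) ^ (3 * K) * E))
  have h8 := mul_le_mul_of_nonneg_left hκ (by positivity : 0 ≤ 2 * (11 / 10) * R)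
  have h9 : 2 * (11 / 10) * κ * R = 2 * (11 / 10) * R * κ := by ring
  rw [h9]
  linarith

end Pool.Agent.Lib.MP_42948a_nt.EX
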