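import Pool.Agent.Lib.MP_42948a_nt.EX.C3
import Pool.Agent.Lib.MP_42948a_nt.EX.C4
import Pool.Agent.Lib.MP_42948a_nt.EX.F1
import Pool.Agent.Lib.MP_42948a_nt.EX.F2
import Pool.Agent.Lib.MP_42948a_nt.EX.G1
import Pool.Agent.Lib.MP_42948a_nt.EX.G2
import Pool.Agent.Lib.MP_42948a_nt.EX.G3
import Pool.Agent.Lib.MP_42948a_nt.EX.G4
import Pool.Agent.Lib.MP_42948a_nt.EX.H1
import Pool.Agent.Lib.MP_42948a_nt.EX.H2
import Pool.Agent.Lib.MP_42948a_nt.PS.B6c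
import Pool.Agent.Lib.MP_42948a_nt.AC.N6

/-!
# The exceptional real character (job M)

Parameters: `fund (1/10)` gives `K`. `brun_class ε` gives `C`, `CB = max C 1`. `κ = ε / (16 CB)` (so `κ ≤ ε/16 ≤ 1/1600`). `α0 = min (ε / (24 (K + 1))) (1/8)`; let `0 < α ≤ α0` (`3 K α ≤ ε/8`). `k = ⌈1/(2α)⌉₊ + 1` (`1/2 + α ≤ k α`),
`κ2 = min ε α / (32 k)` (`2 k κ2 ≤ ε/16`, `2 k κ2 < α/8`), `η = min κ2 (min ε α) / 16 `, `δ = ε / (40 CB)` (`δ (1 + CB) ≤ ε/20`), `Cr = 2^⌈2/α⌉₊` (`rough_divisors`, AC/N6: `n ≤ X ≤ d^2`). `few_large α .. k` (PS/B6c) gives `C2`; with `v = d^(-κ2)`: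
`v^(2k) = d^(-2kκ2)`, `2 C2 < d^(α/8 - 2kκ2)` for large `d`. `S = {ξ : v ≤ ‖Pa T ξ‖}`, `#S ≤ C2 d^(2kκ2)`; for `ξ ∉ S`: `AR T rc ξ = Pa T ξ * Wt T`, so `‖AR T rc ξ‖ ≤ v * ∑_T rc`.
`d` large: `LL_big ε η`, `R_low α η`, `num_one`, `num_two` (with `C = C2`), `aL_abs ε (κ2/2)`, `WB_low`, `WT_low`, `brun_class`, `z ≥ 2`, `d ≥ 2`.
Suppose there is no representation. `Y0 = X d^(-2η)`, `R = X/2 LL VG ≥ Y0`. `lower_one` (`D1 = d^(κ2/2)`): `N1 ≥ 9/10 R - δ Y0 ≥ 0`; `hXB`: `2 κ ≤ ε/8 ≤ ∑_B rc`, `hXT`: `2κ ≤ 1/20 ≤ ∑_T rc` and `T ⊆ primesOff d z ⌊d^(1/2+ε)⌋₊` (`2α ≤ 1/2`), so the sums over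
`χ = 1` are `≤ κ` by the hypotheses. `upper_one` with `ρ = CB / φ`, `H = ⌊d^(1/2+ε)⌋₊` (`X < (H+1)^2`). `hno`: if `q m t ≡ c` with `q` prime, `z < q ≤ X`, `m ∈ B`, `t ∈ T`, this is a representation (`m ≤ X`, `X ≤ d^(1+2ε)`, `t ≤ ⌊d^(2α)⌋ ≤ d^(2α)`,
`m > ⌊d^(1+ε)⌋ ≥ ⌊d^α⌋`). The elements of `B` are `> ⌊d^(1+ε)⌋ ≥ d`, `≤ d^4`, prime to `d`. Conclude with `final_alg`.
-/

namespace Pool.Agent.Lib.MP_42948a_nt.EX

open Finset Pool.Agent.Lib.MP_42948a_nt.OA Pool.Agent.Lib.MP_42948a_nt.AC Pool.Agent.Lib.MP_42948a_nt.TQ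
  Pool.Agent.Lib.MP_42948a_nt.PS

theorem exceptional (ε : ℝ) (hε : 0 < ε) (hε1 : ε ≤ 1 / 100) : ∃ κ : ℝ, 0 < κ ∧ ∃ α0 : ℝ, 0 < α0 ∧ ∀ α : ℝ, 0 < α → α ≤ α0 →
    ∃ d0 : ℕ, ∀ d : ℕ, d0 ≤ d → ∀ [NeZero d], ∀ ψ : (ZMod d)ˣ →* ℤˣ, ψ ≠ 1 →
      (∑ p ∈ (primesOff d ⌊(d : ℝ) ^ α⌋₊ ⌊(d : ℝ) ^ (1 / 2 + ε)⌋₊).filter (fun p => chi ψ p = 1), 1 / (p : ℝ) ≤ κ) →
      (∑ p ∈ (primesOff d ⌊(d : ℝ) ^ (1 + ε)⌋₊ ⌊(d : ℝ) ^ (1 + 2 * ε)⌋₊).filter (fun p => chi ψ p = 1), 1 / (p : ℝ) ≤ κ) →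
      ∀ c : (ZMod d)ˣ, ψ c = 1 → ∃ q m1 m2 : ℕ, q.Prime ∧ m1.Prime ∧ m2.Prime ∧ ⌊(d : ℝ) ^ α⌋₊ < q ∧
        ⌊(d : ℝ) ^ α⌋₊ < m1 ∧ ⌊(d : ℝ) ^ α⌋₊ < m2 ∧ (q : ℝ) ≤ (d : ℝ) ^ (1 + 2 * ε) ∧ (m1 : ℝ) ≤ (d : ℝ) ^ (1 + 2 * ε) ∧
        (m2 : ℝ) ≤ (d : ℝ) ^ (2 * α) ∧ ((q * m1 * m2 : ℕ) : ZMod d) = (c : ZMod d) := by
  classical
  obtain ⟨K, hfund⟩ := fund (1 / 10) (by norm_num) (by norm_num)
  obtain ⟨C, hC, dC, hbr⟩ := brun_class ε hε hε1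
  set CB : ℝ := max C 1 with hCBdef
  have hCB1 : 1 ≤ CB := le_max_right _ _
  have hCCB : C ≤ CB := le_max_left _ _
  have hCB0 : 0 < CB := by linarith
  set κ : ℝ := ε / (16 * CB) with hκdef
  have hκ0 : 0 < κ := by positivity
  have hκCB : κ * CB = ε / 16 := by
    rw [hκdef]
    field_simp
  have hκε : κ ≤ ε / 16 := by
    rw [← hκCB]
    exact le_mul_of_one_le_right hκ0.le hCB1
  set α0 : ℝ := min (ε / (24 * (K + 1))) (1 / 8) with hα0def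
  have hK0 : (0 : ℝ) ≤ K := Nat.cast_nonneg K
  have hα00 : 0 < α0 := by
    rw [hα0def]
    exact lt_min (by positivity) (by norm_num)
  refine ⟨κ, hκ0, α0, hα00, fun α hα hαα0 => ?_⟩
  have hα8 : α ≤ 1 / 8 := hαα0.trans (min_le_right _ _)
  have hαK : 3 * K * α ≤ ε / 8 := by
    have h1 : α ≤ ε / (24 * (K + 1)) := hαα0.trans (min_le_left _ _)
    rw [le_div_iff₀ (by positivity)] at h1
    nlinarith [mul_nonneg hK0 hα.le]
  obtain ⟨k, hkdef⟩ : ∃ k : ℕ, k = ⌈1 / (2 * α)⌉₊ + 1 := ⟨_, rfl⟩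
  have hkα : 1 / 2 + α ≤ k * α := by
    have h1 : 1 / (2 * α) ≤ (⌈1 / (2 * α)⌉₊ : ℝ) := Nat.le_ceil _
    have h2 : (k : ℝ) = (⌈1 / (2 * α)⌉₊ : ℝ) + 1 := by
      rw [hkdef]
      push_cast
      ring
    rw [h2]
    have h3 : 1 / (2 * α) * α = 1 / 2 := by field_simp
    nlinarith [mul_le_mul_of_nonneg_right h1 hα.le]
  have hk1 : 1 ≤ k := by rw [hkdef]; omega
  have hk1r : (1 : ℝ) ≤ k := by exact_mod_cast hk1
  set κ2 : ℝ := min ε α / (32 * k) with hκ2def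
  have hmin0 : 0 < min ε α := lt_min hε hα
  have hκ20 : 0 < κ2 := by positivity
  have hkκ : 2 * k * κ2 = min ε α / 16 := by
    rw [hκ2def]
    field_simp
    ring
  have hkκε : 2 * k * κ2 ≤ ε / 8 := by
    rw [hkκ]
    have := min_le_left ε α
    linarith
  have hkκα : 2 * k * κ2 ≤ α / 16 := by
    rw [hkκ]
    have := min_le_right ε α
    linarith
  set η : ℝ := min κ2 (min ε α) / 16 with hηdef
  have hη0 : 0 < η := by
    have : 0 < min κ2 (min ε α) := lt_min hκ20 hmin0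
    positivity
  have hηκ : 16 * η ≤ κ2 := by
    have := min_le_left κ2 (min ε α)
    rw [hηdef]
    linarith
  have hηε : 16 * η ≤ ε := by
    have h1 := min_le_right κ2 (min ε α)
    have h2 := min_le_left ε α
    rw [hηdef]
    linarith
  have hηα : 16 * η ≤ α := by
    have h1 := min_le_right κ2 (min ε α)
    have h2 := min_le_right ε α
    rw [hηdef]
    linarith
  set δ : ℝ := ε / (40 * CB) with hδdef
  have hδ0 : 0 < δ := by positivity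
  have hδCB : δ * (1 + CB) ≤ ε / 20 := by
    have h1 : δ * CB = ε / 40 := by
      rw [hδdef]
      field_simp
    have h2 : δ ≤ δ * CB := le_mul_of_one_le_right hδ0.le hCB1
    rw [mul_add, mul_one]
    linarith
  obtain ⟨Cr, hCrdef⟩ : ∃ Cr : ℕ, Cr = 2 ^ ⌈2 / α⌉₊ := ⟨_, rfl⟩
  obtain ⟨C2, hC20, d2, hfew⟩ := Pool.Agent.Lib.MP_42948a_nt.PS.few_large α hα (by linarith) k hkα
  obtain ⟨d3, hLLb⟩ := LL_big ε η hε hε1 hη0 (by linarith)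
  obtain ⟨d4, hRl⟩ := R_low α η hα (by linarith) hη0
  obtain ⟨d5, hn1⟩ := num_one ε α hε hε1 hα K Cr hαK η δ hη0 hηα hηε hδ0
  obtain ⟨d6, hn2⟩ := num_two ε α hε hε1 hα K k hαK η κ2 δ C2 hη0 hηκ hηε hkκε hδ0 hC20
  obtain ⟨d7, haL⟩ := aL_abs ε (κ2 / 2) hε hε1 (by positivity)
  obtain ⟨d8, hWBl⟩ := WB_low ε hε hε1
  obtain ⟨d9, hWTl⟩ := WT_low α hα
  have hevz : ∀ᶠ d : ℕ in Filter.atTop, (2 : ℝ) ≤ (d : ℝ) ^ α :=
    ((tendsto_rpow_atTop hα).comp tendsto_natCast_atTop_atTop).eventually_ge_atTop _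
  obtain ⟨d10, h10⟩ := Filter.eventually_atTop.1 hevz
  have hevC : ∀ᶠ d : ℕ in Filter.atTop, 2 * C2 + 1 ≤ (d : ℝ) ^ (α / 16) :=
    ((tendsto_rpow_atTop (by positivity : (0 : ℝ) < α / 16)).comp tendsto_natCast_atTop_atTop).eventually_ge_atTop _
  obtain ⟨d11, h11⟩ := Filter.eventually_atTop.1 hevC
  refine ⟨dC + d2 + d3 + d4 + d5 + d6 + d7 + d8 + d9 + d10 + d11 + 2, fun d hd hne ψ hψ hs1 hs2 c hc => ?_⟩
  have hd2 : 2 ≤ d := by omega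
  have hdr : (1 : ℝ) ≤ (d : ℝ) := by
    have h : 1 ≤ d := by omega
    exact_mod_cast h
  have hd0 : (0 : ℝ) ≤ (d : ℝ) := by linarith
  have hdpos : (0 : ℝ) < (d : ℝ) := by linarith
  by_contra hcon
  -- notation
  obtain ⟨X, hXdef⟩ : ∃ X : ℕ, X = ⌊(d : ℝ) ^ (1 + 2 * ε)⌋₊ := ⟨_, rfl⟩
  obtain ⟨Y, hYdef⟩ : ∃ Y : ℕ, Y = ⌊(d : ℝ) ^ (1 + ε)⌋₊ := ⟨_, rfl⟩
  obtain ⟨z, hzdef⟩ : ∃ z : ℕ, z = ⌊(d : ℝ) ^ α⌋₊ := ⟨_, rfl⟩
  obtain ⟨H, hHdef⟩ : ∃ H : ℕ, H = ⌊(d : ℝ) ^ (1 / 2 + ε)⌋₊ := ⟨_, rfl⟩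
  obtain ⟨Z2, hZ2def⟩ : ∃ Z2 : ℕ, Z2 = ⌊(d : ℝ) ^ (2 * α)⌋₊ := ⟨_, rfl⟩
  have hfl : ∀ x : ℝ, (⌊(d : ℝ) ^ x⌋₊ : ℝ) ≤ (d : ℝ) ^ x := fun x => Nat.floor_le (Real.rpow_nonneg hd0 x)
  have hXd : d ≤ X := by
    rw [hXdef]
    refine Nat.le_floor ?_
    calc (d : ℝ) = (d : ℝ) ^ (1 : ℝ) := (Real.rpow_one _).symm
      _ ≤ (d : ℝ) ^ (1 + 2 * ε) := Real.rpow_le_rpow_of_exponent_le hdr (by linarith)
  have hYd : d ≤ Y := by
    rw [hYdef]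
    refine Nat.le_floor ?_
    calc (d : ℝ) = (d : ℝ) ^ (1 : ℝ) := (Real.rpow_one _).symm
      _ ≤ (d : ℝ) ^ (1 + ε) := Real.rpow_le_rpow_of_exponent_le hdr (by linarith)
  have hzY : z ≤ Y := by
    rw [hzdef, hYdef]
    exact Nat.floor_le_floor (Real.rpow_le_rpow_of_exponent_le hdr (by linarith))
  have hz2 : 2 ≤ z := by
    rw [hzdef]
    refine Nat.le_floor ?_
    have := h10 d (by omega)
    exact_mod_cast this
  have hXd4 : X ≤ d ^ 4 := by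
    have h1 : (X : ℝ) ≤ ((d ^ 4 : ℕ) : ℝ) := by
      rw [hXdef]
      refine (hfl _).trans ?_
      push_cast
      rw [← Real.rpow_natCast]
      refine Real.rpow_le_rpow_of_exponent_le hdr ?_
      push_cast
      linarith
    exact_mod_cast h1
  have hX1 : 1 ≤ X := by omega
  set χ := chi ψ with hχdef
  have hχ := chi_real d ψ
  obtain ⟨hbase, hLL⟩ := hLLb d (by omega) ψ hψ
  rw [← hXdef] at hbase hLL
  have hLL0 : 0 ≤ LL χ X := le_trans (Real.rpow_nonneg hd0 _) hLL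
  have hR := hRl d (by omega) ψ X hLL
  rw [← hzdef] at hR
  obtain ⟨hn1a, hn1b⟩ := hn1 d (by omega)
  rw [← hXdef, ← hzdef] at hn1a hn1b
  rw [← hHdef] at hn1b
  obtain ⟨hn2a, hn2b⟩ := hn2 d (by omega)
  rw [← hXdef] at hn2a hn2b
  rw [← hzdef] at hn2a
  set Y0 : ℝ := (X : ℝ) * (d : ℝ) ^ (-(2 * η)) with hY0def
  have hX0 : (0 : ℝ) < X := by exact_mod_cast hX1
  have hY00 : 0 < Y0 := by
    have := Real.rpow_pos_of_pos hdpos (-(2 * η))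
    positivity
  set R : ℝ := (X : ℝ) / 2 * LL χ X * VG χ z with hRdef
  set B := primesOff d Y X with hBdef
  set T := primesOff d z Z2 with hTdef
  have hrc : ∀ m : ℕ, 0 ≤ rc m := fun m => by unfold rc; positivity
  have hWB := hWBl d (by omega)
  rw [← hXdef, ← hYdef] at hWB
  have hWT := hWTl d (by omega)
  rw [← hzdef, ← hZ2def] at hWT
  set WB := ∑ m ∈ B, rc m with hWBdef
  set WT := ∑ m ∈ T, rc m with hWTdef
  have hE0 : (0 : ℝ) ≤ (d : ℝ) ^ (1 / 2 + ε / 4) := Real.rpow_nonneg hd0 _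
  obtain ⟨u, l, hF⟩ := hfund z hz2
  have hCr : ∀ n : ℕ, Rough z n → n ≤ X → n.divisors.card ≤ Cr := by
    intro n hn hnX
    rw [hCrdef]
    rw [hzdef] at hn
    refine rough_divisors α hα d hd2 n hn ?_
    have h1 : (n : ℝ) ≤ X := by exact_mod_cast hnX
    refine h1.trans ?_
    rw [hXdef]
    exact (hfl _).trans (Real.rpow_le_rpow_of_exponent_le hdr (by linarith))
  have haL' := haL d (by omega) χ hχ.val z l hF.l_abs
  rw [← hXdef] at haL'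
  have hB : ∀ m ∈ B, d ≤ m ∧ m ≤ d ^ 4 ∧ m.Coprime d := by
    intro m hm
    rw [hBdef] at hm
    unfold primesOff at hm
    rw [mem_filter, mem_Icc] at hm
    refine ⟨by omega, by omega, ?_⟩
    exact (Nat.Prime.coprime_iff_not_dvd hm.2.1).2 hm.2.2.2
  have hT : ∀ m ∈ T, m.Coprime d := by
    intro m hm
    rw [hTdef] at hm
    unfold primesOff at hm
    rw [mem_filter] at hm
    exact (Nat.Prime.coprime_iff_not_dvd hm.2.1).2 hm.2.2.2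
  rw [← hzdef, ← hHdef] at hs1
  rw [← hXdef, ← hYdef] at hs2
  have hZH : Z2 ≤ H := by
    rw [hZ2def, hHdef]
    exact Nat.floor_le_floor (Real.rpow_le_rpow_of_exponent_le hdr (by linarith))
  have hXB : 2 * ∑ m ∈ B.filter (fun m : ℕ => chi ψ m = 1), rc m ≤ ∑ m ∈ B, rc m := by
    have h1 : ∑ m ∈ B.filter (fun m : ℕ => chi ψ m = 1), rc m ≤ κ := hs2
    have h2 : ε / 2 ≤ ∑ m ∈ B, rc m := hWB
    linarith
  have hXT : 2 * ∑ m ∈ T.filter (fun m : ℕ => chi ψ m = 1), rc m ≤ ∑ m ∈ T, rc m := by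
    have h1 : ∑ m ∈ T.filter (fun m : ℕ => chi ψ m = 1), rc m ≤
        ∑ m ∈ (primesOff d z H).filter (fun m : ℕ => chi ψ m = 1), rc m := by
      refine Finset.sum_le_sum_of_subset_of_nonneg ?_ (fun m _ _ => hrc m)
      intro m hm
      rw [hTdef] at hm
      unfold primesOff at hm ⊢
      rw [mem_filter, mem_filter, mem_Icc] at hm ⊢
      exact ⟨⟨⟨hm.1.1.1, hm.1.1.2.trans hZH⟩, hm.1.2⟩, hm.2⟩
    have h2 : ∑ m ∈ (primesOff d z H).filter (fun m : ℕ => chi ψ m = 1), rc m ≤ κ := hs1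
    have h3 : 1 / 20 ≤ ∑ m ∈ T, rc m := hWT
    linarith
  set v : ℝ := (d : ℝ) ^ (-κ2) with hvdef
  have hv0 : 0 < v := Real.rpow_pos_of_pos hdpos _
  set S : Finset (DirichletCharacter ℂ d) := univ.filter (fun ξ => v ≤ ‖Pa T ξ‖) with hSdef
  have hv2k : v ^ (2 * k) = (d : ℝ) ^ (-(2 * k * κ2)) := by
    rw [hvdef, ← Real.rpow_natCast, ← Real.rpow_mul hd0]
    congr 1
    push_cast
    ring
  have hScard : (S.card : ℝ) ≤ C2 * (d : ℝ) ^ (2 * k * κ2) := by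
    have h1 : 2 * C2 < v ^ (2 * k) * (d : ℝ) ^ (α / 8) := by
      rw [hv2k, ← Real.rpow_add hdpos]
      have h2 : (d : ℝ) ^ (α / 16) ≤ (d : ℝ) ^ (-(2 * k * κ2) + α / 8) :=
        Real.rpow_le_rpow_of_exponent_le hdr (by linarith)
      have h3 := h11 d (by omega)
      linarith
    have h4 := hfew d (by omega) v hv0 h1 S (by
      intro ξ hξ
      rw [hSdef, mem_filter] at hξ
      rw [← hzdef, ← hZ2def]
      exact hξ.2)
    rw [hv2k] at h4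
    have h5 : (d : ℝ) ^ (-(2 * k * κ2)) * (d : ℝ) ^ (2 * k * κ2) = 1 := by
      rw [← Real.rpow_add hdpos]
      simp
    have h6 : 0 < (d : ℝ) ^ (2 * k * κ2) := Real.rpow_pos_of_pos hdpos _
    calc (S.card : ℝ) = (S.card : ℝ) * (d : ℝ) ^ (-(2 * k * κ2)) * (d : ℝ) ^ (2 * k * κ2) := by
          rw [mul_assoc, h5, mul_one]
      _ ≤ C2 * (d : ℝ) ^ (2 * k * κ2) := mul_le_mul_of_nonneg_right h4 h6.le
  have hWT0 : 0 < WT := by linarith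
  have hS : ∀ ξ, ξ ∉ S → ‖AR T rc ξ‖ ≤ v * ∑ m ∈ T, rc m := by
    intro ξ hξ
    rw [hSdef, mem_filter, not_and, not_le] at hξ
    have h1 := hξ (mem_univ _)
    have h2 : AR T rc ξ = Pa T ξ * ((WT : ℝ) : ℂ) := by
      unfold Pa
      have h3 : (Wt T : ℝ) = WT := rfl
      rw [h3, div_mul_cancel₀]
      · rfl
      · exact_mod_cast hWT0.ne'
    rw [h2, norm_mul, Complex.norm_real, Real.norm_of_nonneg hWT0.le]
    exact mul_le_mul_of_nonneg_right h1.le hWT0.le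
  obtain ⟨N1, hN1a, hN1b⟩ := lower_one hF hz2 d hd2 ψ hψ X Cr hXd hCr ((d : ℝ) ^ (1 / 2 + ε / 4)) hE0 hLL0 hbase
    ((d : ℝ) ^ (κ2 / 2)) (Real.rpow_nonneg hd0 _) haL' B T hB hT hXB hXT v hv0.le S hS c hc
  have hR0 : 0 < R := lt_of_lt_of_le hY00 hR
  have hN1c : 9 / 10 * R - δ * Y0 ≤ N1 := by linarith
  have hδ1 : δ ≤ 1 / 2 := by
    have h1 : δ ≤ δ * (1 + CB) := by
      rw [mul_add, mul_one]
      have := mul_pos hδ0 hCB0
      linarith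
    linarith
  have hN10 : 0 ≤ N1 := by
    have h1 : δ * Y0 ≤ 1 / 2 * R := mul_le_mul hδ1 hR hY00.le (by norm_num)
    linarith
  have hlow := hN1b hN10
  set φ : ℝ := (Fintype.card (ZMod d)ˣ : ℝ) with hφdef
  have hφ0 : 0 < φ := by
    rw [hφdef]
    exact_mod_cast Fintype.card_pos
  have hWB0 : 0 ≤ WB := by linarith
  set tr := tri d (Icc 1 X) B T (aR χ z X) c with htrdef
  have hlow2 : N1 * WB * WT - (δ * Y0 * WB * WT + WT * (δ * Y0)) ≤ φ * tr := by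
    refine le_trans ?_ hlow
    have h1 : (S.card : ℝ) * ((z : ℝ) ^ (3 * K) * (3 * BB d * √(X : ℝ)) * WB * WT) ≤ δ * Y0 * WB * WT := by
      have hBB : 0 ≤ BB d := by
        unfold BB
        have := Real.log_natCast_nonneg d
        positivity
      have h2 : (S.card : ℝ) * ((z : ℝ) ^ (3 * K) * (3 * BB d * √(X : ℝ))) ≤ δ * Y0 :=
        (mul_le_mul_of_nonneg_right hScard (by positivity)).trans hn2a
      have h3 := mul_le_mul_of_nonneg_right (mul_le_mul_of_nonneg_right h2 hWB0) hWT0.le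
      refine le_trans (le_of_eq ?_) h3
      ring
    have h4 : v * WT * ((2 * X * (d : ℝ) ^ (κ2 / 2)) * (1 + 3 * Real.log d)) ≤ WT * (δ * Y0) := by
      have h5 := mul_le_mul_of_nonneg_left hn2b hWT0.le
      refine le_trans (le_of_eq ?_) h5
      rw [hvdef]
      ring
    linarith
  have hno : ∀ q : ℕ, q.Prime → z < q → q ≤ X → ∀ m ∈ B, ∀ t ∈ T, ((q * m * t : ℕ) : ZMod d) ≠ (c : ZMod d) := by
    intro q hq hzq hqX m hm t ht heq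
    apply hcon
    rw [hBdef] at hm
    rw [hTdef] at ht
    unfold primesOff at hm ht
    rw [mem_filter, mem_Icc] at hm ht
    refine ⟨q, m, t, hq, hm.2.1, ht.2.1, ?_, ?_, ?_, ?_, ?_, ?_, heq⟩
    · rw [← hzdef]
      exact hzq
    · rw [← hzdef]
      have := hm.2.2.1
      omega
    · rw [← hzdef]
      exact ht.2.2.1
    · have h1 : (q : ℝ) ≤ X := by exact_mod_cast hqX
      refine h1.trans ?_
      rw [hXdef]
      exact hfl _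
    · have h1 : (m : ℝ) ≤ X := by exact_mod_cast hm.1.2
      refine h1.trans ?_
      rw [hXdef]
      exact hfl _
    · have h1 : (t : ℝ) ≤ Z2 := by exact_mod_cast ht.1.2
      refine h1.trans ?_
      rw [hZ2def]
      exact hfl _
  have hHX : X < (H + 1) ^ 2 := by
    have h1 : (X : ℝ) < ((H : ℝ) + 1) ^ 2 := by
      have h2 : (d : ℝ) ^ (1 / 2 + ε) < (H : ℝ) + 1 := by
        rw [hHdef]
        exact Nat.lt_floor_add_one _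
      have h3 : (d : ℝ) ^ (1 + 2 * ε) = ((d : ℝ) ^ (1 / 2 + ε)) ^ 2 := by
        rw [← Real.rpow_natCast, ← Real.rpow_mul hd0]
        congr 1
        push_cast
        ring
      calc (X : ℝ) ≤ (d : ℝ) ^ (1 + 2 * ε) := by
            rw [hXdef]
            exact hfl _
        _ = ((d : ℝ) ^ (1 / 2 + ε)) ^ 2 := h3
        _ < ((H : ℝ) + 1) ^ 2 := pow_lt_pow_left₀ h2 (Real.rpow_nonneg hd0 _) (by norm_num)
    exact_mod_cast h1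
  have hρ : ∀ b : (ZMod d)ˣ, ∑ m ∈ B.filter (fun m : ℕ => (m : ZMod d) = (b : ZMod d)), rc m ≤ CB / φ := by
    intro b
    have h1 := hbr d (by omega) b
    rw [← hXdef, ← hYdef] at h1
    exact h1.trans (div_le_div_of_nonneg_right hCCB hφ0.le)
  have hup := upper_one hF hz2 d ψ X H Cr hX1 hHX hCr ((d : ℝ) ^ (1 / 2 + ε / 4)) hE0 hLL0 hbase B T hT (CB / φ) κ
    (by positivity) hρ hs1 c hno
  have hup2 : tr ≤ WT * (CB / φ) * (δ * Y0 + 2 * (11 / 10) * κ * R) := by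
    refine hup.trans ?_
    have h1 : (X : ℝ) / 2 * LL (chi ψ) X * VG (chi ψ) z = R := rfl
    rw [h1]
    refine mul_le_mul_of_nonneg_left ?_ (mul_nonneg hWT0.le (div_nonneg hCB0.le hφ0.le))
    have h2 : 1 + ((Cr : ℝ) * X / z + 2 * ((H : ℝ) * ((z : ℝ) ^ (3 * K) * (d : ℝ) ^ (1 / 2 + ε / 4)))) ≤ δ * Y0 := hn1b
    linarith
  exact final_alg ε R Y0 WB WT CB κ δ φ tr N1 hε hε1 hφ0 hWT0 hWB hCB1 hY00 hR hκ0.le hκCB.le hδ0 hδCB hN1c hlow2 hup2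

end Pool.Agent.Lib.MP_42948a_nt.EX
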