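import Pool.Agent.Lib.MP_42948a_nt.EX.Defs
import Pool.Agent.Lib.MP_42948a_nt.OM.E1
import Pool.Agent.Lib.MP_42948a_nt.OA.SE
import Pool.Agent.Lib.MP_42948a_nt.OA.RI

/-!
# Lower bound for the sieve product (job A1)

`g = gg χ` satisfies `0 ≤ g p ≤ 3/4`, `g p ≤ 2/p` at primes (`RI_gg`). `exp_le_prod` (OA/SE): `exp (-(2 ∑_{p ∈ PP z} g p)) ≤ ∏ (1 - g p)`. `PP z` is `{2}` together
with the primes of `Ioc 2 z`; `g 2 ≤ 3/4`, and by `prime_recip` of `OM/E1` (with `z := 2`, `N := z`)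
`∑_{p ∈ Ioc 2 z} 2/p ≤ 2 (log (log z / log 2) + C)`. So `2 ∑ g ≤ 3/2 + 4 C + 4 log (log z / log 2)` and
`∏ ≥ exp (-3/2 - 4 C) (log 2)^4 / (log z)^4`; take `c = exp (-3/2 - 4 C) (log 2)^4`.
-/

namespace Pool.Agent.Lib.MP_42948a_nt.EX

open Finset Pool.Agent.Lib.MP_42948a_nt.OA Pool.Agent.Lib.MP_42948a_nt.AC Pool.Agent.Lib.MP_42948a_nt.TQ
  Pool.Agent.Lib.MP_42948a_nt.PS

theorem VG_low : ∃ c : ℝ, 0 < c ∧ ∀ z : ℕ, 2 ≤ z → ∀ χ : ℕ → ℝ, (∀ n, χ n = 0 ∨ χ n = 1 ∨ χ n = -1) →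
    c / (Real.log z) ^ 4 ≤ VG χ z := by
  obtain ⟨C, hC0, hC⟩ := Pool.Agent.Lib.MP_42948a_nt.OM.prime_recip
  have hl2 : 0 < Real.log 2 := Real.log_pos (by norm_num)
  refine ⟨Real.exp (-(3 / 2) - 4 * C) * (Real.log 2) ^ 4, by positivity, ?_⟩
  intro z hz χ hv
  have hz' : (2 : ℝ) ≤ z := by exact_mod_cast hz
  have hlz : 0 < Real.log z := Real.log_pos (by linarith)
  have hPP : PP z = insert 2 ((Ioc 2 z).filter Nat.Prime) := by
    ext p
    unfold PP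
    simp only [mem_filter, mem_Icc, mem_insert, mem_Ioc]
    constructor
    · rintro ⟨⟨h1, h2⟩, h3⟩
      have h4 := h3.two_le
      by_cases h5 : p = 2
      · exact Or.inl h5
      · exact Or.inr ⟨⟨by omega, h2⟩, h3⟩
    · rintro (rfl | ⟨⟨h1, h2⟩, h3⟩)
      · exact ⟨⟨by norm_num, hz⟩, Nat.prime_two⟩
      · exact ⟨⟨by omega, h2⟩, h3⟩
  have hpr : ∀ p ∈ PP z, p.Prime := by
    intro p hp
    unfold PP at hp
    exact (mem_filter.1 hp).2
  have hsum : ∑ p ∈ PP z, gg χ p ≤ 3 / 4 + 2 * (Real.log (Real.log z / Real.log 2) + C) := by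
    rw [hPP, sum_insert (by simp)]
    have h1 : gg χ 2 ≤ 3 / 4 := (RI_gg χ hv Nat.prime_two).2.1
    have h2 : ∑ p ∈ (Ioc 2 z).filter Nat.Prime, gg χ p ≤
        ∑ p ∈ (Ioc 2 z).filter Nat.Prime, 2 * ((1 : ℝ) / p) := by
      refine sum_le_sum fun p hp => ?_
      have h3 := (RI_gg χ hv (mem_filter.1 hp).2).2.2
      calc gg χ p ≤ 2 / p := h3
        _ = 2 * ((1 : ℝ) / p) := by ring
    rw [← mul_sum] at h2
    have h3 := hC 2 z le_rfl hz
    rw [Nat.cast_ofNat] at h3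
    linarith
  have h1 := exp_le_prod (PP z) (gg χ) (fun p hp => (RI_gg χ hv (hpr p hp)).1)
    (fun p hp => (RI_gg χ hv (hpr p hp)).2.1)
  have h2 : Real.exp (-(3 / 2) - 4 * C) * (Real.log 2) ^ 4 / (Real.log z) ^ 4 ≤
      Real.exp (-(2 * ∑ p ∈ PP z, gg χ p)) := by
    have h3 : Real.exp (-(3 / 2) - 4 * C - 4 * Real.log (Real.log z / Real.log 2)) ≤
        Real.exp (-(2 * ∑ p ∈ PP z, gg χ p)) := by
      rw [Real.exp_le_exp]
      linarith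
    refine le_trans (le_of_eq ?_) h3
    have h4 : Real.exp (4 * Real.log (Real.log z / Real.log 2)) =
        (Real.log z / Real.log 2) ^ 4 := by
      have h5 : (4 : ℝ) * Real.log (Real.log z / Real.log 2) =
          ((4 : ℕ) : ℝ) * Real.log (Real.log z / Real.log 2) := by norm_num
      rw [h5, Real.exp_nat_mul, Real.exp_log (by positivity)]
    rw [Real.exp_sub (-(3 / 2) - 4 * C), h4]
    field_simp
  exact h2.trans h1

end Pool.Agent.Lib.MP_42948a_nt.EX
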