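import Pool.Agent.Lib.MP_42948a_nt.EX.Defs
import Pool.Agent.Lib.MP_42948a_nt.TQ.A3
import Pool.Agent.Lib.MP_42948a_nt.TQ.A4
import Pool.Agent.Lib.MP_42948a_nt.OA.RI

/-!
# The sums of `(1 * χ)(n) wt` with sieve weights (job A2)

Both statements: `A3_exch` and `A3_err` (TQ/A3) with `A = Icc 1 X`, `w n = rr χ n * wt t n`, `g = gg χ`, `X := t / 2 * LL χ X`, `c = l` resp. `c = u`,
`R T = z^(2K) E`: by `SwT_bound` (OA/RF; `SwT χ X T t = ∑_{n, T | n} rr χ n * wt t n`) the error is at most `3^(#T) E ≤ (∏ p)^2 E ≤ z^(2K) E` for `T ∈ TT z K`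
(`RI_pow`, as in `AC/F4.lean`), and there are at most `z^K` sets in `TT z K` (`card_TT`). Then `l_sum`, `u_sum` (`Adm z (gg χ)` from `RI_gg`) and
`t / 2 * LL χ X ≥ 0`.
-/

namespace Pool.Agent.Lib.MP_42948a_nt.EX

open Finset Pool.Agent.Lib.MP_42948a_nt.OA Pool.Agent.Lib.MP_42948a_nt.AC Pool.Agent.Lib.MP_42948a_nt.TQ
  Pool.Agent.Lib.MP_42948a_nt.PS

theorem EX_A2_err (K z X : ℕ) (hX : 1 ≤ X)
    (χ : ℕ → ℝ) (hmul : ∀ m n, χ (m * n) = χ m * χ n) (hv : ∀ n, χ n = 0 ∨ χ n = 1 ∨ χ n = -1)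
    (E : ℝ) (hE : 0 ≤ E)
    (hbase : ∀ t : ℝ, 0 < t → t ≤ X → |SwT χ X ∅ t - t / 2 * LL χ X| ≤ E) (t : ℝ) (ht : 0 < t) (htX : t ≤ X)
    (c : Finset ℕ → ℝ) (hc : ∀ T, |c T| ≤ 1) (hs : ∀ T, T ⊆ PP z → c T ≠ 0 → ∏ p ∈ T, p ≤ z ^ K) :
    |∑ n ∈ Icc 1 X, rho z c n * rr χ n * wt t n -
      t / 2 * LL χ X * ∑ T ∈ (PP z).powerset, c T * ∏ p ∈ T, gg χ p| ≤ (z : ℝ) ^ (3 * K) * E := by
  have e1 : ∑ n ∈ Icc 1 X, rho z c n * rr χ n * wt t n =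
      ∑ T ∈ (PP z).powerset, c T * ∑ n ∈ (Icc 1 X).filter (fun n : ℕ => ∀ p ∈ T, p ∣ n), rr χ n * wt t n := by
    rw [← A3_exch]
    refine Finset.sum_congr rfl fun n _ => ?_
    unfold rho
    ring
  rw [e1]
  refine (A3_err z K (Icc 1 X) (fun n => rr χ n * wt t n) (gg χ) (t / 2 * LL χ X)
    (fun _ => (z : ℝ) ^ (2 * K) * E) c hc hs ?_).trans ?_
  · intro T hT
    unfold TT at hT
    rw [mem_filter, mem_powerset] at hT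
    have hTp : ∀ q ∈ T, q.Prime := by
      intro q hq
      have h3 := hT.1 hq
      unfold PP at h3
      rw [mem_filter] at h3
      exact h3.2
    have h2 := SwT_bound χ hmul hv X E hbase T hTp t ht htX
    unfold SwT at h2
    refine h2.trans ?_
    apply mul_le_mul_of_nonneg_right _ hE
    refine (RI_pow T hT.1).trans ?_
    rw [mul_comm 2 K, pow_mul]
    apply pow_le_pow_left₀ (Nat.cast_nonneg _)
    exact_mod_cast hT.2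
  · rw [Finset.sum_const, nsmul_eq_mul]
    have h1 : (0 : ℝ) ≤ (z : ℝ) ^ (2 * K) * E := by positivity
    refine (mul_le_mul_of_nonneg_right (card_TT z K) h1).trans (le_of_eq ?_)
    rw [← mul_assoc, ← pow_add]
    congr 2
    ring

theorem EX_A2_adm (z : ℕ) (χ : ℕ → ℝ) (hv : ∀ n, χ n = 0 ∨ χ n = 1 ∨ χ n = -1) : Adm z (gg χ) := by
  intro p hp
  unfold PP at hp
  rw [mem_filter] at hp
  exact RI_gg χ hv hp.2

theorem low_main {τ : ℝ} {K z : ℕ} {u l : Finset ℕ → ℝ} (hF : Fund τ K z u l) (X : ℕ) (hX : 1 ≤ X)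
    (χ : ℕ → ℝ) (hmul : ∀ m n, χ (m * n) = χ m * χ n) (h1 : χ 1 = 1) (hv : ∀ n, χ n = 0 ∨ χ n = 1 ∨ χ n = -1)
    (E : ℝ) (hE : 0 ≤ E) (hLL : 0 ≤ LL χ X)
    (hbase : ∀ t : ℝ, 0 < t → t ≤ X → |SwT χ X ∅ t - t / 2 * LL χ X| ≤ E) :
    (1 - τ) * ((X : ℝ) / 2 * LL χ X * VG χ z) - (z : ℝ) ^ (3 * K) * E ≤ ∑ n ∈ Icc 1 X, aL χ z X l n := by
  have hX0 : (0 : ℝ) < X := by exact_mod_cast hX
  have h1' := EX_A2_err K z X hX χ hmul hv E hE hbase X hX0 le_rfl l hF.l_abs hF.l_sup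
  have h2 := hF.l_sum (gg χ) (EX_A2_adm z χ hv)
  have h3 : 0 ≤ (X : ℝ) / 2 * LL χ X := by positivity
  have h4 := mul_le_mul_of_nonneg_left h2 h3
  have h5 := (abs_le.1 h1').1
  unfold aL VG
  have h6 : (X : ℝ) / 2 * LL χ X * ((1 - τ) * ∏ p ∈ PP z, (1 - gg χ p)) =
      (1 - τ) * ((X : ℝ) / 2 * LL χ X * ∏ p ∈ PP z, (1 - gg χ p)) := by ring
  linarith

theorem up_main {τ : ℝ} {K z : ℕ} {u l : Finset ℕ → ℝ} (hF : Fund τ K z u l) (X : ℕ) (hX : 1 ≤ X)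
    (χ : ℕ → ℝ) (hmul : ∀ m n, χ (m * n) = χ m * χ n) (h1 : χ 1 = 1) (hv : ∀ n, χ n = 0 ∨ χ n = 1 ∨ χ n = -1)
    (E : ℝ) (hE : 0 ≤ E) (hLL : 0 ≤ LL χ X)
    (hbase : ∀ t : ℝ, 0 < t → t ≤ X → |SwT χ X ∅ t - t / 2 * LL χ X| ≤ E) (t : ℝ) (ht : 0 < t) (htX : t ≤ X) :
    ∑ n ∈ Icc 1 X, rho z u n * rr χ n * wt t n ≤
      (1 + τ) * (t / 2 * LL χ X * VG χ z) + (z : ℝ) ^ (3 * K) * E := by
  have h1' := EX_A2_err K z X hX χ hmul hv E hE hbase t ht htX u hF.u_abs hF.u_sup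
  have h2 := hF.u_sum (gg χ) (EX_A2_adm z χ hv)
  have h3 : 0 ≤ t / 2 * LL χ X := by positivity
  have h4 := mul_le_mul_of_nonneg_left h2 h3
  have h5 := (abs_le.1 h1').2
  unfold VG
  have h6 : t / 2 * LL χ X * ((1 + τ) * ∏ p ∈ PP z, (1 - gg χ p)) =
      (1 + τ) * (t / 2 * LL χ X * ∏ p ∈ PP z, (1 - gg χ p)) := by ring
  linarith

end Pool.Agent.Lib.MP_42948a_nt.EX
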