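import Pool.Agent.Lib.MP_42948a_nt.EX.Defs
import Pool.Agent.Lib.MP_42948a_nt.OA.RA

/-!
# Pointwise facts on `1 * χ` and on sieve weights (job A3)

* `rr_coprime`: `χ a ≠ 0` for every divisor `a` of `n` (coprime to `d`), so `χ a ^ 2 = 1`, `χ n * χ a = χ (n / a) * χ a * χ a = χ (n / a)`, and
  `∑_{a ∣ n} χ (n / a) = ∑_{a ∣ n} χ a` (`Nat.sum_div_divisors`).
* `rr_le`: each of the `#(divisors n)` terms is `≤ 1` in absolute value.
* `rho_abs`: `|rho z l n| ≤ #{T ⊆ PP z : ∀ p ∈ T, p ∣ n}`; `T ↦ ∏ p ∈ T, p` is an injection into `n.divisors` (distinct primes dividing `n`: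
  `Finset.prod_primes_dvd` or `Nat.prod_dvd...`; injective since `T = (∏ p ∈ T, p).primeFactors`, `Nat.primeFactors_prod`; see `OA/SM.lean`
  for a similar argument).
* `wt_nonneg`, `wt_le_one`, `wt_scale`: definitions.
* `rho_le_rough`: `l_pt` of `Fund`; if `0 < n` then `(∀ p ∈ PP z, ¬ p ∣ n) ↔ Rough z n` (`PP z` = primes `≤ z`).
* `aL_le_aR`: `rho_le_rough`, `rr ≥ 0` (`rr_nonneg`), `wt ≥ 0`.
* `rr_minFac`: `n = q * m` with `q` prime, `¬ q ∣ m` and `rr χ n ≠ 0`, `χ q ≠ 0`: `rr χ n = (1 + χ q) rr χ m` (`rr_mul`, `rr_prime_pow` with `k = 1`), so `1 + χ q ≠ 0`,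
  hence `χ q = 1` and `rr χ n = 2 rr χ m`.
-/

namespace Pool.Agent.Lib.MP_42948a_nt.EX

open Finset Pool.Agent.Lib.MP_42948a_nt.OA Pool.Agent.Lib.MP_42948a_nt.AC Pool.Agent.Lib.MP_42948a_nt.TQ
  Pool.Agent.Lib.MP_42948a_nt.PS

theorem rr_coprime {d : ℕ} {χ : ℕ → ℝ} (hχ : RealChar d χ) {n : ℕ} (hn : n.Coprime d) (hn0 : 0 < n) :
    χ n * rr χ n = rr χ n := by
  unfold rr
  rw [Finset.mul_sum]
  rw [← Nat.sum_div_divisors n χ]
  refine Finset.sum_congr rfl fun a ha => ?_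
  have had : a ∣ n := (Nat.mem_divisors.1 ha).1
  have hac : a.Coprime d := Nat.Coprime.coprime_dvd_left had hn
  obtain ⟨b, hb⟩ := had
  have ha0 : 0 < a := Nat.pos_of_mem_divisors ha
  have hb' : n / a = b := by rw [hb]; exact Nat.mul_div_cancel_left b ha0
  have hsq : χ a * χ a = 1 := by
    rcases hχ.val a with h | h | h
    · exact absurd h (hχ.ne a hac)
    · rw [h, one_mul]
    · rw [h]; norm_num
  rw [hb', hb, hχ.mul, mul_right_comm, hsq, one_mul]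

theorem rr_le {χ : ℕ → ℝ} (hv : ∀ n, χ n = 0 ∨ χ n = 1 ∨ χ n = -1) (n : ℕ) : |rr χ n| ≤ (n.divisors.card : ℝ) := by
  unfold rr
  refine (Finset.abs_sum_le_sum_abs _ _).trans ?_
  have h1 : ∀ a ∈ n.divisors, |χ a| ≤ 1 := by
    intro a _
    rcases hv a with h | h | h
    · rw [h, abs_zero]; exact zero_le_one
    · rw [h, abs_one]
    · rw [h, abs_neg, abs_one]
  refine (Finset.sum_le_sum h1).trans ?_
  rw [Finset.sum_const, nsmul_eq_mul, mul_one]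

theorem rho_abs (z : ℕ) (l : Finset ℕ → ℝ) (hl : ∀ T, |l T| ≤ 1) {n : ℕ} (hn : 0 < n) :
    |rho z l n| ≤ (n.divisors.card : ℝ) := by
  unfold rho
  refine (Finset.abs_sum_le_sum_abs _ _).trans ?_
  have h1 : ∀ T ∈ (PP z).powerset, |l T * (if ∀ p ∈ T, p ∣ n then (1 : ℝ) else 0)| ≤
      (if ∀ p ∈ T, p ∣ n then (1 : ℝ) else 0) := by
    intro T _
    by_cases h : ∀ p ∈ T, p ∣ n
    · rw [if_pos h, mul_one]; exact hl T
    · rw [if_neg h, mul_zero, abs_zero]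
  refine (Finset.sum_le_sum h1).trans ?_
  rw [← Finset.sum_filter, Finset.sum_const, nsmul_eq_mul, mul_one]
  refine Nat.cast_le.2 ?_
  have hpr : ∀ T ∈ (PP z).powerset.filter (fun T => ∀ p ∈ T, p ∣ n), ∀ p ∈ T, p.Prime := by
    intro T hT p hp
    have h2 := Finset.mem_powerset.1 (Finset.mem_filter.1 hT).1 hp
    unfold PP at h2
    exact (Finset.mem_filter.1 h2).2
  refine Finset.card_le_card_of_injOn (fun T => ∏ p ∈ T, p) (fun T hT => ?_) ?_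
  · have hT' : T ∈ (PP z).powerset.filter (fun T => ∀ p ∈ T, p ∣ n) := hT
    rw [Finset.mem_coe, Nat.mem_divisors]
    refine ⟨?_, hn.ne'⟩
    exact Finset.prod_primes_dvd n (fun p hp => (hpr T hT' p hp).prime)
      (Finset.mem_filter.1 hT').2
  · intro T hT S hS h
    have hT' : T ∈ (PP z).powerset.filter (fun T => ∀ p ∈ T, p ∣ n) := hT
    have hS' : S ∈ (PP z).powerset.filter (fun T => ∀ p ∈ T, p ∣ n) := hS
    have h3 : ∏ p ∈ T, p = ∏ p ∈ S, p := h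
    rw [← Nat.primeFactors_prod (hpr T hT'), h3, Nat.primeFactors_prod (hpr S hS')]

theorem wt_nonneg (t : ℝ) (n : ℕ) : 0 ≤ wt t n := by
  exact le_max_left _ _

theorem wt_le_one {t : ℝ} (ht : 0 < t) (n : ℕ) : wt t n ≤ 1 := by
  unfold wt
  refine max_le zero_le_one ?_
  have h1 : 0 ≤ (n : ℝ) / t := div_nonneg (Nat.cast_nonneg n) ht.le
  linarith

theorem wt_scale {t : ℝ} (q n : ℕ) (hq : 0 < q) (ht : 0 < t) : wt t (q * n) = wt (t / q) n := by
  unfold wt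
  have hq' : (q : ℝ) ≠ 0 := Nat.cast_ne_zero.2 hq.ne'
  have h1 : ((q * n : ℕ) : ℝ) / t = (n : ℝ) / (t / q) := by
    rw [Nat.cast_mul]
    field_simp
  rw [h1]

theorem rho_le_rough {τ : ℝ} {K z : ℕ} {u l : Finset ℕ → ℝ} (hF : Fund τ K z u l) {n : ℕ} (hn : 0 < n) :
    (Rough z n → rho z l n ≤ 1) ∧ (¬ Rough z n → rho z l n ≤ 0) ∧ 0 ≤ rho z u n ∧ (Rough z n → 1 ≤ rho z u n) := by
  have hiff : (∀ p ∈ PP z, ¬ p ∣ n) ↔ Rough z n := by
    constructor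
    · intro h
      refine ⟨hn, fun p hp hpn => ?_⟩
      by_contra hcon
      refine h p ?_ hpn
      unfold PP
      rw [Finset.mem_filter, Finset.mem_Icc]
      exact ⟨⟨hp.one_lt.le, not_lt.1 hcon⟩, hp⟩
    · intro h p hp hpn
      unfold PP at hp
      rw [Finset.mem_filter, Finset.mem_Icc] at hp
      have h1 := h.2 p hp.2 hpn
      omega
  have hl := hF.l_pt n
  have hu := hF.u_pt n
  refine ⟨fun h => ?_, fun h => ?_, ?_, fun h => ?_⟩
  · rw [if_pos (hiff.2 h)] at hl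
    exact hl
  · rw [if_neg (fun h' => h (hiff.1 h'))] at hl
    exact hl
  · refine le_trans ?_ hu
    split_ifs
    · exact zero_le_one
    · exact le_rfl
  · rw [if_pos (hiff.2 h)] at hu
    exact hu

theorem aL_le_aR {τ : ℝ} {K z : ℕ} {u l : Finset ℕ → ℝ} (hF : Fund τ K z u l) {χ : ℕ → ℝ}
    (hmul : ∀ m n, χ (m * n) = χ m * χ n) (h1 : χ 1 = 1) (hv : ∀ n, χ n = 0 ∨ χ n = 1 ∨ χ n = -1) (X : ℕ) {n : ℕ}
    (hn : 0 < n) : aL χ z X l n ≤ aR χ z X n := by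
  have hr := rr_nonneg χ hmul h1 hv n
  have hw := wt_nonneg (X : ℝ) n
  obtain ⟨hl1, hl2, -, -⟩ := rho_le_rough hF hn
  unfold aL aR
  refine mul_le_mul_of_nonneg_right ?_ hw
  by_cases h : Rough z n
  · rw [if_pos h]
    exact (mul_le_mul_of_nonneg_right (hl1 h) hr).trans (by rw [one_mul])
  · rw [if_neg h]
    exact mul_nonpos_of_nonpos_of_nonneg (hl2 h) hr

theorem rr_minFac {χ : ℕ → ℝ} (hmul : ∀ m n, χ (m * n) = χ m * χ n) (h1 : χ 1 = 1)
    (hv : ∀ n, χ n = 0 ∨ χ n = 1 ∨ χ n = -1) {q m : ℕ} (hq : q.Prime) (hqm : ¬ q ∣ m) (hq0 : χ q ≠ 0)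
    (h : rr χ (q * m) ≠ 0) : χ q = 1 ∧ rr χ (q * m) = 2 * rr χ m := by
  have hco : q.Coprime m := (Nat.Prime.coprime_iff_not_dvd hq).2 hqm
  have h2 : rr χ q = 1 + χ q := by
    have h3 := rr_prime_pow χ hmul h1 hq 1
    rw [pow_one, Finset.sum_range_succ, Finset.sum_range_one, pow_zero, pow_one] at h3
    exact h3
  have h4 : rr χ (q * m) = (1 + χ q) * rr χ m := by
    rw [rr_mul χ hmul hco, h2]
  rcases hv q with h5 | h5 | h5
  · exact absurd h5 hq0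
  · refine ⟨h5, ?_⟩
    rw [h4, h5]
    norm_num
  · exfalso
    apply h
    rw [h4, h5]
    norm_num

end Pool.Agent.Lib.MP_42948a_nt.EX
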