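import Pool.Agent.Lib.MP_42948a_nt.EX.Defs
import Pool.Agent.Lib.MP_42948a_nt.OA.RB

/-!
# Hecke relation for the convolution of two completely multiplicative functions (job B1)

`cv_hecke`: copy the proof of `rr_hecke` (OA/RB): the divisors of `p m` are the divisors `a` of `m` (`f a * g (p m / a) = f a * g (p * (m / a)) = g p * (f a * g (m / a))`) together with
the `p a`, `a ∣ m` (`f (p a) * g (p m / (p a)) = f p * (f a * g (m / a))`); the common ones (only if `p ∣ m`) are the `p b`, `b ∣ m / p`, and for them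
`f (p b) * g (p m / (p b)) = f p * f b * g (m / b)`, `m / b = p * ((m / p) / b)`, so this is `f p * g p * (f b * g ((m / p) / b))`.

`SC_step`: copy the proof of `SwT_step` (OA/RF; the private lemma `RF_shift` there is for a real function, make a complex version): write `n = p m`; `q ∣ p m ↔ q ∣ m` for `q ∈ T`;
the sum over `m ≤ N / p` may be extended to `m ≤ N` since `wt t (p m) = 0` for `p m ≥ t`; `wt t (p m) = wt (t / p) m`. In the second part `m = p m'`.
-/

namespace Pool.Agent.Lib.MP_42948a_nt.EX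

open Finset Pool.Agent.Lib.MP_42948a_nt.OA Pool.Agent.Lib.MP_42948a_nt.AC Pool.Agent.Lib.MP_42948a_nt.TQ
  Pool.Agent.Lib.MP_42948a_nt.PS

theorem cv_hecke (f g : ℕ → ℂ) (hf : ∀ m n, f (m * n) = f m * f n) (hg : ∀ m n, g (m * n) = g m * g n) {p : ℕ}
    (hp : p.Prime) (m : ℕ) (hm : 0 < m) :
    cv f g (p * m) = (f p + g p) * cv f g m - f p * g p * (if p ∣ m then cv f g (m / p) else 0) := by
  classical
  have hinj : ∀ S : Finset ℕ, ∑ a ∈ S.image (fun b => p * b), f a * g (p * m / a) =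
      f p * ∑ a ∈ S, f a * g (m / a) := by
    intro S
    rw [Finset.sum_image (fun a _ b _ hab => Nat.eq_of_mul_eq_mul_left hp.pos hab), Finset.mul_sum]
    refine Finset.sum_congr rfl (fun a _ => ?_)
    rw [hf, Nat.mul_div_mul_left _ _ hp.pos, mul_assoc]
  have hunion : (p * m).divisors = m.divisors ∪ m.divisors.image (fun b => p * b) := by
    ext a
    rw [Finset.mem_union, Nat.mem_divisors, Nat.mem_divisors, Finset.mem_image]
    constructor
    · rintro ⟨ha, -⟩
      by_cases hpa : p ∣ a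
      · obtain ⟨b, rfl⟩ := hpa
        right
        exact ⟨b, Nat.mem_divisors.mpr ⟨Nat.dvd_of_mul_dvd_mul_left hp.pos ha, hm.ne'⟩, rfl⟩
      · left
        exact ⟨((hp.coprime_iff_not_dvd.mpr hpa).symm).dvd_of_dvd_mul_left ha, hm.ne'⟩
    · rintro (⟨ha, -⟩ | ⟨b, hb, rfl⟩)
      · exact ⟨ha.mul_left p, (Nat.mul_pos hp.pos hm).ne'⟩
      · exact ⟨Nat.mul_dvd_mul_left p (Nat.dvd_of_mem_divisors hb), (Nat.mul_pos hp.pos hm).ne'⟩
  have hinter : ∑ a ∈ m.divisors ∩ m.divisors.image (fun b => p * b), f a * g (p * m / a) =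
      f p * g p * (if p ∣ m then cv f g (m / p) else 0) := by
    split_ifs with hpm
    · have h1 : m.divisors ∩ m.divisors.image (fun b => p * b) = (m / p).divisors.image (fun b => p * b) := by
        ext a
        rw [Finset.mem_inter, Finset.mem_image, Finset.mem_image, Nat.mem_divisors]
        constructor
        · rintro ⟨⟨ha, -⟩, b, hb, rfl⟩
          refine ⟨b, Nat.mem_divisors.mpr ⟨?_, ?_⟩, rfl⟩
          · obtain ⟨k, hk⟩ := ha
            refine ⟨k, ?_⟩
            rw [hk, mul_assoc, Nat.mul_div_cancel_left _ hp.pos]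
          · exact (Nat.div_pos (Nat.le_of_dvd hm hpm) hp.pos).ne'
        · rintro ⟨b, hb, rfl⟩
          have hb' := Nat.dvd_of_mem_divisors hb
          have h2 : p * b ∣ m := by
            obtain ⟨k, hk⟩ := hpm
            rw [hk, Nat.mul_div_cancel_left _ hp.pos] at hb'
            rw [hk]
            exact Nat.mul_dvd_mul_left p hb'
          exact ⟨⟨h2, hm.ne'⟩, b, Nat.mem_divisors.mpr ⟨(Dvd.intro_left p rfl).trans h2, hm.ne'⟩, rfl⟩
      rw [h1, hinj]
      unfold cv
      rw [mul_assoc, Finset.mul_sum (s := (m / p).divisors) (a := g p)]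
      congr 1
      refine Finset.sum_congr rfl (fun b hb => ?_)
      have hb' := Nat.dvd_of_mem_divisors hb
      have h3 : m / b = p * (m / p / b) := by
        rw [← Nat.mul_div_assoc p hb', Nat.mul_div_cancel' hpm]
      rw [h3, hg]
      ring
    · have h1 : m.divisors ∩ m.divisors.image (fun b => p * b) = ∅ := by
        rw [Finset.eq_empty_iff_forall_notMem]
        intro a ha
        rw [Finset.mem_inter, Finset.mem_image] at ha
        obtain ⟨ha, b, hb, rfl⟩ := ha
        exact hpm ((Dvd.intro b rfl).trans (Nat.dvd_of_mem_divisors ha))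
      rw [h1, Finset.sum_empty, mul_zero]
  have hfirst : ∑ a ∈ m.divisors, f a * g (p * m / a) = g p * ∑ a ∈ m.divisors, f a * g (m / a) := by
    rw [Finset.mul_sum]
    refine Finset.sum_congr rfl (fun a ha => ?_)
    rw [Nat.mul_div_assoc p (Nat.dvd_of_mem_divisors ha), hg]
    ring
  have hsum := Finset.sum_union_inter (s₁ := m.divisors) (s₂ := m.divisors.image (fun b => p * b))
    (f := fun a => f a * g (p * m / a))
  rw [← hunion, hinter, hinj, hfirst] at hsum
  unfold cv at *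
  linear_combination hsum

private theorem EX_B1_wt (p : ℕ) (hp : 0 < p) (t : ℝ) (m : ℕ) : wt (t / p) m = wt t (p * m) := by
  have hp0 : (0 : ℝ) < p := by exact_mod_cast hp
  unfold wt
  have key : (1 : ℝ) - m / (t / p) = 1 - ((p * m : ℕ) : ℝ) / t := by
    push_cast
    field_simp
  rw [key]

private theorem EX_B1_shift (f : ℕ → ℂ) (N : ℕ) (T : Finset ℕ)
    (hT : ∀ q ∈ T, q.Prime) {p : ℕ} (hp : p.Prime) (hpT : p ∉ T) (t : ℝ) (ht : 0 < t) (htN : t ≤ N) :
    ∑ n ∈ (Icc 1 N).filter (fun n => ∀ q ∈ insert p T, q ∣ n), f n * ((wt t n : ℝ) : ℂ) =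
      ∑ m ∈ (Icc 1 N).filter (fun m => ∀ q ∈ T, q ∣ m), f (p * m) * ((wt (t / p) m : ℝ) : ℂ) := by
  have h1 : ∑ m ∈ (Icc 1 N).filter (fun m => p * m ≤ N ∧ ∀ q ∈ T, q ∣ m),
      f (p * m) * ((wt (t / p) m : ℝ) : ℂ) =
      ∑ m ∈ (Icc 1 N).filter (fun m => ∀ q ∈ T, q ∣ m), f (p * m) * ((wt (t / p) m : ℝ) : ℂ) := by
    apply Finset.sum_subset
    · intro m hm
      rw [Finset.mem_filter] at hm ⊢
      exact ⟨hm.1, hm.2.2⟩
    · intro m hm hm'
      rw [Finset.mem_filter] at hm hm'
      have h2 : ¬ p * m ≤ N := fun h => hm' ⟨hm.1, h, hm.2⟩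
      have h3 : (N : ℝ) ≤ ((p * m : ℕ) : ℝ) := by
        exact_mod_cast (not_le.1 h2).le
      have h4 : 1 ≤ ((p * m : ℕ) : ℝ) / t := by
        rw [le_div_iff₀ ht]
        linarith
      rw [EX_B1_wt p hp.pos]
      unfold wt
      rw [max_eq_left (by linarith), Complex.ofReal_zero, mul_zero]
  rw [← h1]
  symm
  refine Finset.sum_nbij' (fun m => p * m) (fun n => n / p) ?_ ?_ ?_ ?_ ?_
  · intro m hm
    rw [Finset.mem_filter, Finset.mem_Icc] at hm ⊢
    refine ⟨⟨?_, hm.2.1⟩, ?_⟩
    · exact Nat.mul_pos hp.pos hm.1.1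
    · intro q hq
      rcases Finset.mem_insert.1 hq with rfl | hq
      · exact Dvd.intro _ rfl
      · exact (hm.2.2 q hq).mul_left p
  · intro n hn
    rw [Finset.mem_filter, Finset.mem_Icc] at hn ⊢
    have hpn : p ∣ n := hn.2 p (Finset.mem_insert_self _ _)
    have hn2 : p * (n / p) = n := Nat.mul_div_cancel' hpn
    refine ⟨⟨?_, (Nat.div_le_self _ _).trans hn.1.2⟩, ?_, ?_⟩
    · exact Nat.div_pos (Nat.le_of_dvd hn.1.1 hpn) hp.pos
    · rw [hn2]
      exact hn.1.2
    · intro q hq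
      have h2 : q ∣ p * (n / p) := by
        rw [hn2]
        exact hn.2 q (Finset.mem_insert_of_mem hq)
      rcases ((hT q hq).dvd_mul).1 h2 with h3 | h3
      · have h4 : q = p := (Nat.prime_dvd_prime_iff_eq (hT q hq) hp).1 h3
        exact absurd (h4 ▸ hq) hpT
      · exact h3
  · intro m _
    exact Nat.mul_div_cancel_left m hp.pos
  · intro n hn
    rw [Finset.mem_filter] at hn
    exact Nat.mul_div_cancel' (hn.2 p (Finset.mem_insert_self _ _))
  · intro m _
    rw [EX_B1_wt p hp.pos]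

theorem SC_step (f g : ℕ → ℂ) (hf : ∀ m n, f (m * n) = f m * f n) (hg : ∀ m n, g (m * n) = g m * g n) (N : ℕ)
    (T : Finset ℕ) (hT : ∀ q ∈ T, q.Prime) {p : ℕ} (hp : p.Prime) (hpT : p ∉ T) (t : ℝ) (ht : 0 < t) (htN : t ≤ N) :
    SC f g N (insert p T) t = (f p + g p) * SC f g N T (t / p) - f p * g p * SC f g N T (t / (p : ℝ) ^ 2) := by
  have hp0 : (0 : ℝ) < p := by exact_mod_cast hp.pos
  have hp1 : (1 : ℝ) ≤ p := by exact_mod_cast hp.pos
  have htp : t / p ≤ N := (div_le_self ht.le hp1).trans htN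
  have htp0 : 0 < t / p := by positivity
  have h1 := EX_B1_shift (cv f g) N T hT hp hpT t ht htN
  have h2 := EX_B1_shift (fun n => cv f g (n / p)) N T hT hp hpT (t / p) htp0 htp
  have h3 : ∑ n ∈ (Icc 1 N).filter (fun n => ∀ q ∈ insert p T, q ∣ n),
      cv f g (n / p) * ((wt (t / p) n : ℝ) : ℂ) =
      ∑ m ∈ (Icc 1 N).filter (fun m => ∀ q ∈ T, q ∣ m),
        (if p ∣ m then cv f g (m / p) else 0) * ((wt (t / p) m : ℝ) : ℂ) := by
    rw [Finset.sum_filter, Finset.sum_filter]
    apply Finset.sum_congr rfl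
    intro m _
    by_cases hpm : p ∣ m
    · rw [if_pos hpm]
      congr 1
      rw [eq_iff_iff]
      constructor
      · intro h q hq
        exact h q (Finset.mem_insert_of_mem hq)
      · intro h q hq
        rcases Finset.mem_insert.1 hq with rfl | hq
        · exact hpm
        · exact h q hq
    · rw [if_neg hpm, zero_mul, ite_self]
      rw [if_neg]
      intro h
      exact hpm (h p (Finset.mem_insert_self _ _))
  have h4 : ∑ m ∈ (Icc 1 N).filter (fun m => ∀ q ∈ T, q ∣ m),
      cv f g (p * m / p) * ((wt (t / p / p) m : ℝ) : ℂ) = SC f g N T (t / (p : ℝ) ^ 2) := by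
    unfold SC
    apply Finset.sum_congr rfl
    intro m _
    rw [Nat.mul_div_cancel_left m hp.pos, div_div, ← pow_two]
  have h5 : SC f g N (insert p T) t = ∑ m ∈ (Icc 1 N).filter (fun m => ∀ q ∈ T, q ∣ m),
      cv f g (p * m) * ((wt (t / p) m : ℝ) : ℂ) := h1
  rw [h5, ← h4, ← h2, h3]
  unfold SC
  rw [Finset.mul_sum, Finset.mul_sum, ← Finset.sum_sub_distrib]
  apply Finset.sum_congr rfl
  intro m hm
  have hm1 : 0 < m := (Finset.mem_Icc.1 (Finset.mem_filter.1 hm).1).1
  rw [cv_hecke f g hf hg hp m hm1]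
  ring

end Pool.Agent.Lib.MP_42948a_nt.EX
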