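import Pool.Agent.Lib.MP_42948a_nt.EX.B1

/-!
# Divisibility conditions (job B2)

Induction on `T` (`Finset.induction_on`), all `t` at once, as `SwT_bound` in `OA/RF.lean`: `SC_step` and `‖f p + g p‖ ≤ 2`, `‖f p * g p‖ ≤ 1`, `t / p, t / p^2 ∈ (0, N]`, so the bound is
multiplied by at most `3`.
-/

namespace Pool.Agent.Lib.MP_42948a_nt.EX

open Finset Pool.Agent.Lib.MP_42948a_nt.OA Pool.Agent.Lib.MP_42948a_nt.AC Pool.Agent.Lib.MP_42948a_nt.TQ
  Pool.Agent.Lib.MP_42948a_nt.PS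

theorem SC_bound (f g : ℕ → ℂ) (hf : ∀ m n, f (m * n) = f m * f n) (hg : ∀ m n, g (m * n) = g m * g n)
    (hf1 : ∀ n, ‖f n‖ ≤ 1) (hg1 : ∀ n, ‖g n‖ ≤ 1) (N : ℕ) (E : ℝ)
    (hbase : ∀ t : ℝ, 0 < t → t ≤ N → ‖SC f g N ∅ t‖ ≤ E)
    (T : Finset ℕ) (hT : ∀ q ∈ T, q.Prime) (t : ℝ) (ht : 0 < t) (htN : t ≤ N) :
    ‖SC f g N T t‖ ≤ 3 ^ T.card * E := by
  induction T using Finset.induction_on generalizing t with
  | empty =>
    rw [Finset.card_empty, pow_zero, one_mul]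
    exact hbase t ht htN
  | insert p T hpT ih =>
    have hp : p.Prime := hT p (Finset.mem_insert_self _ _)
    have hT' : ∀ q ∈ T, q.Prime := fun q hq => hT q (Finset.mem_insert_of_mem hq)
    have hp0 : (0 : ℝ) < p := by exact_mod_cast hp.pos
    have hp1 : (1 : ℝ) ≤ p := by exact_mod_cast hp.pos
    have hp2 : (1 : ℝ) ≤ (p : ℝ) ^ 2 := one_le_pow₀ hp1
    have i1 := ih hT' (t / p) (by positivity) ((div_le_self ht.le hp1).trans htN)
    have i2 := ih hT' (t / (p : ℝ) ^ 2) (by positivity) ((div_le_self ht.le hp2).trans htN)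
    rw [SC_step f g hf hg N T hT' hp hpT t ht htN, Finset.card_insert_of_notMem hpT]
    have h0 : 0 ≤ 3 ^ T.card * E := (norm_nonneg _).trans i1
    have h1 : ‖f p + g p‖ ≤ 2 := by
      have h2 := norm_add_le (f p) (g p)
      have h3 := hf1 p
      have h4 := hg1 p
      linarith
    have h2 : ‖f p * g p‖ ≤ 1 := by
      rw [norm_mul]
      exact mul_le_one₀ (hf1 p) (norm_nonneg _) (hg1 p)
    calc ‖(f p + g p) * SC f g N T (t / p) - f p * g p * SC f g N T (t / (p : ℝ) ^ 2)‖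
        ≤ ‖(f p + g p) * SC f g N T (t / p)‖ + ‖f p * g p * SC f g N T (t / (p : ℝ) ^ 2)‖ :=
          norm_sub_le _ _
      _ ≤ 2 * (3 ^ T.card * E) + 1 * (3 ^ T.card * E) := by
          rw [norm_mul, norm_mul (f p * g p)]
          exact add_le_add (mul_le_mul h1 i1 (norm_nonneg _) zero_le_two)
            (mul_le_mul h2 i2 (norm_nonneg _) zero_le_one)
      _ = 3 ^ (T.card + 1) * E := by rw [pow_succ]; ring

end Pool.Agent.Lib.MP_42948a_nt.EX
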