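import Pool.Agent.Lib.MP_42948a_nt.EX.Defs
import Pool.Agent.Lib.MP_42948a_nt.OA.RC
import Pool.Agent.Lib.MP_42948a_nt.OM.B5

/-!
# Multiples of `e` in a residue class, weights `1 / n` (job C1)

1. For a unit class `b` and all `N`: `|#{n ∈ Icc 1 N : n ≡ b} - N / d| ≤ 1` (the class has exactly one member in every block of `d` consecutive integers; e.g. induction with `N = d q + r`, or
`Nat.count_modEq_card`, or `Nat.Ioc_filter_modEq_card`/`Int.Ioc_filter_modEq_card`). So the function `f n = (if (n : ZMod d) = b then 1 else 0) - 1 / d` has `|∑_{n ∈ Icc 1 N} f n| ≤ 1`,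
and `abel_tail` (OA/RC, `M = 1`): `|∑_{n ∈ Ioc U V} f n / n| ≤ 2 / (U + 1)`.
2. `e` coprime to `d`, `2 e ≤ Y ≤ X`: the `n ∈ Ioc Y X` with `e ∣ n`, `n ≡ b` are `n = e k`, `k ∈ Ioc (Y / e) (X / e)`, `k ≡ b e⁻¹` (a unit class). So the sum is
`(1 / e) ∑_{k ∈ Ioc (Y/e) (X/e), k ≡ b'} 1/k = (1 / e) [(1 / d) ∑_{k ∈ Ioc (Y/e) (X/e)} 1/k + θ * 2 / (Y/e + 1)]`, `|θ| ≤ 1`, and `e (Y / e + 1) ≥ Y`, so the second term is `≤ 2 / Y`.
`B5_log_bound` (OM/B5): `|∑_{k ∈ Ioc (Y/e) (X/e)} 1/k - log (X / Y)| ≤ 2 e / Y`; multiplied by `1 / (e d)` the error is `2 / (d Y) ≤ 2 / Y`. Total error `≤ 4 / Y`.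
-/

namespace Pool.Agent.Lib.MP_42948a_nt.EX

open Finset Pool.Agent.Lib.MP_42948a_nt.OA Pool.Agent.Lib.MP_42948a_nt.AC Pool.Agent.Lib.MP_42948a_nt.TQ
  Pool.Agent.Lib.MP_42948a_nt.PS

theorem class_count (d : ℕ) [NeZero d] (b : (ZMod d)ˣ) (N : ℕ) :
    |(((Icc 1 N).filter (fun n : ℕ => (n : ZMod d) = (b : ZMod d))).card : ℝ) - (N : ℝ) / d| ≤ 1 := by
  have hd : 0 < d := Nat.pos_of_ne_zero (NeZero.ne d)
  obtain ⟨v, hv⟩ : ∃ v : ℕ, v = (b : ZMod d).val := ⟨_, rfl⟩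
  have hvd : v < d := by
    rw [hv]
    exact ZMod.val_lt _
  have hvb : ((v : ℕ) : ZMod d) = (b : ZMod d) := by
    rw [hv]
    exact ZMod.natCast_zmod_val _
  have hset : (Icc 1 N).filter (fun n : ℕ => (n : ZMod d) = (b : ZMod d)) =
      (Ioc 0 N).filter (fun x : ℕ => x ≡ v [MOD d]) := by
    ext x
    simp only [mem_filter, mem_Icc, mem_Ioc]
    rw [← hvb, ZMod.natCast_eq_natCast_iff]
    constructor
    · rintro ⟨⟨h1, h2⟩, h3⟩
      exact ⟨⟨by omega, h2⟩, h3⟩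
    · rintro ⟨⟨h1, h2⟩, h3⟩
      exact ⟨⟨by omega, h2⟩, h3⟩
  rw [hset]
  obtain ⟨K, hK⟩ : ∃ K : ℕ, K = ((Ioc 0 N).filter (fun x : ℕ => x ≡ v [MOD d])).card := ⟨_, rfl⟩
  rw [← hK]
  have hc := Nat.Ioc_filter_modEq_card 0 N hd v
  rw [← hK] at hc
  obtain ⟨A, hA⟩ : ∃ A : ℤ, A = ⌊((N : ℚ) - v) / d⌋ := ⟨_, rfl⟩
  obtain ⟨B, hB⟩ : ∃ B : ℤ, B = ⌊(((0 : ℕ) : ℚ) - v) / d⌋ := ⟨_, rfl⟩
  rw [← hA, ← hB] at hc
  have hd0 : (0 : ℚ) < d := by exact_mod_cast hd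
  have hN0 : (0 : ℚ) ≤ N := Nat.cast_nonneg N
  have hA1 : (A : ℚ) ≤ ((N : ℚ) - v) / d := by
    rw [hA]
    exact Int.floor_le _
  have hA2 : ((N : ℚ) - v) / d < A + 1 := by
    rw [hA]
    exact Int.lt_floor_add_one _
  have hB1 : (B : ℚ) ≤ (((0 : ℕ) : ℚ) - v) / d := by
    rw [hB]
    exact Int.floor_le _
  have hB2 : (((0 : ℕ) : ℚ) - v) / d < B + 1 := by
    rw [hB]
    exact Int.lt_floor_add_one _
  have hAB : B ≤ A := by
    rw [hA, hB]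
    apply Int.floor_le_floor
    apply div_le_div_of_nonneg_right _ hd0.le
    push_cast
    linarith
  rw [max_eq_left (by omega)] at hc
  have hKq : (K : ℚ) = A - B := by exact_mod_cast hc
  have e1 : ((N : ℚ) - v) / d = (N : ℚ) / d - (v : ℚ) / d := by ring
  have e2 : (((0 : ℕ) : ℚ) - v) / d = - ((v : ℚ) / d) := by push_cast; ring
  rw [e1] at hA1 hA2
  rw [e2] at hB1 hB2
  have h1 : (K : ℚ) - (N : ℚ) / d ≤ 1 := by rw [hKq]; linarith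
  have h2 : -1 ≤ (K : ℚ) - (N : ℚ) / d := by rw [hKq]; linarith
  rw [abs_le]
  constructor
  · have := (Rat.cast_le (K := ℝ)).2 h2
    push_cast at this
    exact this
  · have := (Rat.cast_le (K := ℝ)).2 h1
    push_cast at this
    exact this

private theorem EX_C1_reindex (d : ℕ) [NeZero d] (b : (ZMod d)ˣ) (e Y X : ℕ) (he : 1 ≤ e) (hed : e.Coprime d) :
    ∃ b' : (ZMod d)ˣ, (e : ZMod d) * b' = b ∧
    ∑ n ∈ ((Ioc Y X).filter (fun n : ℕ => (n : ZMod d) = (b : ZMod d))).filter (fun n => e ∣ n), rc n =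
      (1 / (e : ℝ)) * ∑ k ∈ (Ioc (Y / e) (X / e)).filter (fun k : ℕ => (k : ZMod d) = (b' : ZMod d)), (1 : ℝ) / k := by
  obtain ⟨u, hu⟩ : ∃ u : (ZMod d)ˣ, (u : ZMod d) = (e : ZMod d) := ⟨ZMod.unitOfCoprime e hed, ZMod.coe_unitOfCoprime e hed⟩
  have hub : (e : ZMod d) * ((u⁻¹ * b : (ZMod d)ˣ) : ZMod d) = b := by
    rw [← hu, ← Units.val_mul, mul_inv_cancel_left]
  have hiff : ∀ k : ℕ, ((e * k : ℕ) : ZMod d) = (b : ZMod d) ↔ (k : ZMod d) = ((u⁻¹ * b : (ZMod d)ˣ) : ZMod d) := by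
    intro k
    rw [Nat.cast_mul, ← hub, ← hu]
    constructor
    · intro h
      exact (Units.mul_right_inj u).1 h
    · intro h
      rw [h]
  refine ⟨u⁻¹ * b, hub, ?_⟩
  rw [Finset.mul_sum]
  apply Finset.sum_nbij' (fun n => n / e) (fun k => e * k)
  · intro n hn
    rw [mem_filter, mem_filter, mem_Ioc] at hn
    obtain ⟨⟨⟨h1, h2⟩, h3⟩, k, rfl⟩ := hn
    rw [Nat.mul_div_cancel_left k (by omega), mem_filter, mem_Ioc]
    refine ⟨⟨Nat.div_lt_of_lt_mul h1, ?_⟩, (hiff k).1 h3⟩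
    rw [Nat.le_div_iff_mul_le (by omega), mul_comm]
    exact h2
  · intro k hk
    rw [mem_filter, mem_Ioc] at hk
    obtain ⟨⟨h1, h2⟩, h3⟩ := hk
    rw [mem_filter, mem_filter, mem_Ioc]
    refine ⟨⟨⟨?_, ?_⟩, (hiff k).2 h3⟩, Dvd.intro k rfl⟩
    · rw [Nat.div_lt_iff_lt_mul (by omega), mul_comm] at h1
      exact h1
    · rw [Nat.le_div_iff_mul_le (by omega), mul_comm] at h2
      exact h2
  · intro n hn
    rw [mem_filter] at hn
    exact Nat.mul_div_cancel' hn.2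
  · intro k _
    exact Nat.mul_div_cancel_left k (by omega)
  · intro n hn
    rw [mem_filter] at hn
    obtain ⟨_, k, rfl⟩ := hn
    rw [Nat.mul_div_cancel_left k (by omega)]
    unfold rc
    push_cast
    rw [one_div_mul_one_div]

private theorem EX_C1_abel (d : ℕ) [NeZero d] (b : (ZMod d)ˣ) (U V : ℕ) :
    |∑ k ∈ (Ioc U V).filter (fun k : ℕ => (k : ZMod d) = (b : ZMod d)), (1 : ℝ) / k -
      (∑ k ∈ Ioc U V, (1 : ℝ) / k) / d| ≤ 2 / ((U : ℝ) + 1) := by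
  have key : ∀ N : ℕ, |∑ n ∈ Icc 1 N, ((if (n : ZMod d) = (b : ZMod d) then (1 : ℝ) else 0) - 1 / d)| ≤ 1 := by
    intro N
    have h := class_count d b N
    rw [Finset.sum_sub_distrib, Finset.sum_const, Nat.card_Icc, nsmul_eq_mul, ← Finset.sum_filter,
      Finset.sum_const, nsmul_eq_mul, mul_one]
    have e : ((N + 1 - 1 : ℕ) : ℝ) * (1 / (d : ℝ)) = (N : ℝ) / d := by
      rw [Nat.add_sub_cancel]
      ring
    rw [e]
    exact h
  have h := abel_tail (fun n : ℕ => (if (n : ZMod d) = (b : ZMod d) then (1 : ℝ) else 0) - 1 / d) 1 key U V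
  have e : ∑ a ∈ Ioc U V, ((if (a : ZMod d) = (b : ZMod d) then (1 : ℝ) else 0) - 1 / d) / (a : ℝ) =
      ∑ k ∈ (Ioc U V).filter (fun k : ℕ => (k : ZMod d) = (b : ZMod d)), (1 : ℝ) / k -
      (∑ k ∈ Ioc U V, (1 : ℝ) / k) / d := by
    rw [Finset.sum_filter, Finset.sum_div, ← Finset.sum_sub_distrib]
    apply Finset.sum_congr rfl
    intro a _
    split_ifs with h1
    · ring
    · ring
  rw [e, mul_one] at h
  exact h

theorem class_multiples (d : ℕ) [NeZero d] (b : (ZMod d)ˣ) (e Y X : ℕ) (he : 1 ≤ e) (hed : e.Coprime d)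
    (hY : 2 * e ≤ Y) (hYX : Y ≤ X) :
    |∑ n ∈ ((Ioc Y X).filter (fun n : ℕ => (n : ZMod d) = (b : ZMod d))).filter (fun n => e ∣ n), rc n -
      Real.log ((X : ℝ) / Y) / d * (1 / (e : ℝ))| ≤ 4 / Y := by
  have hd : 0 < d := Nat.pos_of_ne_zero (NeZero.ne d)
  have hd0 : (0 : ℝ) < d := by exact_mod_cast hd
  have hd1 : (1 : ℝ) ≤ d := by exact_mod_cast hd
  have he0 : (0 : ℝ) < e := by exact_mod_cast he
  have hy0 : (0 : ℝ) < Y := by
    have : 0 < Y := by omega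
    exact_mod_cast this
  obtain ⟨b', hb', hre⟩ := EX_C1_reindex d b e Y X he hed
  rw [hre]
  have h1 := EX_C1_abel d b' (Y / e) (X / e)
  have h2 := Pool.Agent.Lib.MP_42948a_nt.OM.B5_log_bound e Y X he hY hYX
  obtain ⟨A, hA⟩ : ∃ A : ℝ, A = ∑ k ∈ (Ioc (Y / e) (X / e)).filter (fun k : ℕ => (k : ZMod d) = (b' : ZMod d)),
      (1 : ℝ) / k := ⟨_, rfl⟩
  obtain ⟨S, hS⟩ : ∃ S : ℝ, S = ∑ k ∈ Ioc (Y / e) (X / e), (1 : ℝ) / k := ⟨_, rfl⟩
  obtain ⟨Lg, hLg⟩ : ∃ Lg : ℝ, Lg = Real.log ((X : ℝ) / Y) := ⟨_, rfl⟩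
  rw [← hA, ← hS] at h1
  rw [← hS, ← hLg] at h2
  rw [← hA, ← hLg]
  have h3 : (2 : ℝ) / ((Y / e : ℕ) + 1) ≤ 2 * e / Y := by
    rw [div_le_div_iff₀ (by positivity) hy0]
    have h4 : Y < e * (Y / e + 1) := Nat.lt_mul_div_succ Y (by omega)
    have h5 : (Y : ℝ) < e * ((Y / e : ℕ) + 1) := by exact_mod_cast h4
    nlinarith [h5]
  have h6 : |A - S / d| ≤ 2 * e / Y := h1.trans h3
  have h7 : |S / d - Lg / d| ≤ 2 * e / Y := by
    rw [← sub_div, abs_div, abs_of_pos hd0, div_le_iff₀ hd0]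
    have : (2 : ℝ) * e / Y ≤ 2 * e / Y * d := by
      have h0 : (0 : ℝ) ≤ 2 * e / Y := by positivity
      nlinarith [h0, hd1]
    exact h2.trans this
  have h8 : |A - Lg / d| ≤ 4 * e / Y := by
    have : A - Lg / d = (A - S / d) + (S / d - Lg / d) := by ring
    rw [this]
    refine (abs_add_le _ _).trans ?_
    have h9 : (4 : ℝ) * e / Y = 2 * e / Y + 2 * e / Y := by ring
    rw [h9]
    exact add_le_add h6 h7
  have h10 : 1 / (e : ℝ) * A - Lg / d * (1 / (e : ℝ)) = 1 / (e : ℝ) * (A - Lg / d) := by ring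
  rw [h10, abs_mul, abs_of_pos (by positivity : (0 : ℝ) < 1 / e)]
  have h11 : 1 / (e : ℝ) * (4 * e / Y) = 4 / Y := by
    field_simp
  rw [← h11]
  exact mul_le_mul_of_nonneg_left h8 (by positivity)

end Pool.Agent.Lib.MP_42948a_nt.EX
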