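import Pool.Agent.Lib.MP_42948a_nt.EX.C2

/-!
# Brun-Titchmarsh for primes in `(d^(1+ε), d^(1+2ε)]` (job C3)

`fund 1` (TQ/A2) gives `K`; let `cb = ε / (2 * (K + 1))`, `z = ⌊d^cb⌋₊`, `Y = ⌊d^(1+ε)⌋₊`, `X = ⌊d^(1+2ε)⌋₊`. `primesOff d Y X ⊆ (Ioc Y X).filter Nat.Prime`. `brun_one` with `τ = 1`:
`log (X / Y) ≤ ε log d + 1`, `log z ≥ (cb / 2) log d`, so the first term is at most `2 (ε log d + 1) / (φ (cb / 2) log d) ≤ (8 ε / cb) / φ` for large `d`; the second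
`≤ 4 d^(ε/2) * 2 / d^(1+ε) ≤ 1 / d ≤ 1 / φ`. `C = 8 ε / cb + 1`.
-/

namespace Pool.Agent.Lib.MP_42948a_nt.EX

open Finset Pool.Agent.Lib.MP_42948a_nt.OA Pool.Agent.Lib.MP_42948a_nt.AC Pool.Agent.Lib.MP_42948a_nt.TQ
  Pool.Agent.Lib.MP_42948a_nt.PS

theorem brun_class (ε : ℝ) (hε : 0 < ε) (hε1 : ε ≤ 1 / 100) : ∃ C : ℝ, 0 < C ∧ ∃ d0 : ℕ, ∀ d : ℕ, d0 ≤ d → ∀ [NeZero d],
    ∀ b : (ZMod d)ˣ,
      ∑ m ∈ (primesOff d ⌊(d : ℝ) ^ (1 + ε)⌋₊ ⌊(d : ℝ) ^ (1 + 2 * ε)⌋₊).filter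
        (fun m : ℕ => (m : ZMod d) = (b : ZMod d)), rc m ≤ C / (Fintype.card (ZMod d)ˣ : ℝ) := by
  classical
  obtain ⟨K, hK⟩ := fund 1 one_pos le_rfl
  obtain ⟨cb, hcb⟩ : ∃ cb : ℝ, cb = ε / (2 * (K + 1)) := ⟨_, rfl⟩
  have hK1 : (0 : ℝ) < (K : ℝ) + 1 := by positivity
  have hcb0 : 0 < cb := by rw [hcb]; positivity
  have hcbK : cb * (K + 1) = ε / 2 := by rw [hcb]; field_simp
  have hcbK' : cb * K ≤ ε / 2 := by nlinarith
  have hcbe : cb ≤ ε / 2 := by nlinarith [(Nat.cast_nonneg K : (0 : ℝ) ≤ (K : ℝ))]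
  obtain ⟨L0, hL0⟩ : ∃ L0 : ℝ, L0 = 1 / ε + 2 / cb + 6 / ε + 2 := ⟨_, rfl⟩
  refine ⟨8 * ε / cb + 1, by positivity, ⌈Real.exp L0⌉₊ + 2, ?_⟩
  intro d hd _ b
  have hd2 : 2 ≤ d := by omega
  have hd2r : (2 : ℝ) ≤ d := by exact_mod_cast hd2
  have hd1r : (1 : ℝ) ≤ d := by linarith
  have hd0r : (0 : ℝ) < d := by linarith
  have hL : L0 ≤ Real.log d := by
    rw [Real.le_log_iff_exp_le hd0r]
    have h1 : ⌈Real.exp L0⌉₊ ≤ d := by omega
    exact (Nat.le_ceil _).trans (by exact_mod_cast h1)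
  obtain ⟨L, hLd⟩ : ∃ L : ℝ, L = Real.log d := ⟨_, rfl⟩
  rw [← hLd] at hL
  have hLpos : 0 < L := by
    refine lt_of_lt_of_le ?_ hL
    rw [hL0]; positivity
  have hL1 : 1 / ε ≤ L := by
    refine le_trans ?_ hL
    rw [hL0]
    have : 0 < 2 / cb + 6 / ε + 2 := by positivity
    linarith
  have hL2 : 2 / cb ≤ L := by
    refine le_trans ?_ hL
    rw [hL0]
    have : 0 < 1 / ε + 6 / ε + 2 := by positivity
    linarith
  have hL3 : 6 / ε ≤ L := by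
    refine le_trans ?_ hL
    rw [hL0]
    have : 0 < 1 / ε + 2 / cb + 2 := by positivity
    linarith
  have hεL : 1 ≤ ε * L := by
    rw [div_le_iff₀ hε] at hL1
    linarith
  have hcL : 2 ≤ cb * L := by
    rw [div_le_iff₀ hcb0] at hL2
    linarith
  have hεL6 : 6 ≤ ε * L := by
    rw [div_le_iff₀ hε] at hL3
    linarith
  have hpow : ∀ x : ℝ, (d : ℝ) ^ x = Real.exp (x * L) := by
    intro x
    rw [Real.rpow_def_of_pos hd0r, ← hLd, mul_comm]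
  obtain ⟨z, hz⟩ : ∃ z : ℕ, z = ⌊(d : ℝ) ^ cb⌋₊ := ⟨_, rfl⟩
  obtain ⟨Y, hY⟩ : ∃ Y : ℕ, Y = ⌊(d : ℝ) ^ (1 + ε)⌋₊ := ⟨_, rfl⟩
  obtain ⟨X, hX⟩ : ∃ X : ℕ, X = ⌊(d : ℝ) ^ (1 + 2 * ε)⌋₊ := ⟨_, rfl⟩
  rw [← hY, ← hX]
  have hfl : ∀ x : ℝ, 1 ≤ x → x / 2 ≤ (⌊x⌋₊ : ℝ) := by
    intro x hx
    have h1 := Nat.lt_floor_add_one x
    have h2 : (1 : ℝ) ≤ (⌊x⌋₊ : ℝ) := by exact_mod_cast (Nat.one_le_floor_iff x).2 hx
    linarith
  have hexp2 : (2 : ℝ) ≤ Real.exp 1 := by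
    have := Real.add_one_le_exp (1 : ℝ)
    linarith
  have hdz : (4 : ℝ) ≤ (d : ℝ) ^ cb := by
    rw [hpow]
    calc (4 : ℝ) ≤ Real.exp 1 * Real.exp 1 := by nlinarith
      _ = Real.exp 2 := by rw [← Real.exp_add]; norm_num
      _ ≤ _ := Real.exp_le_exp.2 hcL
  have hzlow : (d : ℝ) ^ cb / 2 ≤ z := by rw [hz]; exact hfl _ (by linarith)
  have hz2r : (2 : ℝ) ≤ z := by linarith
  have hz2 : 2 ≤ z := by exact_mod_cast hz2r
  have hzup : (z : ℝ) ≤ (d : ℝ) ^ cb := by rw [hz]; exact Nat.floor_le (by positivity)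
  have hlog2 : Real.log 2 ≤ 1 := by
    have := Real.log_le_sub_one_of_pos (show (0 : ℝ) < 2 by norm_num)
    linarith
  have hlogz : cb / 2 * L ≤ Real.log z := by
    have h1 : Real.log ((d : ℝ) ^ cb / 2) ≤ Real.log z := Real.log_le_log (by positivity) hzlow
    rw [Real.log_div (by positivity) (by norm_num), Real.log_rpow hd0r, ← hLd] at h1
    linarith
  have hlz0 : 0 < Real.log z := lt_of_lt_of_le (by positivity) hlogz
  have hd1e : (1 : ℝ) ≤ (d : ℝ) ^ (1 + ε) := Real.one_le_rpow hd1r (by linarith)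
  have hYlow : (d : ℝ) ^ (1 + ε) / 2 ≤ Y := by rw [hY]; exact hfl _ hd1e
  have hXup : (X : ℝ) ≤ (d : ℝ) ^ (1 + 2 * ε) := by rw [hX]; exact Nat.floor_le (by positivity)
  have hY0 : (0 : ℝ) < Y := lt_of_lt_of_le (by positivity) hYlow
  have hYX : Y ≤ X := by
    rw [hY, hX]
    exact Nat.floor_le_floor (Real.rpow_le_rpow_of_exponent_le hd1r (by linarith))
  have hzY' : z ≤ Y := by
    rw [hz, hY]
    exact Nat.floor_le_floor (Real.rpow_le_rpow_of_exponent_le hd1r (by linarith))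
  have hzK : (z : ℝ) ^ K ≤ (d : ℝ) ^ (ε / 2) := by
    calc (z : ℝ) ^ K ≤ ((d : ℝ) ^ cb) ^ K := pow_le_pow_left₀ (by positivity) hzup K
      _ = (d : ℝ) ^ (cb * K) := by rw [← Real.rpow_natCast, ← Real.rpow_mul hd0r.le]
      _ ≤ _ := Real.rpow_le_rpow_of_exponent_le hd1r hcbK'
  have hzY : 2 * z ^ K ≤ Y := by
    rw [hY]
    refine Nat.le_floor ?_
    push_cast
    calc 2 * (z : ℝ) ^ K ≤ d * (d : ℝ) ^ (ε / 2) := by
          refine mul_le_mul hd2r hzK (by positivity) hd0r.le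
      _ ≤ d * (d : ℝ) ^ ε := by
          refine mul_le_mul_of_nonneg_left (Real.rpow_le_rpow_of_exponent_le hd1r (by linarith)) hd0r.le
      _ = (d : ℝ) ^ (1 + ε) := by rw [Real.rpow_add hd0r, Real.rpow_one]
  obtain ⟨u, l, hF⟩ := hK z hz2
  have hmain := brun_one hF zero_le_one hz2 d b Y X hzY hzY' hYX
  have hφ : (0 : ℝ) < (Fintype.card (ZMod d)ˣ : ℝ) := by exact_mod_cast Fintype.card_pos
  have hφd : (Fintype.card (ZMod d)ˣ : ℝ) ≤ d := by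
    rw [ZMod.card_units_eq_totient]
    exact_mod_cast Nat.totient_le d
  have hsub : ∑ m ∈ (primesOff d Y X).filter (fun m : ℕ => (m : ZMod d) = (b : ZMod d)), rc m ≤
      ∑ m ∈ ((Ioc Y X).filter Nat.Prime).filter (fun m : ℕ => (m : ZMod d) = (b : ZMod d)), rc m := by
    refine sum_le_sum_of_subset_of_nonneg (fun m hm => ?_) (fun n _ _ => by unfold rc; positivity)
    obtain ⟨hm1, hm2⟩ := mem_filter.1 hm
    obtain ⟨hm3, hm4⟩ := mem_filter.1 hm1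
    exact mem_filter.2 ⟨mem_filter.2 ⟨mem_Ioc.2 ⟨hm4.2.1, (mem_Icc.1 hm3).2⟩, hm4.1⟩, hm2⟩
  have hlogXY : Real.log ((X : ℝ) / Y) ≤ 2 * (ε * L) := by
    have h1 : (X : ℝ) / Y ≤ 2 * (d : ℝ) ^ ε := by
      rw [div_le_iff₀ hY0]
      calc (X : ℝ) ≤ (d : ℝ) ^ (1 + 2 * ε) := hXup
        _ = 2 * (d : ℝ) ^ ε * ((d : ℝ) ^ (1 + ε) / 2) := by
            rw [show 1 + 2 * ε = ε + (1 + ε) by ring, Real.rpow_add hd0r]; ring
        _ ≤ _ := mul_le_mul_of_nonneg_left hYlow (by positivity)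
    have hX0 : (0 : ℝ) < X := lt_of_lt_of_le hY0 (by exact_mod_cast hYX)
    have h2 := Real.log_le_log (by positivity) h1
    rw [Real.log_mul (by norm_num) (by positivity), Real.log_rpow hd0r, ← hLd] at h2
    linarith
  have hL0' : 0 ≤ Real.log ((X : ℝ) / Y) := Real.log_nonneg ((one_le_div hY0).2 (by exact_mod_cast hYX))
  have ht1 : (1 + 1) * Real.log ((X : ℝ) / Y) / ((Fintype.card (ZMod d)ˣ : ℝ) * Real.log z) ≤
      (8 * ε / cb) / (Fintype.card (ZMod d)ˣ : ℝ) := by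
    rw [div_le_div_iff₀ (by positivity) hφ]
    have h1 : 4 * (ε * L) ≤ 8 * ε / cb * Real.log z := by
      have h2 : 8 * ε / cb * (cb / 2 * L) ≤ 8 * ε / cb * Real.log z :=
        mul_le_mul_of_nonneg_left hlogz (by positivity)
      have h3 : 8 * ε / cb * (cb / 2 * L) = 4 * (ε * L) := by field_simp; ring
      linarith
    calc (1 + 1) * Real.log ((X : ℝ) / Y) * (Fintype.card (ZMod d)ˣ : ℝ) ≤
        (4 * (ε * L)) * (Fintype.card (ZMod d)ˣ : ℝ) :=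
          mul_le_mul_of_nonneg_right (by linarith) hφ.le
      _ ≤ (8 * ε / cb * Real.log z) * (Fintype.card (ZMod d)ˣ : ℝ) := mul_le_mul_of_nonneg_right h1 hφ.le
      _ = _ := by ring
  have ht2 : (z : ℝ) ^ K * (4 / Y) ≤ 1 / (Fintype.card (ZMod d)ˣ : ℝ) := by
    have h8 : (8 : ℝ) ≤ (d : ℝ) ^ (ε / 2) := by
      rw [hpow]
      calc (8 : ℝ) ≤ Real.exp 1 * Real.exp 1 * Real.exp 1 := by
            have h9 : (4 : ℝ) ≤ Real.exp 1 * Real.exp 1 := by nlinarith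
            nlinarith
        _ = Real.exp 3 := by rw [← Real.exp_add, ← Real.exp_add]; norm_num
        _ ≤ _ := Real.exp_le_exp.2 (by linarith)
    have h1 : (z : ℝ) ^ K * (4 / Y) ≤ 1 / d := by
      rw [mul_div_assoc', div_le_div_iff₀ hY0 hd0r]
      calc (z : ℝ) ^ K * 4 * d ≤ (d : ℝ) ^ (ε / 2) * 4 * d := by
            refine mul_le_mul_of_nonneg_right (mul_le_mul_of_nonneg_right hzK (by norm_num)) hd0r.le
        _ ≤ (d : ℝ) ^ (ε / 2) * ((d : ℝ) ^ (ε / 2) / 2) * d := by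
            refine mul_le_mul_of_nonneg_right (mul_le_mul_of_nonneg_left (by linarith) (by positivity)) hd0r.le
        _ = (d : ℝ) ^ (1 + ε) / 2 := by
            rw [show (1 : ℝ) + ε = 1 + (ε / 2 + ε / 2) by ring, Real.rpow_add hd0r, Real.rpow_add hd0r, Real.rpow_one]
            ring
        _ ≤ 1 * Y := by linarith
    refine h1.trans ?_
    exact one_div_le_one_div_of_le hφ hφd
  calc _ ≤ _ := hsub
    _ ≤ _ := hmain
    _ ≤ (8 * ε / cb) / (Fintype.card (ZMod d)ˣ : ℝ) + 1 / (Fintype.card (ZMod d)ˣ : ℝ) := add_le_add ht1 ht2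
    _ = _ := by ring

end Pool.Agent.Lib.MP_42948a_nt.EX
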