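import Pool.Agent.Lib.MP_42948a_nt.EX.Defs
import Pool.Agent.Lib.MP_42948a_nt.TQ.B1

/-!
# Expansion in characters (job D2)

`AR N a ξ * AR B rc ξ * AR T rc ξ = ∑_{n, m, t} a n rc m rc t * ξ (n m t)` (`Finset.sum_mul_sum`, multiplicativity), times `conj (ev ξ c)`, summed over `ξ`:
`∑_ξ ξ x * conj (ev ξ c) = φ` if `x = c`, else `0`, for every `x : ZMod d` (if `x` is not a unit then `ξ x = 0`, and `x ≠ c`; if `x` is a unit `w`: `ev ξ w * conj (ev ξ c) = ev ξ (w * c⁻¹)`, `sum_ev` of TQ/B1; or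
`DirichletCharacter.sum_char_inv_mul_char_eq` as in `OM/A1.lean`).
-/

namespace Pool.Agent.Lib.MP_42948a_nt.EX

open Finset Pool.Agent.Lib.MP_42948a_nt.OA Pool.Agent.Lib.MP_42948a_nt.AC Pool.Agent.Lib.MP_42948a_nt.TQ
  Pool.Agent.Lib.MP_42948a_nt.PS

theorem EX_D2_comm {ι : Type*} (I : Finset ι) (N B T : Finset ℕ) (F : ι → ℕ → ℕ → ℕ → ℂ) :
    ∑ i ∈ I, ∑ n ∈ N, ∑ m ∈ B, ∑ t ∈ T, F i n m t = ∑ n ∈ N, ∑ m ∈ B, ∑ t ∈ T, ∑ i ∈ I, F i n m t := by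
  rw [Finset.sum_comm]
  refine Finset.sum_congr rfl fun n _ => ?_
  rw [Finset.sum_comm]
  refine Finset.sum_congr rfl fun m _ => ?_
  rw [Finset.sum_comm]

theorem EX_D2_orth (d : ℕ) [NeZero d] (c : (ZMod d)ˣ) (x : ZMod d) :
    ∑ ξ : DirichletCharacter ℂ d, ξ x * (starRingEnd ℂ) (ev ξ c) =
      if x = (c : ZMod d) then (Fintype.card (ZMod d)ˣ : ℂ) else 0 := by
  have h := DirichletCharacter.sum_char_inv_mul_char_eq ℂ (Units.isUnit c) x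
  rw [ZMod.inv_coe_unit] at h
  have h1 : ∀ ξ : DirichletCharacter ℂ d, ξ x * (starRingEnd ℂ) (ev ξ c) =
      ξ ((c⁻¹ : (ZMod d)ˣ) : ZMod d) * ξ x := by
    intro ξ
    rw [conj_ev, mul_comm]
    rfl
  rw [Finset.sum_congr rfl fun ξ _ => h1 ξ, h, ZMod.card_units_eq_totient]
  simp only [eq_comm]

theorem tri_fourier (d : ℕ) [NeZero d] (N B T : Finset ℕ) (a : ℕ → ℝ) (c : (ZMod d)ˣ) :
    (Fintype.card (ZMod d)ˣ : ℂ) * ((tri d N B T a c : ℝ) : ℂ) =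
      ∑ ξ : DirichletCharacter ℂ d, AR N a ξ * AR B rc ξ * AR T rc ξ * (starRingEnd ℂ) (ev ξ c) := by
  have h1 : ∀ ξ : DirichletCharacter ℂ d,
      AR N a ξ * AR B rc ξ * AR T rc ξ * (starRingEnd ℂ) (ev ξ c) =
      ∑ n ∈ N, ∑ m ∈ B, ∑ t ∈ T, ((a n : ℂ) * ((rc m : ℂ) * (rc t : ℂ))) *
        (ξ ((n * m * t : ℕ) : ZMod d) * (starRingEnd ℂ) (ev ξ c)) := by
    intro ξ
    unfold AR
    rw [Finset.sum_mul_sum, Finset.sum_mul, Finset.sum_mul]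
    refine Finset.sum_congr rfl fun n _ => ?_
    rw [Finset.sum_mul, Finset.sum_mul]
    refine Finset.sum_congr rfl fun m _ => ?_
    rw [Finset.mul_sum, Finset.sum_mul]
    refine Finset.sum_congr rfl fun t _ => ?_
    rw [Nat.cast_mul, Nat.cast_mul, map_mul, map_mul]
    ring
  rw [Finset.sum_congr rfl fun ξ _ => h1 ξ, EX_D2_comm]
  unfold tri
  rw [Complex.ofReal_sum, Finset.mul_sum]
  refine Finset.sum_congr rfl fun n _ => ?_
  rw [Complex.ofReal_sum, Finset.mul_sum]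
  refine Finset.sum_congr rfl fun m _ => ?_
  rw [Complex.ofReal_sum, Finset.mul_sum]
  refine Finset.sum_congr rfl fun t _ => ?_
  rw [← Finset.mul_sum, EX_D2_orth]
  split_ifs
  · push_cast
    ring
  · push_cast
    ring

end Pool.Agent.Lib.MP_42948a_nt.EX
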