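import Pool.Agent.Lib.MP_42948a_nt.EX.D2
import Pool.Agent.Lib.MP_42948a_nt.TQ.M1

/-!
# The remaining characters (job D3)

Split the characters `ξ ∉ {1, D}` into those of `S` and the others. `ξ ∈ S`: each term has norm `≤ e * WB * WT` (`|conj (ev ξ c)| = 1`, `norm_ev`). `ξ ∉ S`: the norm is `≤ v WT * ‖AR N a ξ‖ * ‖AR B rc ξ‖`, and
`∑_ξ ‖AR N a ξ‖ * ‖AR B rc ξ‖ ≤ n2 * b2` by Cauchy-Schwarz (`M1_cs` of TQ/M1 or `Finset.sum_mul_sq_le_sq_mul_sq`).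
-/

namespace Pool.Agent.Lib.MP_42948a_nt.EX

open Finset Pool.Agent.Lib.MP_42948a_nt.OA Pool.Agent.Lib.MP_42948a_nt.AC Pool.Agent.Lib.MP_42948a_nt.TQ
  Pool.Agent.Lib.MP_42948a_nt.PS

open Classical in
theorem rest_le (d : ℕ) [NeZero d] (N B T : Finset ℕ) (a : ℕ → ℝ) (c : (ZMod d)ˣ) (D : DirichletCharacter ℂ d)
    (WB WT e n2 b2 v : ℝ) (hWB0 : 0 ≤ WB) (hWT0 : 0 ≤ WT) (he : 0 ≤ e) (hn2 : 0 ≤ n2) (hb2 : 0 ≤ b2) (hv : 0 ≤ v)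
    (hWB : ∀ ξ : DirichletCharacter ℂ d, ‖AR B rc ξ‖ ≤ WB) (hWT : ∀ ξ : DirichletCharacter ℂ d, ‖AR T rc ξ‖ ≤ WT)
    (hinf : ∀ ξ : DirichletCharacter ℂ d, ξ ≠ 1 → ξ ≠ D → ‖AR N a ξ‖ ≤ e)
    (hN2 : ∑ ξ : DirichletCharacter ℂ d, ‖AR N a ξ‖ ^ 2 ≤ n2 ^ 2)
    (hB2 : ∑ ξ : DirichletCharacter ℂ d, ‖AR B rc ξ‖ ^ 2 ≤ b2 ^ 2)
    (S : Finset (DirichletCharacter ℂ d)) (hS : ∀ ξ, ξ ∉ S → ‖AR T rc ξ‖ ≤ v * WT) :
    ‖∑ ξ ∈ (univ : Finset (DirichletCharacter ℂ d)).filter (fun ξ => ξ ≠ 1 ∧ ξ ≠ D),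
      AR N a ξ * AR B rc ξ * AR T rc ξ * (starRingEnd ℂ) (ev ξ c)‖ ≤
      (S.card : ℝ) * (e * WB * WT) + v * WT * (n2 * b2) := by
  have hterm : ∀ ξ ∈ (univ : Finset (DirichletCharacter ℂ d)).filter (fun ξ => ξ ≠ 1 ∧ ξ ≠ D),
      ‖AR N a ξ * AR B rc ξ * AR T rc ξ * (starRingEnd ℂ) (ev ξ c)‖ ≤
      (if ξ ∈ S then e * WB * WT else 0) + v * WT * (‖AR N a ξ‖ * ‖AR B rc ξ‖) := by
    intro ξ hξ
    obtain ⟨-, h1, h2⟩ := Finset.mem_filter.1 hξ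
    rw [norm_mul, norm_mul, norm_mul, RCLike.norm_conj, norm_ev, mul_one]
    have hn := norm_nonneg (AR N a ξ)
    have hb := norm_nonneg (AR B rc ξ)
    have ht := norm_nonneg (AR T rc ξ)
    have h0 : 0 ≤ v * WT * (‖AR N a ξ‖ * ‖AR B rc ξ‖) := by positivity
    by_cases hξS : ξ ∈ S
    · rw [if_pos hξS]
      have h3 : ‖AR N a ξ‖ * ‖AR B rc ξ‖ * ‖AR T rc ξ‖ ≤ e * WB * WT :=
        mul_le_mul (mul_le_mul (hinf ξ h1 h2) (hWB ξ) hb he) (hWT ξ) ht (mul_nonneg he hWB0)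
      linarith
    · rw [if_neg hξS, zero_add]
      have h3 : ‖AR N a ξ‖ * ‖AR B rc ξ‖ * ‖AR T rc ξ‖ ≤ ‖AR N a ξ‖ * ‖AR B rc ξ‖ * (v * WT) :=
        mul_le_mul_of_nonneg_left (hS ξ hξS) (mul_nonneg hn hb)
      linarith
  have h1 : ∑ ξ ∈ (univ : Finset (DirichletCharacter ℂ d)).filter (fun ξ => ξ ≠ 1 ∧ ξ ≠ D),
      (if ξ ∈ S then e * WB * WT else 0) ≤ (S.card : ℝ) * (e * WB * WT) := by
    rw [Finset.sum_ite_mem, Finset.sum_const, nsmul_eq_mul]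
    refine mul_le_mul_of_nonneg_right ?_ (by positivity)
    exact_mod_cast Finset.card_le_card Finset.inter_subset_right
  have h2 : ∑ ξ ∈ (univ : Finset (DirichletCharacter ℂ d)).filter (fun ξ => ξ ≠ 1 ∧ ξ ≠ D),
      ‖AR N a ξ‖ * ‖AR B rc ξ‖ ≤ n2 * b2 := by
    refine le_trans (Finset.sum_le_sum_of_subset_of_nonneg (Finset.filter_subset _ _)
      fun ξ _ _ => mul_nonneg (norm_nonneg _) (norm_nonneg _)) ?_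
    exact M1_cs univ (fun ξ => ‖AR N a ξ‖) (fun ξ => ‖AR B rc ξ‖) (n2 ^ 2) (b2 ^ 2) (n2 * b2)
      hN2 hB2 (mul_nonneg hn2 hb2) (le_of_eq (by ring))
  refine (norm_sum_le _ _).trans ((Finset.sum_le_sum hterm).trans ?_)
  rw [Finset.sum_add_distrib, ← Finset.mul_sum]
  exact add_le_add h1 (mul_le_mul_of_nonneg_left h2 (mul_nonneg hv hWT0))

end Pool.Agent.Lib.MP_42948a_nt.EX
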