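import Pool.Agent.Lib.MP_42948a_nt.PS.Defs
import Pool.Agent.Lib.MP_42948a_nt.OA.EJ

/-!
# An exceptional real character gives products of three primes: definitions

`OA`, `AC`, `TQ`, `PS` are the libraries of earlier results (`Rough`, `PP`, `SwT`, `rr`, `LL`, `gg`, `chi`, `primesOff`, `BB`, `RealChar`, `Fund`,
`TT`, `rho`, `ucl`, `ev`, `AR`, `Wt`, `Pa` come from there). `X = ⌊d^(1+2ε)⌋`, `Y = ⌊d^(1+ε)⌋`, `z = ⌊d^α⌋` throughout; `B` = primes in `(Y, X]`,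
`T` = primes in `(z, ⌊d^(2α)⌋]` prime to `d`.
-/

namespace Pool.Agent.Lib.MP_42948a_nt.EX

open Finset Pool.Agent.Lib.MP_42948a_nt.OA Pool.Agent.Lib.MP_42948a_nt.AC Pool.Agent.Lib.MP_42948a_nt.TQ
  Pool.Agent.Lib.MP_42948a_nt.PS

/-- the smooth weight `max 0 (1 - n / t)` -/
noncomputable def wt (t : ℝ) (n : ℕ) : ℝ := max 0 (1 - (n : ℝ) / t)

/-- the weight `1 / m` -/
noncomputable def rc (m : ℕ) : ℝ := 1 / (m : ℝ)

/-- the Dirichlet character of `ψ` -/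
noncomputable def dch {d : ℕ} (ψ : (ZMod d)ˣ →* ℤˣ) : DirichletCharacter ℂ d :=
  MulChar.ofUnitHom ((Units.map (Int.castRingHom ℂ).toMonoidHom).comp ψ)

theorem dch_coe {d : ℕ} (ψ : (ZMod d)ˣ →* ℤˣ) (a : (ZMod d)ˣ) : dch ψ (a : ZMod d) = (((ψ a : ℤˣ) : ℤ) : ℂ) := by
  unfold dch
  rw [MulChar.ofUnitHom_coe]
  rfl

theorem dch_nat {d : ℕ} (ψ : (ZMod d)ˣ →* ℤˣ) (n : ℕ) : dch ψ (n : ZMod d) = ((chi ψ n : ℝ) : ℂ) := by
  by_cases h : IsUnit (n : ZMod d)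
  · obtain ⟨u, hu⟩ := h
    rw [EJ_eq ψ n u hu.symm, ← hu, dch_coe]
    push_cast
    rfl
  · rw [MulChar.map_nonunit _ h, EJ_zero ψ n h, Complex.ofReal_zero]

theorem dch_sq {d : ℕ} (ψ : (ZMod d)ˣ →* ℤˣ) : dch ψ ^ 2 = 1 := by
  refine MulChar.ext fun a => ?_
  rw [MulChar.pow_apply_coe, dch_coe, MulChar.one_apply_coe]
  rcases Int.units_eq_one_or (ψ a) with h | h
  · rw [h]
    norm_num
  · rw [h]
    norm_num

theorem dch_ne {d : ℕ} (ψ : (ZMod d)ˣ →* ℤˣ) (hψ : ψ ≠ 1) : dch ψ ≠ 1 := by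
  intro h
  apply hψ
  refine MonoidHom.ext fun a => ?_
  have h1 := dch_coe ψ a
  rw [h, MulChar.one_apply_coe] at h1
  rcases Int.units_eq_one_or (ψ a) with h2 | h2
  · rw [h2]
    rfl
  · rw [h2] at h1
    norm_num at h1

/-- Dirichlet convolution of `f` and `g` -/
noncomputable def cv (f g : ℕ → ℂ) (n : ℕ) : ℂ := ∑ a ∈ n.divisors, f a * g (n / a)

/-- the smoothed sum of `cv f g` over multiples of all `p ∈ T` -/
noncomputable def SC (f g : ℕ → ℂ) (N : ℕ) (T : Finset ℕ) (t : ℝ) : ℂ :=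
  ∑ n ∈ (Icc 1 N).filter (fun n => ∀ p ∈ T, p ∣ n), cv f g n * ((wt t n : ℝ) : ℂ)

/-- the weighted number of solutions of `n m t ≡ c`, `n ∈ N`, `m ∈ B`, `t ∈ T` -/
noncomputable def tri (d : ℕ) (N B T : Finset ℕ) (a : ℕ → ℝ) (c : (ZMod d)ˣ) : ℝ :=
  ∑ n ∈ N, ∑ m ∈ B, ∑ t ∈ T, a n * (rc m * rc t) * (if ((n * m * t : ℕ) : ZMod d) = (c : ZMod d) then 1 else 0)

/-- the sieve product of `1 * χ` -/
noncomputable def VG (χ : ℕ → ℝ) (z : ℕ) : ℝ := ∏ p ∈ PP z, (1 - gg χ p)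

open Classical in
/-- the sequence `(1 * χ)(n) max(0, 1 - n/X)` on rough numbers -/
noncomputable def aR (χ : ℕ → ℝ) (z X : ℕ) (n : ℕ) : ℝ := (if Rough z n then rr χ n else 0) * wt X n

/-- its minorant given by the lower sieve weights -/
noncomputable def aL (χ : ℕ → ℝ) (z X : ℕ) (l : Finset ℕ → ℝ) (n : ℕ) : ℝ := rho z l n * rr χ n * wt X n

end Pool.Agent.Lib.MP_42948a_nt.EX
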