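import Pool.Agent.Lib.MP_42948a_nt.EX.A3

/-!
# Composite numbers (job E1)

All terms are `≥ 0`. Let `n ∈ Icc 1 X` be coprime to `d`, `z`-rough, `n ≠ 1`, not prime, with `rr χ n ≠ 0`, and `q = n.minFac`: `q` is prime, `z < q`, `q ∤ d`, `χ q ≠ 0`, `q^2 ≤ n ≤ X` (`Nat.minFac_sq_le_self`), so `q ≤ H`. `n = q m`, `1 ≤ m`.
(i) `q ∣ m`: `rr χ n * wt X n ≤ #(divisors n) ≤ Cr`; the number of such `n ≤ X` is at most `∑_{q ∈ Ioc z X} X / q^2 ≤ X / z` (`1/q^2 ≤ 1/(q-1) - 1/q`).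
(ii) `¬ q ∣ m`: `rr_minFac`: `χ q = 1`, `rr χ n = 2 rr χ m`; `wt X (q m) = wt (X / q) m` (`wt_scale`); `m ∈ Icc 1 X` is `z`-rough (`Rough.of_dvd`), so `1 ≤ rho z u m`. Thus `aR χ z X n ≤ 2 (rho z u m * rr χ m * wt (X / q) m)`,
and `n ↦ (q, m)` is injective into `Q × Icc 1 X`, `Q = (primesOff d z H).filter (χ = 1)`.
-/

namespace Pool.Agent.Lib.MP_42948a_nt.EX

open Finset Pool.Agent.Lib.MP_42948a_nt.OA Pool.Agent.Lib.MP_42948a_nt.AC Pool.Agent.Lib.MP_42948a_nt.TQ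
  Pool.Agent.Lib.MP_42948a_nt.PS

open Classical in
theorem comp_sum {τ : ℝ} {K z : ℕ} {u l : Finset ℕ → ℝ} (hF : Fund τ K z u l) (d : ℕ) (hz : 1 ≤ z)
    {χ : ℕ → ℝ} (hχ : RealChar d χ) (X H Cr : ℕ) (hX : 1 ≤ X) (hH : X < (H + 1) ^ 2)
    (hCr : ∀ n : ℕ, Rough z n → n ≤ X → n.divisors.card ≤ Cr) :
    ∑ n ∈ (Icc 1 X).filter (fun n : ℕ => n.Coprime d ∧ n ≠ 1 ∧ ¬ n.Prime), aR χ z X n ≤
      (Cr : ℝ) * X / z + ∑ q ∈ (primesOff d z H).filter (fun q => χ q = 1),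
        2 * ∑ m ∈ Icc 1 X, rho z u m * rr χ m * wt ((X : ℝ) / q) m := by
  have hr0 : ∀ n, 0 ≤ rr χ n := fun n => rr_nonneg χ hχ.mul hχ.one hχ.val n
  have hXr : (0 : ℝ) < X := by exact_mod_cast hX
  have hz0 : (0 : ℝ) < z := by exact_mod_cast hz
  obtain ⟨S, hS⟩ : ∃ S, S = (Icc 1 X).filter (fun n : ℕ => n.Coprime d ∧ n ≠ 1 ∧ ¬ n.Prime) := ⟨_, rfl⟩
  rw [← hS]
  -- the relevant numbers
  obtain ⟨S0, hS0⟩ : ∃ S0, S0 = S.filter (fun n => Rough z n ∧ rr χ n ≠ 0) := ⟨_, rfl⟩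
  have hsum0 : ∑ n ∈ S, aR χ z X n = ∑ n ∈ S0, aR χ z X n := by
    rw [hS0]
    symm
    refine sum_subset (filter_subset _ _) fun n hn hn' => ?_
    unfold aR
    by_cases h : Rough z n
    · rw [if_pos h]
      have h0 : rr χ n = 0 := by
        by_contra hc
        exact hn' (mem_filter.2 ⟨hn, h, hc⟩)
      rw [h0, zero_mul]
    · rw [if_neg h, zero_mul]
  have hfact : ∀ n ∈ S0, n.minFac.Prime ∧ z < n.minFac ∧ ¬ n.minFac ∣ d ∧ χ n.minFac ≠ 0 ∧ n.minFac ≤ H ∧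
      n = n.minFac * (n / n.minFac) ∧ 1 ≤ n / n.minFac ∧ n / n.minFac ≤ X ∧ Rough z n ∧ rr χ n ≠ 0 ∧ 1 ≤ n ∧ n ≤ X := by
    intro n hn
    rw [hS0, hS] at hn
    obtain ⟨h1, hR, h0⟩ := mem_filter.1 hn
    obtain ⟨h2, hcop, hn1, hnp⟩ := mem_filter.1 h1
    obtain ⟨h3, h4⟩ := mem_Icc.1 h2
    have hp := Nat.minFac_prime hn1
    have hdv := Nat.minFac_dvd n
    have hnd : ¬ n.minFac ∣ d := by
      intro h
      have h5 := Nat.dvd_gcd hdv h
      rw [hcop] at h5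
      exact hp.one_lt.ne' (Nat.dvd_one.1 h5)
    have hsq := Nat.minFac_sq_le_self h3 hnp
    have hH' : n.minFac < H + 1 := by
      by_contra hc
      push Not at hc
      have := Nat.pow_le_pow_left hc 2
      omega
    refine ⟨hp, hR.2 _ hp hdv, hnd, hχ.ne _ ((hp.coprime_iff_not_dvd).2 hnd), by omega,
      (Nat.mul_div_cancel' hdv).symm, ?_, (Nat.div_le_self _ _).trans h4, hR, h0, h3, h4⟩
    exact Nat.div_pos (Nat.le_of_dvd h3 hdv) hp.pos
  obtain ⟨S1, hS1⟩ : ∃ S1, S1 = S0.filter (fun n => n.minFac ∣ n / n.minFac) := ⟨_, rfl⟩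
  obtain ⟨S2, hS2⟩ : ∃ S2, S2 = S0.filter (fun n => ¬ n.minFac ∣ n / n.minFac) := ⟨_, rfl⟩
  have hsplit : ∑ n ∈ S0, aR χ z X n = ∑ n ∈ S1, aR χ z X n + ∑ n ∈ S2, aR χ z X n := by
    rw [hS1, hS2]
    exact (sum_filter_add_sum_filter_not _ _ _).symm
  -- (i)
  have hA : ∑ n ∈ S1, aR χ z X n ≤ (Cr : ℝ) * X / z := by
    have hterm : ∀ n ∈ S1, aR χ z X n ≤ (Cr : ℝ) := by
      intro n hn
      rw [hS1] at hn
      obtain ⟨hn0, -⟩ := mem_filter.1 hn
      obtain ⟨-, -, -, -, -, -, -, -, hR, h0, h1, h2⟩ := hfact n hn0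
      unfold aR
      rw [if_pos hR]
      have h3 : rr χ n ≤ (Cr : ℝ) := by
        refine ((le_abs_self _).trans (rr_le hχ.val n)).trans ?_
        exact_mod_cast hCr n hR h2
      calc rr χ n * wt X n ≤ rr χ n * 1 := mul_le_mul_of_nonneg_left (wt_le_one hXr n) (hr0 n)
        _ ≤ Cr := by rw [mul_one]; exact h3
    have hcov : S1 ⊆ (Ioc z X).biUnion (fun q => (Ioc 0 X).filter (fun n => q ^ 2 ∣ n)) := by
      intro n hn
      rw [hS1] at hn
      obtain ⟨hn0, hq⟩ := mem_filter.1 hn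
      obtain ⟨hp, hzq, -, -, -, heq, hm1, -, hR, h0, h1, h2⟩ := hfact n hn0
      refine mem_biUnion.2 ⟨n.minFac, mem_Ioc.2 ⟨hzq, (Nat.minFac_le h1).trans h2⟩,
        mem_filter.2 ⟨mem_Ioc.2 ⟨h1, h2⟩, ?_⟩⟩
      obtain ⟨k, hk⟩ := hq
      refine ⟨k, ?_⟩
      calc n = n.minFac * (n / n.minFac) := heq
        _ = n.minFac * (n.minFac * k) := by rw [← hk]
        _ = n.minFac ^ 2 * k := by ring
    have hcard : (S1.card : ℝ) ≤ X / z := by
      have h1 : S1.card ≤ ∑ q ∈ Ioc z X, X / q ^ 2 := by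
        refine (card_le_card hcov).trans (card_biUnion_le.trans (le_of_eq ?_))
        refine sum_congr rfl fun q _ => ?_
        exact Nat.Ioc_filter_dvd_card_eq_div X (q ^ 2)
      have h2 : (S1.card : ℝ) ≤ ∑ q ∈ Ioc z X, (X : ℝ) * ((q : ℝ) ^ 2)⁻¹ := by
        calc (S1.card : ℝ) ≤ ((∑ q ∈ Ioc z X, X / q ^ 2 : ℕ) : ℝ) := by exact_mod_cast h1
          _ = ∑ q ∈ Ioc z X, ((X / q ^ 2 : ℕ) : ℝ) := by push_cast; rfl
          _ ≤ _ := by
            refine sum_le_sum fun q _ => ?_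
            refine Nat.cast_div_le.trans (le_of_eq ?_)
            push_cast
            rw [div_eq_mul_inv]
      rw [← mul_sum] at h2
      rcases le_or_gt z X with h | h
      · have h3 := sum_Ioc_inv_sq_le_sub (α := ℝ) (show z ≠ 0 by omega) h
        have h4 : (0 : ℝ) ≤ (X : ℝ)⁻¹ := by positivity
        calc (S1.card : ℝ) ≤ X * ∑ q ∈ Ioc z X, ((q : ℝ) ^ 2)⁻¹ := h2
          _ ≤ X * (z : ℝ)⁻¹ := mul_le_mul_of_nonneg_left (by linarith) hXr.le
          _ = _ := by rw [div_eq_mul_inv]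
      · rw [Ioc_eq_empty (by omega), sum_empty, mul_zero] at h2
        exact h2.trans (by positivity)
    calc ∑ n ∈ S1, aR χ z X n ≤ ∑ n ∈ S1, (Cr : ℝ) := sum_le_sum hterm
      _ = S1.card * Cr := by rw [sum_const, nsmul_eq_mul]
      _ ≤ X / z * Cr := mul_le_mul_of_nonneg_right hcard (by positivity)
      _ = _ := by ring
  -- (ii)
  have hB : ∑ n ∈ S2, aR χ z X n ≤ ∑ q ∈ (primesOff d z H).filter (fun q => χ q = 1),
        2 * ∑ m ∈ Icc 1 X, rho z u m * rr χ m * wt ((X : ℝ) / q) m := by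
    obtain ⟨g, hg⟩ : ∃ g : ℕ × ℕ → ℝ, g = fun x => 2 * (rho z u x.2 * rr χ x.2 * wt ((X : ℝ) / x.1) x.2) := ⟨_, rfl⟩
    have hterm : ∀ n ∈ S2, aR χ z X n ≤ g (n.minFac, n / n.minFac) ∧
        (n.minFac, n / n.minFac) ∈ (primesOff d z H).filter (fun q => χ q = 1) ×ˢ Icc 1 X := by
      intro n hn
      rw [hS2] at hn
      obtain ⟨hn0, hq⟩ := mem_filter.1 hn
      obtain ⟨hp, hzq, hqd, hq0, hqH, heq, hm1, hmX, hR, h0, h1, h2⟩ := hfact n hn0
      have h3 : rr χ (n.minFac * (n / n.minFac)) ≠ 0 := by rw [← heq]; exact h0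
      obtain ⟨h4, h5⟩ := rr_minFac hχ.mul hχ.one hχ.val hp hq hq0 h3
      have hRm : Rough z (n / n.minFac) := hR.of_dvd ⟨n.minFac, by rw [mul_comm]; exact heq⟩
      have h6 := (rho_le_rough hF (n := n / n.minFac) (by omega)).2.2.2 hRm
      have h7 : wt (X : ℝ) n = wt ((X : ℝ) / n.minFac) (n / n.minFac) := by
        rw [← wt_scale n.minFac (n / n.minFac) hp.pos hXr, ← heq]
      refine ⟨?_, mem_product.2 ⟨mem_filter.2 ⟨mem_filter.2 ⟨mem_Icc.2 ⟨hp.pos, hqH⟩, hp, hzq, hqd⟩, h4⟩,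
        mem_Icc.2 ⟨hm1, hmX⟩⟩⟩
      have h8 : rr χ n = 2 * rr χ (n / n.minFac) := by
        conv_lhs => rw [heq]
        exact h5
      rw [hg]
      unfold aR
      rw [if_pos hR, h8, h7]
      have h9 : 0 ≤ rr χ (n / n.minFac) * wt ((X : ℝ) / n.minFac) (n / n.minFac) :=
        mul_nonneg (hr0 _) (wt_nonneg _ _)
      change 2 * rr χ (n / n.minFac) * wt ((X : ℝ) / n.minFac) (n / n.minFac) ≤
        2 * (rho z u (n / n.minFac) * rr χ (n / n.minFac) * wt ((X : ℝ) / n.minFac) (n / n.minFac))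
      nlinarith [mul_le_mul_of_nonneg_right h6 h9]
    have hinj : Set.InjOn (fun n : ℕ => (n.minFac, n / n.minFac)) (S2 : Set ℕ) := by
      intro n hn m hm h
      have hn' : n ∈ S0 := by
        have : n ∈ S2 := hn
        rw [hS2] at this
        exact (mem_filter.1 this).1
      have hm' : m ∈ S0 := by
        have : m ∈ S2 := hm
        rw [hS2] at this
        exact (mem_filter.1 this).1
      obtain ⟨-, -, -, -, -, h1, -⟩ := hfact n hn'
      obtain ⟨-, -, -, -, -, h2, -⟩ := hfact m hm'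
      have h3 : n.minFac = m.minFac := congrArg Prod.fst h
      have h4 : n / n.minFac = m / m.minFac := congrArg Prod.snd h
      calc n = n.minFac * (n / n.minFac) := h1
        _ = m.minFac * (m / m.minFac) := by rw [h4, h3]
        _ = m := h2.symm
    calc ∑ n ∈ S2, aR χ z X n ≤ ∑ n ∈ S2, g (n.minFac, n / n.minFac) := sum_le_sum fun n hn => (hterm n hn).1
      _ = ∑ x ∈ S2.image (fun n : ℕ => (n.minFac, n / n.minFac)), g x := by
          rw [sum_image hinj]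
      _ ≤ ∑ x ∈ (primesOff d z H).filter (fun q => χ q = 1) ×ˢ Icc 1 X, g x := by
          refine sum_le_sum_of_subset_of_nonneg (fun x hx => ?_) (fun x hx _ => ?_)
          · obtain ⟨n, hn, rfl⟩ := mem_image.1 hx
            exact (hterm n hn).2
          · rw [hg]
            have h1 := (mem_Icc.1 (mem_product.1 hx).2).1
            have h2 := (rho_le_rough hF (n := x.2) (by omega)).2.2.1
            have h3 := wt_nonneg ((X : ℝ) / x.1) x.2
            have h4 := hr0 x.2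
            positivity
      _ = _ := by
          rw [sum_product, hg]
          refine sum_congr rfl fun q _ => ?_
          rw [mul_sum]
  rw [hsum0, hsplit]
  exact add_le_add hA hB

end Pool.Agent.Lib.MP_42948a_nt.EX
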